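import Pool.Agent.H875Z.Ins.Sys

/-!
# The base graph
-/

namespace Pool.Agent.Helper672.ZFA.H875

open FirstOrder FirstOrder.Language
open Pool.Agent.Helper672.Plain (LSet)
open Pool.Agent.Helper672.ZFA.H635
open Pool.Agent.H875Z.Ins

set_option linter.unusedSectionVars false
set_option synthInstance.maxSize 2000
set_option maxHeartbeats 400000

universe u

variable (M : Type u) [L.Structure M] [hM : IsModel M]

/-- Patterns. -/
abbrev Fl : Type u := IFun M (INat M) Bool

/-- The nodes. -/
abbrev Nd : Type u := INat M ⊕ ((IQ M × Fl M) ⊕ IQ M)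

variable {M}

/-- The node of a natural number. -/
abbrev na (n : INat M) : Nd M := Sum.inl n
/-- The node of a generic real. -/
abbrev xn (c : IQ M × Fl M) : Nd M := Sum.inr (Sum.inl c)
/-- The node of a class of generic reals. -/
abbrev tn (q : IQ M) : Nd M := Sum.inr (Sum.inr q)

/-- The base graph. -/
def BG (x : Nd M) (p : Pc M) (y : Nd M) : Prop :=
  (∃ m n, x = na m ∧ y = na n ∧ m < n) ∨
  (∃ (n : INat M) (c : IQ M × Fl M), x = na n ∧ y = xn c ∧ (c.1, (n, c.2 n)) ∈ p.1) ∨
  (∃ c : IQ M × Fl M, x = xn c ∧ y = tn c.1)

theorem ig_BG : IG M (BG (M := M)) := by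
  unfold IG BG
  (repeat' (first | with_reducible exact IntF.id | with_reducible exact IntF.fst' | with_reducible exact IntF.snd' | with_reducible exact IntF.const _ | with_reducible exact Int.const _ | assumption | with_reducible apply Int.and | with_reducible apply Int.or | with_reducible apply Int.not | with_reducible apply Int.imp | with_reducible apply Int.iff | with_reducible apply Int.ne | with_reducible apply Int.eq | with_reducible apply Int.mem | with_reducible apply Int.subset | with_reducible apply Int.ltN | with_reducible apply Int.leN | with_reducible_and_instances apply Int.le | with_reducible_and_instances apply Int.lt | with_reducible apply Int.all | with_reducible apply Int.ex | with_reducible apply IntF.fst | with_reducible apply IntF.snd | with_reducible apply IntF.app | with_reducible apply IntF.inl | with_reducible apply IntF.inr | with_reducible_and_instances apply IntF.mul | with_reducible_and_instances apply IntF.inv | with_reducible_and_instances apply IntF.add | with_reducible_and_instances apply IntF.sub | with_reducible_and_instances apply IntF.neg | with_reducible_and_instances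 apply IntF.div | with_reducible_and_instances apply IntF.smul | with_reducible apply IntF.succ | with_reducible apply IntF.val | with_reducible apply IntF.mk | (with_reducible refine Int.comp ?_ ?_; assumption) | (with_reducible refine Int.comp₂ ?_ ?_ ?_; assumption) | (with_reducible refine Int.comp₃ ?_ ?_ ?_ ?_; assumption) | (with_reducible refine Int.comp₄ ?_ ?_ ?_ ?_ ?_; assumption) | (with_reducible refine IntF.comp ?_ ?_; assumption) | (with_reducible refine IntF.comp₂ ?_ ?_ ?_; assumption) | (with_reducible refine IntF.comp₃ ?_ ?_ ?_ ?_; assumption) | with_reducible apply IntF.pair))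

variable {x : Nd M} {p : Pc M}

theorem BG_na {n : INat M} : BG x p (na n) ↔ ∃ m, x = na m ∧ m < n := by
  simp [BG, na, xn, tn]

theorem BG_xn {c : IQ M × Fl M} : BG x p (xn c) ↔ ∃ n, x = na n ∧ (c.1, (n, c.2 n)) ∈ p.1 := by
  unfold BG
  constructor
  · rintro (⟨m, n, rfl, h, h1⟩ | ⟨m, n, rfl, h, h1⟩ | ⟨k, rfl, h⟩)
    · cases h
    · cases h
      exact ⟨m, rfl, h1⟩
    · cases h
  · rintro ⟨k, rfl, h⟩
    exact Or.inr (Or.inl ⟨k, c, rfl, rfl, h⟩)

theorem BG_tn {q : IQ M} : BG x p (tn q) ↔ ∃ f, x = xn (q, f) := by
  unfold BG
  constructor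
  · rintro (⟨m, n, rfl, h, h1⟩ | ⟨m, n, rfl, h, h1⟩ | ⟨k, rfl, h⟩)
    · cases h
    · cases h
    · cases h
      exact ⟨k.2, rfl⟩
  · rintro ⟨k, rfl⟩
    exact Or.inr (Or.inr ⟨(q, k), rfl, rfl⟩)

theorem wf_BG : WFI M (BG (M := M)) := by
  intro s hs
  by_cases h1 : ∃ n, na n ∈ s
  · obtain ⟨n, h2, h3⟩ := INat.exists_least (p := fun n => na n ∈ s) (by (repeat' (first | with_reducible exact IntF.id | with_reducible exact IntF.fst' | with_reducible exact IntF.snd' | with_reducible exact IntF.const _ | with_reducible exact Int.const _ | assumption | with_reducible apply Int.and | with_reducible apply Int.or | with_reducible apply Int.not | with_reducible apply Int.imp | with_reducible apply Int.iff | with_reducible apply Int.ne | with_reducible apply Int.eq | with_reducible apply Int.mem | with_reducible apply Int.subset | with_reducible apply Int.ltN | with_reducible apply Int.leN | with_reducible_and_instances apply Int.le | with_reducible_and_instances apply Int.lt | with_reducible apply Int.all | with_reducible apply Int.ex | with_reducible apply IntF.fst | with_reducible apply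 IntF.snd | with_reducible apply IntF.app | with_reducible apply IntF.inl | with_reducible apply IntF.inr | with_reducible_and_instances apply IntF.mul | with_reducible_and_instances apply IntF.inv | with_reducible_and_instances apply IntF.add | with_reducible_and_instances apply IntF.sub | with_reducible_and_instances apply IntF.neg | with_reducible_and_instances apply IntF.div | with_reducible_and_instances apply IntF.smul | with_reducible apply IntF.succ | with_reducible apply IntF.val | with_reducible apply IntF.mk | (with_reducible refine Int.comp ?_ ?_; assumption) | (with_reducible refine Int.comp₂ ?_ ?_ ?_; assumption) | (with_reducible refine Int.comp₃ ?_ ?_ ?_ ?_; assumption) | (with_reducible refine Int.comp₄ ?_ ?_ ?_ ?_ ?_; assumption) | (with_reducible refine IntF.comp ?_ ?_; assumption) | (with_reducible refine IntF.comp₂ ?_ ?_ ?_; assumption) | (with_reducible refine IntF.comp₃ ?_ ?_ ?_ ?_; assumption) | with_reducible apply IntF.pair))) h1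
    refine ⟨na n, h2, fun x q hx h4 => ?_⟩
    obtain ⟨m, rfl, h5⟩ := BG_na.1 h4
    exact absurd (h3 m hx) (not_le.2 h5)
  by_cases h2 : ∃ k, xn k ∈ s
  · obtain ⟨k, hk⟩ := h2
    refine ⟨xn k, hk, fun x q hx h4 => ?_⟩
    obtain ⟨m, rfl, h5⟩ := BG_xn.1 h4
    exact h1 ⟨m, hx⟩
  obtain ⟨x, hx⟩ := hs
  refine ⟨x, hx, fun y q hy h4 => ?_⟩
  rcases x with n | k | i
  · exact h1 ⟨n, hx⟩
  · exact h2 ⟨k, hx⟩
  · obtain ⟨h, rfl⟩ := BG_tn.1 h4
    exact h2 ⟨_, hy⟩

/-- The action on pairs of a row and a pattern. -/
noncomputable def xa (π : Gm M) (c : IQ M × Fl M) : IQ M × Fl M :=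
  (ro π c.1, lam M fun n => (sg π (c.1, (n, c.2 n))).2.2)

theorem int_xa : IntF M (fun q : Gm M × (IQ M × Fl M) => xa q.1 q.2) := by
  have h := int_sg (M := M)
  have h' := int_ro (M := M)
  unfold xa
  refine IntF.pair (by (repeat' (first | with_reducible exact IntF.id | with_reducible exact IntF.fst' | with_reducible exact IntF.snd' | with_reducible exact IntF.const _ | with_reducible exact Int.const _ | assumption | with_reducible apply Int.and | with_reducible apply Int.or | with_reducible apply Int.not | with_reducible apply Int.imp | with_reducible apply Int.iff | with_reducible apply Int.ne | with_reducible apply Int.eq | with_reducible apply Int.mem | with_reducible apply Int.subset | with_reducible apply Int.ltN | with_reducible apply Int.leN | with_reducible_and_instances apply Int.le | with_reducible_and_instances apply Int.lt | with_reducible apply Int.all | with_reducible apply Int.ex | with_reducible apply IntF.fst | with_reducible apply IntF.snd | with_reducible apply IntF.app | with_reducible apply IntF.inl | with_reducible apply IntF.inr | with_reducible_and_instances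 apply IntF.mul | with_reducible_and_instances apply IntF.inv | with_reducible_and_instances apply IntF.add | with_reducible_and_instances apply IntF.sub | with_reducible_and_instances apply IntF.neg | with_reducible_and_instances apply IntF.div | with_reducible_and_instances apply IntF.smul | with_reducible apply IntF.succ | with_reducible apply IntF.val | with_reducible apply IntF.mk | (with_reducible refine Int.comp ?_ ?_; assumption) | (with_reducible refine Int.comp₂ ?_ ?_ ?_; assumption) | (with_reducible refine Int.comp₃ ?_ ?_ ?_ ?_; assumption) | (with_reducible refine Int.comp₄ ?_ ?_ ?_ ?_ ?_; assumption) | (with_reducible refine IntF.comp ?_ ?_; assumption) | (with_reducible refine IntF.comp₂ ?_ ?_ ?_; assumption) | (with_reducible refine IntF.comp₃ ?_ ?_ ?_ ?_; assumption) | with_reducible apply IntF.pair))) (IntF.lam ?_)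
  (repeat' (first | with_reducible exact IntF.id | with_reducible exact IntF.fst' | with_reducible exact IntF.snd' | with_reducible exact IntF.const _ | with_reducible exact Int.const _ | assumption | with_reducible apply Int.and | with_reducible apply Int.or | with_reducible apply Int.not | with_reducible apply Int.imp | with_reducible apply Int.iff | with_reducible apply Int.ne | with_reducible apply Int.eq | with_reducible apply Int.mem | with_reducible apply Int.subset | with_reducible apply Int.ltN | with_reducible apply Int.leN | with_reducible_and_instances apply Int.le | with_reducible_and_instances apply Int.lt | with_reducible apply Int.all | with_reducible apply Int.ex | with_reducible apply IntF.fst | with_reducible apply IntF.snd | with_reducible apply IntF.app | with_reducible apply IntF.inl | with_reducible apply IntF.inr | with_reducible_and_instances apply IntF.mul | with_reducible_and_instances apply IntF.inv | with_reducible_and_instances apply IntF.add | with_reducible_and_instances apply IntF.sub | with_reducible_and_instances apply IntF.neg | with_reducible_and_instances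 apply IntF.div | with_reducible_and_instances apply IntF.smul | with_reducible apply IntF.succ | with_reducible apply IntF.val | with_reducible apply IntF.mk | (with_reducible refine Int.comp ?_ ?_; assumption) | (with_reducible refine Int.comp₂ ?_ ?_ ?_; assumption) | (with_reducible refine Int.comp₃ ?_ ?_ ?_ ?_; assumption) | (with_reducible refine Int.comp₄ ?_ ?_ ?_ ?_ ?_; assumption) | (with_reducible refine IntF.comp ?_ ?_; assumption) | (with_reducible refine IntF.comp₂ ?_ ?_ ?_; assumption) | (with_reducible refine IntF.comp₃ ?_ ?_ ?_ ?_; assumption) | with_reducible apply IntF.pair))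

theorem xa_apply (π : Gm M) (c : IQ M × Fl M) (n : INat M) :
    ((xa π c).1, (n, (xa π c).2 n)) = sg π (c.1, (n, c.2 n)) := by
  have h := int_sg (M := M)
  rw [sg_eq]
  refine Prod.ext rfl (Prod.ext rfl ?_)
  exact lam_apply (f := fun n => (sg π (c.1, (n, c.2 n))).2.2) (by (repeat' (first | with_reducible exact IntF.id | with_reducible exact IntF.fst' | with_reducible exact IntF.snd' | with_reducible exact IntF.const _ | with_reducible exact Int.const _ | assumption | with_reducible apply Int.and | with_reducible apply Int.or | with_reducible apply Int.not | with_reducible apply Int.imp | with_reducible apply Int.iff | with_reducible apply Int.ne | with_reducible apply Int.eq | with_reducible apply Int.mem | with_reducible apply Int.subset | with_reducible apply Int.ltN | with_reducible apply Int.leN | with_reducible_and_instances apply Int.le | with_reducible_and_instances apply Int.lt | with_reducible apply Int.all | with_reducible apply Int.ex | with_reducible apply IntF.fst | with_reducible apply IntF.snd | with_reducible apply IntF.app | with_reducible apply IntF.inl | with_reducible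 apply IntF.inr | with_reducible_and_instances apply IntF.mul | with_reducible_and_instances apply IntF.inv | with_reducible_and_instances apply IntF.add | with_reducible_and_instances apply IntF.sub | with_reducible_and_instances apply IntF.neg | with_reducible_and_instances apply IntF.div | with_reducible_and_instances apply IntF.smul | with_reducible apply IntF.succ | with_reducible apply IntF.val | with_reducible apply IntF.mk | (with_reducible refine Int.comp ?_ ?_; assumption) | (with_reducible refine Int.comp₂ ?_ ?_ ?_; assumption) | (with_reducible refine Int.comp₃ ?_ ?_ ?_ ?_; assumption) | (with_reducible refine Int.comp₄ ?_ ?_ ?_ ?_ ?_; assumption) | (with_reducible refine IntF.comp ?_ ?_; assumption) | (with_reducible refine IntF.comp₂ ?_ ?_ ?_; assumption) | (with_reducible refine IntF.comp₃ ?_ ?_ ?_ ?_; assumption) | with_reducible apply IntF.pair))) n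

theorem xa_ext {c c' : IQ M × Fl M}
    (h : ∀ n, ((c.1, (n, c.2 n)) : Lit M) = (c'.1, (n, c'.2 n))) : c = c' :=
  Prod.ext (congrArg (fun l : Lit M => l.1) (h 0)) (IFun.ext' fun n => congrArg (fun l : Lit M => l.2.2) (h n))

theorem xa_inv_xa (π : Gm M) (c : IQ M × Fl M) : xa π⁻¹ (xa π c) = c :=
  xa_ext fun n => by rw [xa_apply, xa_apply, sg_inv_sg]

theorem xa_xa_inv (π : Gm M) (c : IQ M × Fl M) : xa π (xa π⁻¹ c) = c :=
  xa_ext fun n => by rw [xa_apply, xa_apply, sg_sg_inv]

/-- The action on nodes. -/
noncomputable def ta (π : Gm M) : Nd M → Nd M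
  | Sum.inl n => na n
  | Sum.inr (Sum.inl c) => xn (xa π c)
  | Sum.inr (Sum.inr q) => tn (ro π q)

theorem int_ta (π : Gm M) : IntF M (ta π) := by
  have h1 := int_xa (M := M)
  have h2 := int_ro (M := M)
  refine IntF.of_rel (r := fun x y => (∃ n, x = na n ∧ y = na n) ∨
    (∃ c, x = xn c ∧ y = xn (xa π c)) ∨ (∃ i, x = tn i ∧ y = tn (ro π i))) (by (repeat' (first | with_reducible exact IntF.id | with_reducible exact IntF.fst' | with_reducible exact IntF.snd' | with_reducible exact IntF.const _ | with_reducible exact Int.const _ | assumption | with_reducible apply Int.and | with_reducible apply Int.or | with_reducible apply Int.not | with_reducible apply Int.imp | with_reducible apply Int.iff | with_reducible apply Int.ne | with_reducible apply Int.eq | with_reducible apply Int.mem | with_reducible apply Int.subset | with_reducible apply Int.ltN | with_reducible apply Int.leN | with_reducible_and_instances apply Int.le | with_reducible_and_instances apply Int.lt | with_reducible apply Int.all | with_reducible apply Int.ex | with_reducible apply IntF.fst | with_reducible apply IntF.snd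 | with_reducible apply IntF.app | with_reducible apply IntF.inl | with_reducible apply IntF.inr | with_reducible_and_instances apply IntF.mul | with_reducible_and_instances apply IntF.inv | with_reducible_and_instances apply IntF.add | with_reducible_and_instances apply IntF.sub | with_reducible_and_instances apply IntF.neg | with_reducible_and_instances apply IntF.div | with_reducible_and_instances apply IntF.smul | with_reducible apply IntF.succ | with_reducible apply IntF.val | with_reducible apply IntF.mk | (with_reducible refine Int.comp ?_ ?_; assumption) | (with_reducible refine Int.comp₂ ?_ ?_ ?_; assumption) | (with_reducible refine Int.comp₃ ?_ ?_ ?_ ?_; assumption) | (with_reducible refine Int.comp₄ ?_ ?_ ?_ ?_ ?_; assumption) | (with_reducible refine IntF.comp ?_ ?_; assumption) | (with_reducible refine IntF.comp₂ ?_ ?_ ?_; assumption) | (with_reducible refine IntF.comp₃ ?_ ?_ ?_ ?_; assumption) | with_reducible apply IntF.pair)))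
    fun x y => ?_
  constructor
  · rintro (⟨n, rfl, rfl⟩ | ⟨n, rfl, rfl⟩ | ⟨n, rfl, rfl⟩) <;> rfl
  · rintro rfl
    rcases x with n | k | i
    · exact Or.inl ⟨n, rfl, rfl⟩
    · exact Or.inr (Or.inl ⟨k, rfl, rfl⟩)
    · exact Or.inr (Or.inr ⟨i, rfl, rfl⟩)

theorem feq_ta (π : Gm M) (p : Pc M) (x : Nd M) : FEq M (tw π BG) BG p x (ta π x) := by
  refine feq_of_map (int_ta π) (fun a b s => ?_) p x
  unfold tw
  rcases a with n | c | q
  · change BG b s (na n) ↔ ∃ a', ta π a' = b ∧ BG a' _ (na n)
    simp only [BG_na]
    constructor
    · rintro ⟨m, rfl, h⟩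
      exact ⟨na m, rfl, m, rfl, h⟩
    · rintro ⟨_, rfl, m, rfl, h⟩
      exact ⟨m, rfl, h⟩
  · change BG b s (xn (xa π c)) ↔ ∃ a', ta π a' = b ∧ BG a' _ (xn c)
    simp only [BG_xn, mem_smul, inv_inv, xa_apply]
    constructor
    · rintro ⟨m, rfl, h⟩
      exact ⟨na m, rfl, m, rfl, h⟩
    · rintro ⟨_, rfl, m, rfl, h⟩
      exact ⟨m, rfl, h⟩
  · change BG b s (tn (ro π q)) ↔ ∃ a', ta π a' = b ∧ BG a' _ (tn q)
    simp only [BG_tn]
    constructor
    · rintro ⟨f, rfl⟩
      refine ⟨xn (xa π⁻¹ (ro π q, f)), congrArg xn (xa_xa_inv π _), (xa π⁻¹ (ro π q, f)).2, ?_⟩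
      exact congrArg xn (Prod.ext (ro_inv_ro π q) rfl)
    · rintro ⟨_, rfl, f, rfl⟩
      exact ⟨(xa π (q, f)).2, rfl⟩

variable [Std M]

theorem good_BG : Good (SY M) BG := by
  refine ⟨ig_BG, wf_BG, ?_⟩
  rintro (n | c | q)
  · exact ⟨toLm Set.finite_empty, fun π _ p => feq_ta π p (na n)⟩
  · refine ⟨toLm (Set.finite_singleton c.1), fun π hπ p => ?_⟩
    have h := feq_ta π p (xn c)
    have h1 : xa π c = c := xa_ext fun n => by
      rw [xa_apply]
      exact hπ _ (Set.mem_singleton _)
    change FEq M _ _ p _ (xn (xa π c)) at h
    rwa [h1] at h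
  · refine ⟨toLm (Set.finite_singleton q), fun π hπ p => ?_⟩
    have h := feq_ta π p (tn q)
    change FEq M _ _ p _ (tn (ro π q)) at h
    rwa [ro_of_U hπ (Set.mem_singleton _)] at h

variable {G : Set (Pc M)} (hG : IsGen M G)

/-- The elements given by the nodes. -/
noncomputable def vl (x : Nd M) : NN (SY M) hG := nd hG good_BG x

theorem fam_vl : EqFam hG ta (vl hG) :=
  ⟨_, inferInstance, _, good_BG, fun x => x, IntF.id, fun _ => rfl, fun π p c => feq_ta π p c⟩

theorem fam_na : EqFam hG (fun (_ : Gm M) (n : INat M) => n) (fun n => vl hG (na n)) :=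
  (fam_vl hG).comp (φ := fun n => na n) (by (repeat' (first | with_reducible exact IntF.id | with_reducible exact IntF.fst' | with_reducible exact IntF.snd' | with_reducible exact IntF.const _ | with_reducible exact Int.const _ | assumption | with_reducible apply Int.and | with_reducible apply Int.or | with_reducible apply Int.not | with_reducible apply Int.imp | with_reducible apply Int.iff | with_reducible apply Int.ne | with_reducible apply Int.eq | with_reducible apply Int.mem | with_reducible apply Int.subset | with_reducible apply Int.ltN | with_reducible apply Int.leN | with_reducible_and_instances apply Int.le | with_reducible_and_instances apply Int.lt | with_reducible apply Int.all | with_reducible apply Int.ex | with_reducible apply IntF.fst | with_reducible apply IntF.snd | with_reducible apply IntF.app | with_reducible apply IntF.inl | with_reducible apply IntF.inr | with_reducible_and_instances apply IntF.mul | with_reducible_and_instances apply IntF.inv | with_reducible_and_instances apply IntF.add | with_reducible_and_instances apply IntF.sub | with_reducible_and_instances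 apply IntF.neg | with_reducible_and_instances apply IntF.div | with_reducible_and_instances apply IntF.smul | with_reducible apply IntF.succ | with_reducible apply IntF.val | with_reducible apply IntF.mk | (with_reducible refine Int.comp ?_ ?_; assumption) | (with_reducible refine Int.comp₂ ?_ ?_ ?_; assumption) | (with_reducible refine Int.comp₃ ?_ ?_ ?_ ?_; assumption) | (with_reducible refine Int.comp₄ ?_ ?_ ?_ ?_ ?_; assumption) | (with_reducible refine IntF.comp ?_ ?_; assumption) | (with_reducible refine IntF.comp₂ ?_ ?_ ?_; assumption) | (with_reducible refine IntF.comp₃ ?_ ?_ ?_ ?_; assumption) | with_reducible apply IntF.pair))) fun _ _ => rfl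

theorem fam_xn : EqFam hG xa (fun c => vl hG (xn c)) :=
  (fam_vl hG).comp (φ := fun n => xn n) (by (repeat' (first | with_reducible exact IntF.id | with_reducible exact IntF.fst' | with_reducible exact IntF.snd' | with_reducible exact IntF.const _ | with_reducible exact Int.const _ | assumption | with_reducible apply Int.and | with_reducible apply Int.or | with_reducible apply Int.not | with_reducible apply Int.imp | with_reducible apply Int.iff | with_reducible apply Int.ne | with_reducible apply Int.eq | with_reducible apply Int.mem | with_reducible apply Int.subset | with_reducible apply Int.ltN | with_reducible apply Int.leN | with_reducible_and_instances apply Int.le | with_reducible_and_instances apply Int.lt | with_reducible apply Int.all | with_reducible apply Int.ex | with_reducible apply IntF.fst | with_reducible apply IntF.snd | with_reducible apply IntF.app | with_reducible apply IntF.inl | with_reducible apply IntF.inr | with_reducible_and_instances apply IntF.mul | with_reducible_and_instances apply IntF.inv | with_reducible_and_instances apply IntF.add | with_reducible_and_instances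 apply IntF.sub | with_reducible_and_instances apply IntF.neg | with_reducible_and_instances apply IntF.div | with_reducible_and_instances apply IntF.smul | with_reducible apply IntF.succ | with_reducible apply IntF.val | with_reducible apply IntF.mk | (with_reducible refine Int.comp ?_ ?_; assumption) | (with_reducible refine Int.comp₂ ?_ ?_ ?_; assumption) | (with_reducible refine Int.comp₃ ?_ ?_ ?_ ?_; assumption) | (with_reducible refine Int.comp₄ ?_ ?_ ?_ ?_ ?_; assumption) | (with_reducible refine IntF.comp ?_ ?_; assumption) | (with_reducible refine IntF.comp₂ ?_ ?_ ?_; assumption) | (with_reducible refine IntF.comp₃ ?_ ?_ ?_ ?_; assumption) | with_reducible apply IntF.pair))) fun _ _ => rfl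

theorem fam_tn : EqFam hG ro (fun q => vl hG (tn q)) :=
  (fam_vl hG).comp (φ := fun n => tn n) (by (repeat' (first | with_reducible exact IntF.id | with_reducible exact IntF.fst' | with_reducible exact IntF.snd' | with_reducible exact IntF.const _ | with_reducible exact Int.const _ | assumption | with_reducible apply Int.and | with_reducible apply Int.or | with_reducible apply Int.not | with_reducible apply Int.imp | with_reducible apply Int.iff | with_reducible apply Int.ne | with_reducible apply Int.eq | with_reducible apply Int.mem | with_reducible apply Int.subset | with_reducible apply Int.ltN | with_reducible apply Int.leN | with_reducible_and_instances apply Int.le | with_reducible_and_instances apply Int.lt | with_reducible apply Int.all | with_reducible apply Int.ex | with_reducible apply IntF.fst | with_reducible apply IntF.snd | with_reducible apply IntF.app | with_reducible apply IntF.inl | with_reducible apply IntF.inr | with_reducible_and_instances apply IntF.mul | with_reducible_and_instances apply IntF.inv | with_reducible_and_instances apply IntF.add | with_reducible_and_instances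 apply IntF.sub | with_reducible_and_instances apply IntF.neg | with_reducible_and_instances apply IntF.div | with_reducible_and_instances apply IntF.smul | with_reducible apply IntF.succ | with_reducible apply IntF.val | with_reducible apply IntF.mk | (with_reducible refine Int.comp ?_ ?_; assumption) | (with_reducible refine Int.comp₂ ?_ ?_ ?_; assumption) | (with_reducible refine Int.comp₃ ?_ ?_ ?_ ?_; assumption) | (with_reducible refine Int.comp₄ ?_ ?_ ?_ ?_ ?_; assumption) | (with_reducible refine IntF.comp ?_ ?_; assumption) | (with_reducible refine IntF.comp₂ ?_ ?_ ?_; assumption) | (with_reducible refine IntF.comp₃ ?_ ?_ ?_ ?_; assumption) | with_reducible apply IntF.pair))) fun _ _ => rfl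

theorem mem_na {w : NN (SY M) hG} {n : INat M} :
    Mem w (vl hG (na n)) ↔ ∃ m, m < n ∧ w = vl hG (na m) := by
  refine (mem_nd hG good_BG).trans ⟨?_, ?_⟩
  · rintro ⟨a, s, -, h, rfl⟩
    obtain ⟨m, rfl, h1⟩ := BG_na.1 h
    exact ⟨m, h1, rfl⟩
  · rintro ⟨m, h, rfl⟩
    obtain ⟨s, hs⟩ := hG.ne
    exact ⟨_, s, hs, BG_na.2 ⟨m, rfl, h⟩, rfl⟩

theorem mem_xn {w : NN (SY M) hG} {c : IQ M × Fl M} :
    Mem w (vl hG (xn c)) ↔ ∃ m p, p ∈ G ∧ (c.1, (m, c.2 m)) ∈ p.1 ∧ w = vl hG (na m) := by
  refine (mem_nd hG good_BG).trans ⟨?_, ?_⟩
  · rintro ⟨a, s, hs, h, rfl⟩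
    obtain ⟨m, rfl, h1⟩ := BG_xn.1 h
    exact ⟨m, s, hs, h1, rfl⟩
  · rintro ⟨m, s, hs, h, rfl⟩
    exact ⟨_, s, hs, BG_xn.2 ⟨m, rfl, h⟩, rfl⟩

theorem mem_tn {w : NN (SY M) hG} {q : IQ M} :
    Mem w (vl hG (tn q)) ↔ ∃ f, w = vl hG (xn (q, f)) := by
  refine (mem_nd hG good_BG).trans ⟨?_, ?_⟩
  · rintro ⟨a, s, hs, h, rfl⟩
    obtain ⟨m, rfl⟩ := BG_tn.1 h
    exact ⟨m, rfl⟩
  · rintro ⟨m, rfl⟩
    obtain ⟨s, hs⟩ := hG.ne
    exact ⟨_, s, hs, BG_tn.2 ⟨m, rfl⟩, rfl⟩

theorem vl_ofN (k : ℕ) : vl hG (na (ofN M k)) = (ofN (NN (SY M) hG) k).val := by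
  induction k with
  | zero =>
    refine nn_ext hG fun z => iff_of_false (fun h => ?_)
      (INat.not_mem_zero (M := NN (SY M) hG) (z := z))
    obtain ⟨m, h1, -⟩ := (mem_na hG).1 h
    exact INat.not_lt_zero h1
  | succ k ih =>
    refine nn_ext hG fun z => ((mem_na hG).trans ?_).trans
      (INat.mem_succ (M := NN (SY M) hG) (n := ofN _ k) (z := z)).symm
    rw [← ih, mem_na]
    constructor
    · rintro ⟨m, h1, rfl⟩
      rcases INat.lt_succ_iff'.1 h1 with h2 | rfl
      · exact Or.inl ⟨m, h2, rfl⟩
      · exact Or.inr rfl
    · rintro (⟨m, h1, rfl⟩ | rfl)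
      · exact ⟨m, INat.lt_succ_iff'.2 (Or.inl h1), rfl⟩
      · exact ⟨_, INat.lt_succ_self _, rfl⟩

instance std_NN : Std (NN (SY M) hG) := by
  obtain ⟨z, hz⟩ := (fam_na hG).set (Z := fun _ => True) (Int.const _)
    ⟨toLm Set.finite_empty, fun _ _ _ _ => trivial⟩
  have h1 : ∀ w, Mem w z ↔ ∃ k, w = (ofN (NN (SY M) hG) k).val := fun w => by
    refine (hz w).trans ⟨?_, ?_⟩
    · rintro ⟨c, -, rfl⟩
      obtain ⟨k, rfl⟩ := Std.surj c
      exact ⟨k, vl_ofN hG k⟩
    · rintro ⟨k, rfl⟩
      exact ⟨_, trivial, (vl_ofN hG k).symm⟩
  refine ⟨fun n => ?_⟩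
  obtain ⟨k, hk⟩ := (h1 _).1 (n.prop z ⟨⟨_, (h1 _).2 ⟨0, rfl⟩, trivial, fun _ => INat.not_mem_zero⟩,
    fun m hm => by
      obtain ⟨k, rfl⟩ := (h1 _).1 hm
      exact ⟨_, (h1 _).2 ⟨k + 1, rfl⟩, trivial, fun _ => INat.mem_succ⟩⟩)
  exact ⟨k, INat.ext hk.symm⟩

theorem na_inj : Function.Injective (fun n : INat M => vl hG (na n)) := by
  intro m n h
  obtain ⟨k, rfl⟩ := Std.surj m
  obtain ⟨j, rfl⟩ := Std.surj n
  simp only [vl_ofN] at h
  rw [ofN_inj (INat.ext h)]

theorem na_mem_xn {c : IQ M × Fl M} {m : INat M} :
    Mem (vl hG (na m)) (vl hG (xn c)) ↔ ∃ p, p ∈ G ∧ (c.1, (m, c.2 m)) ∈ p.1 := by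
  rw [mem_xn]
  constructor
  · rintro ⟨k, p, h1, h2, h3⟩
    obtain rfl := na_inj hG h3
    exact ⟨p, h1, h2⟩
  · rintro ⟨p, h1, h2⟩
    exact ⟨m, p, h1, h2, rfl⟩

/-! ### Genericity -/

theorem exists_ins (p : Pc M) (l : Lit M) (h : ∀ b, (l.1, (l.2.1, b)) ∈ p.1 → b = l.2.2) :
    ∃ r : Pc M, r ≤ p ∧ l ∈ r.1 ∧ ∀ l', l' ∈ r.1 → l' = l ∨ l' ∈ p.1 := by
  obtain ⟨h1, n, h2⟩ := p.2
  refine ⟨⟨insert l p.1, fun q k b b' h3 h4 => ?_, max n l.2.1.succ, fun c hc => ?_⟩,
    fun c hc => mem_insert.2 (Or.inr hc), mem_insert.2 (Or.inl rfl), fun l' h' => mem_insert.1 h'⟩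
  · rcases mem_insert.1 h3 with rfl | h5
    · rcases mem_insert.1 h4 with h6 | h6
      · exact (congrArg (fun l : Lit M => l.2.2) h6).symm
      · exact (h _ h6).symm
    · rcases mem_insert.1 h4 with rfl | h6
      · exact h _ h5
      · exact h1 _ _ _ _ h5 h6
  · rcases mem_insert.1 hc with rfl | h3
    · exact lt_of_lt_of_le (INat.lt_succ_self _) (le_max_right _ _)
    · exact lt_of_lt_of_le (h2 _ h3) (le_max_left _ _)

include hG in
theorem gen_total (q : IQ M) (n : INat M) : ∃ p, p ∈ G ∧ ∃ b, (q, (n, b)) ∈ p.1 := by
  refine hG.dense (fun p => ∃ b, (q, (n, b)) ∈ p.1) (by (repeat' (first | with_reducible exact IntF.id | with_reducible exact IntF.fst' | with_reducible exact IntF.snd' | with_reducible exact IntF.const _ | with_reducible exact Int.const _ | assumption | with_reducible apply Int.and | with_reducible apply Int.or | with_reducible apply Int.not | with_reducible apply Int.imp | with_reducible apply Int.iff | with_reducible apply Int.ne | with_reducible apply Int.eq | with_reducible apply Int.mem | with_reducible apply Int.subset | with_reducible apply Int.ltN | with_reducible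 apply Int.leN | with_reducible_and_instances apply Int.le | with_reducible_and_instances apply Int.lt | with_reducible apply Int.all | with_reducible apply Int.ex | with_reducible apply IntF.fst | with_reducible apply IntF.snd | with_reducible apply IntF.app | with_reducible apply IntF.inl | with_reducible apply IntF.inr | with_reducible_and_instances apply IntF.mul | with_reducible_and_instances apply IntF.inv | with_reducible_and_instances apply IntF.add | with_reducible_and_instances apply IntF.sub | with_reducible_and_instances apply IntF.neg | with_reducible_and_instances apply IntF.div | with_reducible_and_instances apply IntF.smul | with_reducible apply IntF.succ | with_reducible apply IntF.val | with_reducible apply IntF.mk | (with_reducible refine Int.comp ?_ ?_; assumption) | (with_reducible refine Int.comp₂ ?_ ?_ ?_; assumption) | (with_reducible refine Int.comp₃ ?_ ?_ ?_ ?_; assumption) | (with_reducible refine Int.comp₄ ?_ ?_ ?_ ?_ ?_; assumption) | (with_reducible refine IntF.comp ?_ ?_; assumption) | (with_reducible refine IntF.comp₂ ?_ ?_ ?_; assumption) | (with_reducible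 refine IntF.comp₃ ?_ ?_ ?_ ?_; assumption) | with_reducible apply IntF.pair))) fun p => ?_
  by_cases h : ∃ b, (q, (n, b)) ∈ p.1
  · exact ⟨p, le_rfl, h⟩
  · obtain ⟨r, h1, h2, -⟩ := exists_ins p (q, (n, true)) fun b hb => absurd ⟨b, hb⟩ h
    exact ⟨r, h1, true, h2⟩

include hG in
theorem gen_unique {q : IQ M} {n : INat M} {b b' : Bool} {p p' : Pc M} (h : p ∈ G) (h' : p' ∈ G)
    (h1 : (q, (n, b)) ∈ p.1) (h2 : (q, (n, b')) ∈ p'.1) : b = b' := by
  obtain ⟨r, -, h3, h4⟩ := hG.dir p p' h h'
  exact r.2.1 _ _ _ _ (h3 _ h1) (h4 _ h2)

include hG in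
theorem gen_not {q : IQ M} {n : INat M} {b : Bool} :
    (∃ p, p ∈ G ∧ (q, (n, !b)) ∈ p.1) ↔ ¬ ∃ p, p ∈ G ∧ (q, (n, b)) ∈ p.1 := by
  constructor
  · rintro ⟨p, h1, h2⟩ ⟨p', h3, h4⟩
    simpa using gen_unique hG h1 h3 h2 h4
  · intro h
    obtain ⟨p, h1, b', h2⟩ := gen_total hG q n
    refine ⟨p, h1, ?_⟩
    have : b' ≠ b := fun h3 => h ⟨p, h1, h3 ▸ h2⟩
    rwa [← Bool.eq_not.2 this]

theorem tn_inj : Function.Injective (fun q : IQ M => vl hG (tn q)) := by
  intro q q' h
  by_contra hne
  let f : Fl M := ⟨fun _ => true, IntF.const _⟩
  have h0 : Mem (vl hG (xn (q, f))) (vl hG (tn q)) := (mem_tn hG).2 ⟨f, rfl⟩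
  have h' : vl hG (tn q) = vl hG (tn q') := h
  rw [h'] at h0
  obtain ⟨g, hg⟩ := (mem_tn hG).1 h0
  have hI : IntF M (fun n => !(g n)) := IntF.bnot g.int
  obtain ⟨p, h1, n, h2, h3⟩ := hG.dense (fun p => ∃ n, (q, (n, true)) ∈ p.1 ∧
    (q', (n, !(g n))) ∈ p.1) (Int.ex (Int.and (Int.mem (IntF.pair (IntF.const _)
      (IntF.pair IntF.snd' (IntF.const _))) (IntF.val IntF.fst')) (Int.mem (IntF.pair (IntF.const _)
      (IntF.pair IntF.snd' (hI.comp IntF.snd'))) (IntF.val IntF.fst')))) fun p => by
      obtain ⟨-, n, hn⟩ := p.2
      obtain ⟨r, h1, h2, h3⟩ := exists_ins p (q, (n, true)) fun b hb => absurd (hn _ hb)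
        (lt_irrefl _)
      obtain ⟨r', h4, h5, -⟩ := exists_ins r (q', (n, !(g n))) fun b hb => by
        rcases h3 _ hb with h6 | h6
        · exact absurd (congrArg Prod.fst h6).symm hne
        · exact absurd (hn _ h6) (lt_irrefl _)
      exact ⟨r', h4.trans h1, n, h4 _ h2, h5⟩
  have h4 := (na_mem_xn hG (c := (q, f)) (m := n)).2 ⟨p, h1, h2⟩
  rw [hg] at h4
  exact (gen_not hG).1 ⟨p, h1, h3⟩ ((na_mem_xn hG).1 h4)

end Pool.Agent.Helper672.ZFA.H875
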