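import Pool.Agent.H875Z.Ins.Rem

/-!
# The failure of the Boolean prime ideal theorem
-/

namespace Pool.Agent.Helper672.ZFA.H875

open FirstOrder FirstOrder.Language
open Pool.Agent.Helper672.Plain (LSet)
open Pool.Agent.Helper672.ZFA.H635
open Pool.Agent.H875Z.Ins

set_option linter.unusedSectionVars false
set_option synthInstance.maxSize 2000

universe u

section typed

variable {N : Type u} [L.Structure N] [hN : IsModel N]

variable (N) in
/-- The free ultrafilters. -/
abbrev UF : Type u := {v : Ultrafilter (INat N) // (v : Filter (INat N)) ≤ Filter.atTop}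

/-- The class of a set modulo bounded sets. -/
def phi (A : IPow N (INat N)) : Set (UF N) := {v | {n | n ∈ A} ∈ v.1}

theorem phi_eq {A B : IPow N (INat N)} :
    phi A = phi B ↔ ∃ m, ∀ n, m ≤ n → (n ∈ A ↔ n ∈ B) := by
  have : Nonempty (INat N) := ⟨0⟩
  rw [← Filter.eventually_atTop]
  constructor
  · intro h
    refine Filter.mem_iff_ultrafilter.2 fun v hv => ?_
    have h1 : {n | n ∈ A} ∈ v ↔ {n | n ∈ B} ∈ v := Set.ext_iff.1 h ⟨v, hv⟩
    by_cases h2 : {n | n ∈ A} ∈ v
    · exact Filter.mem_of_superset (Filter.inter_mem h2 (h1.1 h2)) fun n hn =>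
        iff_of_true hn.1 hn.2
    · exact Filter.mem_of_superset (Filter.inter_mem (Ultrafilter.compl_mem_iff_notMem.2 h2)
        (Ultrafilter.compl_mem_iff_notMem.2 (mt h1.2 h2))) fun n hn => iff_of_false hn.1 hn.2
  · intro h
    ext v
    have h1 := v.2 h
    exact ⟨fun h2 => Filter.mem_of_superset (Filter.inter_mem h1 h2) fun n hn => hn.1.1 hn.2,
      fun h2 => Filter.mem_of_superset (Filter.inter_mem h1 h2) fun n hn => hn.1.2 hn.2⟩

theorem phi_union (A B : IPow N (INat N)) : phi (A ∪ B) = phi A ∪ phi B := by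
  ext v
  have : {n | n ∈ A ∪ B} = {n | n ∈ A} ∪ {n | n ∈ B} := Set.ext fun n => mem_union
  simp only [phi, Set.mem_ofPred_eq, this, Set.mem_union]
  exact Ultrafilter.union_mem_iff

theorem phi_inter (A B : IPow N (INat N)) : phi (A ∩ B) = phi A ∩ phi B := by
  ext v
  have : {n | n ∈ A ∩ B} = {n | n ∈ A} ∩ {n | n ∈ B} := Set.ext fun n => mem_inter
  simp only [phi, Set.mem_ofPred_eq, this, Set.mem_inter_iff]
  exact Filter.inter_mem_iff

theorem phi_compl (A : IPow N (INat N)) : phi (iuniv N _ \ A) = (phi A)ᶜ := by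
  ext v
  have : {n | n ∈ iuniv N _ \ A} = {n | n ∈ A}ᶜ := Set.ext fun n => by simp
  simp only [phi, Set.mem_ofPred_eq, this, Set.mem_compl_iff]
  exact Ultrafilter.compl_mem_iff_notMem

theorem phi_empty : phi (∅ : IPow N (INat N)) = ∅ := by
  ext v
  have : {n | n ∈ (∅ : IPow N (INat N))} = ∅ := Set.ext fun n => by simp
  simp only [phi, Set.mem_ofPred_eq, this, Set.mem_empty_iff_false, iff_false]
  exact Ultrafilter.empty_notMem

variable (N) in
/-- The power set of the natural numbers modulo bounded sets. -/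
def PF : BooleanSubalgebra (Set (UF N)) where
  carrier := Set.range phi
  supClosed' := by
    rintro _ ⟨A, rfl⟩ _ ⟨B, rfl⟩
    exact ⟨_, phi_union A B⟩
  infClosed' := by
    rintro _ ⟨A, rfl⟩ _ ⟨B, rfl⟩
    exact ⟨_, phi_inter A B⟩
  compl_mem' := by
    rintro _ ⟨A, rfl⟩
    exact ⟨_, phi_compl A⟩
  bot_mem' := ⟨_, phi_empty⟩

/-- The quotient map. -/
def cls (A : IPow N (INat N)) : PF N := ⟨phi A, A, rfl⟩

theorem cls_surj : Function.Surjective (cls (N := N)) := by
  rintro ⟨_, A, rfl⟩
  exact ⟨A, rfl⟩

theorem cls_eq {A B : IPow N (INat N)} :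
    cls A = cls B ↔ ∃ m, ∀ n, m ≤ n → (n ∈ A ↔ n ∈ B) := Subtype.ext_iff.trans phi_eq

theorem int_cls_ker : Int N (fun q : IPow N (INat N) × IPow N (INat N) => cls q.1 = cls q.2) := by
  simp only [cls_eq]
  (repeat' (first | with_reducible exact IntF.id | with_reducible exact IntF.fst' | with_reducible exact IntF.snd' | with_reducible exact IntF.const _ | with_reducible exact Int.const _ | assumption | with_reducible apply Int.and | with_reducible apply Int.or | with_reducible apply Int.not | with_reducible apply Int.imp | with_reducible apply Int.iff | with_reducible apply Int.ne | with_reducible apply Int.eq | with_reducible apply Int.mem | with_reducible apply Int.subset | with_reducible apply Int.ltN | with_reducible apply Int.leN | with_reducible_and_instances apply Int.le | with_reducible_and_instances apply Int.lt | with_reducible apply Int.all | with_reducible apply Int.ex | with_reducible apply IntF.fst | with_reducible apply IntF.snd | with_reducible apply IntF.app | with_reducible apply IntF.inl | with_reducible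 apply IntF.inr | with_reducible_and_instances apply IntF.mul | with_reducible_and_instances apply IntF.inv | with_reducible_and_instances apply IntF.add | with_reducible_and_instances apply IntF.sub | with_reducible_and_instances apply IntF.neg | with_reducible_and_instances apply IntF.div | with_reducible_and_instances apply IntF.smul | with_reducible apply IntF.succ | with_reducible apply IntF.val | with_reducible apply IntF.mk | (with_reducible refine Int.comp ?_ ?_; assumption) | (with_reducible refine Int.comp₂ ?_ ?_ ?_; assumption) | (with_reducible refine Int.comp₃ ?_ ?_ ?_ ?_; assumption) | (with_reducible refine Int.comp₄ ?_ ?_ ?_ ?_ ?_; assumption) | (with_reducible refine IntF.comp ?_ ?_; assumption) | (with_reducible refine IntF.comp₂ ?_ ?_ ?_; assumption) | (with_reducible refine IntF.comp₃ ?_ ?_ ?_ ?_; assumption) | with_reducible apply IntF.pair))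

noncomputable instance : ITy N (PF N) := ITy.ofSurj cls cls_surj int_cls_ker

theorem intF_cls : IntF N (cls (N := N)) := IntF.ofSurj cls cls_surj int_cls_ker

theorem intF_op {f : PF N → PF N → PF N} {g : IPow N (INat N) → IPow N (INat N) → IPow N (INat N)}
    (hg : IntF N (fun q : IPow N (INat N) × IPow N (INat N) => g q.1 q.2))
    (h : ∀ A B, cls (g A B) = f (cls A) (cls B)) :
    IntF N (fun q : PF N × PF N => f q.1 q.2) := by
  have h1 := intF_cls (N := N)
  refine IntF.of_surj (π := fun q : IPow N (INat N) × IPow N (INat N) => (cls q.1, cls q.2))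
    (fun q => ?_) (IntF.pair (h1.comp IntF.fst') (h1.comp IntF.snd')) ?_
  · obtain ⟨A, hA⟩ := cls_surj q.1
    obtain ⟨B, hB⟩ := cls_surj q.2
    exact ⟨(A, B), Prod.ext hA hB⟩
  · simp only [← h]
    exact h1.comp hg

end typed

section plain

variable {N : Type u} [LSet.Structure N]

attribute [local instance] toL

variable [hN : IsModel N]

theorem not_bpi (hU : ¬ ∃ U : IPow N (INat N) → Prop, Int N U ∧
    ∀ A A' : IPow N (INat N), (∃ m, ∀ n, m ≤ n → (n ∈ A' ↔ ¬ n ∈ A)) → (U A ↔ ¬ U A')) :
    ¬ BPI N := by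
  intro h
  let e : PF N ≃ Plain.El (dom N (PF N)) := Equiv.ofBijective
    (fun b => ⟨code b, pcode_mem_dom b⟩) ⟨fun b b' hb => ITy.inj (congrArg Subtype.val hb),
      fun ⟨z, hz⟩ => by
        obtain ⟨b, rfl⟩ := pmem_dom.1 hz
        exact ⟨b, rfl⟩⟩
  have he : ∀ b, (e b).1 = code b := fun _ => rfl
  let _ : BooleanAlgebra (Plain.El (dom N (PF N))) := e.symm.booleanAlgebra
  have key : ∀ (f : PF N → PF N → PF N), IntF N (fun q : PF N × PF N => f q.1 q.2) →
      ∃ g, Plain.IsOpGraph (fun x y : Plain.El (dom N (PF N)) => e (f (e.symm x) (e.symm y))) g := by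
    intro f hf
    refine ⟨gr hf, fun x y z => ?_⟩
    obtain ⟨x, rfl⟩ := e.surjective x
    obtain ⟨y, rfl⟩ := e.surjective y
    obtain ⟨z, rfl⟩ := e.surjective z
    simp only [plain_ordPair', Equiv.symm_apply_apply, EmbeddingLike.apply_eq_iff_eq, he,
      exists_and_left, exists_eq_left]
    exact (code_mem_gr (a := ((x, y), z)) hf).symm
  have hne : cls (∅ : IPow N (INat N)) ≠ cls (iuniv N _) := fun h1 => by
    obtain ⟨m, hm⟩ := cls_eq.1 h1
    simpa using hm m le_rfl
  obtain ⟨s, I, hI, hs⟩ := h (dom N (PF N)) ⟨key (fun a b => a ⊔ b) (intF_op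
    (g := fun A B => A ∪ B) (IntF.union IntF.fst' IntF.snd') fun A B => Subtype.ext (phi_union A B)),
    key (fun a b => a ⊓ b) (intF_op (g := fun A B => A ∩ B) (IntF.inter IntF.fst' IntF.snd')
      fun A B => Subtype.ext (phi_inter A B))⟩ ⟨e _, e _, fun h1 => hne (e.injective h1)⟩
  refine hU ⟨fun A => ¬ Mem (code (cls A)) s, Int.not (Int.comp (p := fun b : PF N => Mem (code b) s)
    ⟨s, fun _ => Iff.rfl⟩ intF_cls), fun A A' hA => ?_⟩
  have h1 : cls A' = (cls A)ᶜ := by
    refine Eq.trans (cls_eq.2 ?_) (Subtype.ext (phi_compl A) : cls (iuniv N _ \ A) = (cls A)ᶜ)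
    simpa using hA
  have h2 : e (cls A') = (e (cls A))ᶜ := by
    rw [h1]
    change _ = e (e.symm (e (cls A)))ᶜ
    rw [Equiv.symm_apply_apply]
  have h3 := hs (e (cls A))
  have h4 := hs (e (cls A'))
  rw [he] at h3 h4
  change ¬ Plain.Mem (code (cls A)) s ↔ ¬ ¬ Plain.Mem (code (cls A')) s
  rw [not_not, ← h3, ← h4, h2]
  refine ⟨hI.compl_mem_of_notMem, fun h5 h6 => ?_⟩
  have h7 := Order.Ideal.sup_mem h6 h5
  rw [sup_compl_eq_top] at h7
  exact hI.toIsProper.top_notMem h7

end plain

end Pool.Agent.Helper672.ZFA.H875
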