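import Pool.Agent.H635R2.Statement

/-!
# Compactifications of discrete spaces inside a model of set theory

All notions below are read inside a structure `M` for the language of set theory: they only
quantify over elements of `M`.
-/

namespace Pool.Agent.H875Z.Ins

open Pool.Agent.Helper672.Plain

universe u

variable {M : Type u} [LSet.Structure M]

/-- `a` is a subset of `b`. -/
def Sub (a b : M) : Prop := ∀ z, Mem z a → Mem z b

/-- The ordered pair `(x, y)` is an element of `f`. -/
def Maps (f x y : M) : Prop := ∃ p, IsOrdPair p x y ∧ Mem p f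

/-- `f` is a function from `a` to `b`. -/
def IsFun (f a b : M) : Prop :=
  (∀ p, Mem p f → ∃ x y, Mem x a ∧ Mem y b ∧ IsOrdPair p x y) ∧
    ∀ x, Mem x a → ∃! y, Maps f x y

/-- `f` is an injective function from `a` to `b`. -/
def IsInj (f a b : M) : Prop := IsFun f a b ∧ ∀ x x' y, Maps f x y → Maps f x' y → x = x'

/-- `f` is a bijection from `a` onto `b`. -/
def IsBij (f a b : M) : Prop := IsInj f a b ∧ ∀ y, Mem y b → ∃ x, Maps f x y

/-- `i` contains the empty set and with every `n` the set `n ∪ {n}`. -/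
def IsInductive (i : M) : Prop :=
  (∃ e, Mem e i ∧ ∀ z, ¬ Mem z e) ∧ ∀ n, Mem n i → ∃ s, Mem s i ∧ ∀ z, Mem z s ↔ Mem z n ∨ z = n

/-- `w` is `ω`, the intersection of all inductive sets. -/
def IsOmega (w : M) : Prop := ∀ n, Mem n w ↔ ∀ i, IsInductive i → Mem n i

/-- `a` is finite: it is in bijection with an element of `ω`. -/
def IsFinite (a : M) : Prop := ∃ w n f, IsOmega w ∧ Mem n w ∧ IsBij f a n

/-- `τ` is a topology on `X`. -/
def IsTop (X τ : M) : Prop :=
  (∀ U, Mem U τ → Sub U X) ∧ Mem X τ ∧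
    (∀ U V W, Mem U τ → Mem V τ → (∀ z, Mem z W ↔ Mem z U ∧ Mem z V) → Mem W τ) ∧
    ∀ F W, Sub F τ → (∀ z, Mem z W ↔ ∃ U, Mem U F ∧ Mem z U) → Mem W τ

/-- The space `(X, τ)` is Hausdorff. -/
def IsHausdorff (X τ : M) : Prop :=
  ∀ x y, Mem x X → Mem y X → x ≠ y →
    ∃ U V, Mem U τ ∧ Mem V τ ∧ Mem x U ∧ Mem y V ∧ ∀ z, ¬ (Mem z U ∧ Mem z V)

/-- The family `F` covers `X`. -/
def Covers (F X : M) : Prop := ∀ x, Mem x X → ∃ U, Mem U F ∧ Mem x U

/-- The space `(X, τ)` is compact: every open cover has a finite subcover. -/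
def IsCompact (X τ : M) : Prop :=
  ∀ F, Sub F τ → Covers F X → ∃ F', Sub F' F ∧ IsFinite F' ∧ Covers F' X

/-- The space `(X, τ)` is scattered: every nonempty subspace has an isolated point. -/
def IsScattered (X τ : M) : Prop :=
  ∀ Y, Sub Y X → (∃ y, Mem y Y) →
    ∃ y U, Mem y Y ∧ Mem U τ ∧ ∀ z, (Mem z U ∧ Mem z Y) ↔ z = y

/-- `(K, τ)` with `h` is a Hausdorff compactification of the discrete space on `D`: the space is
compact Hausdorff, `h` is an injection of `D` into `K` that carries every subset of `D` to a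
relatively open subset of `h[D]` (so it is a homeomorphic embedding of the discrete space; it is
continuous as its domain is discrete), and `h[D]` is dense. -/
def IsCompactification (D K τ h : M) : Prop :=
  IsTop K τ ∧ IsHausdorff K τ ∧ IsCompact K τ ∧ IsInj h D K ∧
    (∀ A, Sub A D → ∃ U, Mem U τ ∧ ∀ d k, Maps h d k → (Mem k U ↔ Mem d A)) ∧
    ∀ U, Mem U τ → (∃ k, Mem k U) → ∃ d k, Maps h d k ∧ Mem k U

/-- `(C, σ)` is the Cantor cube: `C` is the set of all functions from `ω` to `2 = {0, {0}}`, and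
`σ` is the product topology: `U ⊆ C` is open if and only if for each `x` in `U` there is `n` in `ω`
such that all `y` in `C` that agree with `x` below `n` are in `U`. -/
def IsCantorCube (C σ : M) : Prop :=
  ∃ w o i t, IsOmega w ∧ (∀ z, ¬ Mem z o) ∧ IsPair i o o ∧ IsPair t o i ∧
    (∀ x, Mem x C ↔ IsFun x w t) ∧
    ∀ U, Mem U σ ↔ Sub U C ∧ ∀ x, Mem x U → ∃ n, Mem n w ∧
      ∀ y, Mem y C → (∀ m b, Mem m n → (Maps y m b ↔ Maps x m b)) → Mem y U

/-- The space `(C, σ)` is homeomorphic to the remainder `K \ h[D]` of `(K, τ, h)` with the subspace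
topology: there is a bijection `φ` from the remainder `R` onto `C` such that a subset `U` of `C` is
open if and only if its preimage is the trace on `R` of an open subset of `K`. -/
def IsRemainderOf (C σ K τ h : M) : Prop :=
  ∃ R φ, (∀ k, Mem k R ↔ Mem k K ∧ ¬ ∃ d, Maps h d k) ∧ IsBij φ R C ∧
    ∀ U, Sub U C → (Mem U σ ↔ ∃ V, Mem V τ ∧ ∀ k c, Maps φ k c → (Mem k V ↔ Mem c U))

variable (M)

/-- BPI: every Boolean algebra (with `0 ≠ 1`) in the model has a prime ideal in the model. -/
def BPI : Prop :=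
  ∀ (a : M) [BooleanAlgebra (El a)], IsBA a → Nontrivial (El a) →
    ∃ (s : M) (I : Order.Ideal (El a)), I.IsPrime ∧ ∀ x : El a, x ∈ I ↔ Mem x.1 s

/-- IDFBI: for every infinite set `D` the Cantor cube is a remainder of the discrete space on
`D`. -/
def IDFBI : Prop :=
  ∀ D : M, ¬ IsFinite D → ∃ K τ h C σ, IsCompactification D K τ h ∧ IsCantorCube C σ ∧
    IsRemainderOf C σ K τ h

/-- INSHC: every infinite discrete space has a Hausdorff compactification that is not
scattered. -/
def INSHC : Prop :=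
  ∀ D : M, ¬ IsFinite D → ∃ K τ h, IsCompactification D K τ h ∧ ¬ IsScattered K τ

end Pool.Agent.H875Z.Ins
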