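import Pool.Agent.H875Z.Ins.Bpi

/-!
# Equivariant families: transfer of types and relations to the extension
-/

namespace Pool.Agent.Helper672.ZFA.H875

open FirstOrder FirstOrder.Language
open Pool.Agent.Helper672.Plain (LSet)
open Pool.Agent.Helper672.ZFA.H635
open Pool.Agent.H875Z.Ins

set_option linter.unusedSectionVars false
set_option synthInstance.maxSize 2000

universe u

section

variable {M : Type u} [L.Structure M] [hM : IsModel M]
variable {P Γ : Type u} [ITy M P] [Preorder P] [ILE M P] [ITy M Γ] [Group Γ] [IMul M Γ]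
  [IInv M Γ] [MulAction Γ P] [ISMul M Γ P]
variable {Λ : Type u} [ITy M Λ] {S : SymSys M P Γ Λ}
variable {α β ε : Type u} [ITy M α] [ITy M β] [ITy M ε]
variable {G : Set P} {hG : IsGen M G}

/-- An injective equivariant family gives a type of the extension. -/
@[reducible] def famTy {act : Γ → ε → ε} {f : ε → NN S hG} (hf : EqFam hG act f)
    (hi : Function.Injective f) : ITy (NN S hG) ε where
  code := f
  inj := hi
  small := by
    obtain ⟨l⟩ := S.nonempty
    obtain ⟨z, hz⟩ := hf.set (Z := fun _ => True) (Int.const _) ⟨l, fun _ _ _ _ => trivial⟩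
    exact ⟨z, trivial, fun w => (hz w).trans ⟨fun ⟨c, _, h⟩ => ⟨c, h.symm⟩,
      fun ⟨c, h⟩ => ⟨c, trivial, h.symm⟩⟩⟩

theorem fam_int [ITy (NN S hG) ε] {act : Γ → ε → ε}
    (hf : EqFam hG act (fun c : ε => code (M := NN S hG) c)) {Z : ε → Prop}
    (hZ : Int M Z) (hs : ∃ l, ∀ π, S.U l π → ∀ c, Z c → Z (act π c)) : Int (NN S hG) Z := by
  obtain ⟨z, hz⟩ := hf.set hZ hs
  exact ⟨z, fun a => (hz _).trans ⟨fun ⟨c, h1, h2⟩ => ITy.inj h2 ▸ h1, fun h => ⟨a, h, rfl⟩⟩⟩

theorem fam_prod {act : Γ → ε → ε} {act' : Γ → β → β} (hact : ∀ π b, act π⁻¹ (act π b) = b)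
    (hact' : ∀ π b, act' π⁻¹ (act' π b) = b) {f : ε → NN S hG} {f' : β → NN S hG}
    (hf : EqFam hG act f) (hf' : EqFam hG act' f') :
    EqFam hG (fun π (c : ε × β) => (act π c.1, act' π c.2)) (fun c => op (f c.1) (f' c.2)) :=
  EqFam.op (fun π b => Prod.ext (hact π b.1) (hact' π b.2))
    (hf.comp (φ := Prod.fst) IntF.fst' fun _ _ => rfl)
    (hf'.comp (φ := Prod.snd) IntF.snd' fun _ _ => rfl)

theorem int_rel {δ : Type u} [ITy (NN S hG) δ] {D : NN S hG} {act : Γ → ε → ε}
    (hact : ∀ π b, act π⁻¹ (act π b) = b) {v : ε → NN S hG} {w : ε → δ} (hv : EqFam hG act v)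
    (hw : EqFam hG act (fun c => code (M := NN S hG) (w c))) {Z : ε → Prop}
    (hZ : Int M Z) (hs : ∃ l, ∀ π, S.U l π → ∀ c, Z c → Z (act π c)) :
    Int (NN S hG) (fun q : El D × δ => ∃ i, Z i ∧ q.1.1 = v i ∧ q.2 = w i) := by
  obtain ⟨z, hz⟩ := (EqFam.op hact hv hw).set hZ hs
  refine ⟨z, fun ⟨x, b⟩ => (hz _).trans ⟨fun ⟨c, h1, h2⟩ => ?_, fun ⟨c, h1, h2, h3⟩ => ?_⟩⟩
  · obtain ⟨h3, h4⟩ := op_inj (h2 : op x.1 (code b) = _)
    exact ⟨c, h1, h3, ITy.inj h4⟩
  · refine ⟨c, h1, ?_⟩
    change op x.1 (code b) = _
    rw [show x.1 = v c from h2, show b = w c from h3]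

theorem fam_force {act : Γ → ε → ε} {f : ε → NN S hG} (hf : EqFam hG act f) (s : NN S hG) :
    ∃ (l : Λ) (Fo : P → ε → Prop), (∀ c, Mem (f c) s ↔ ∃ p, p ∈ G ∧ Fo p c) ∧
      (∀ π, S.U l π → ∀ p c, Fo p c → Fo (π • p) (act π c)) ∧
      (∀ p q c, Fo p c → q ≤ p → Fo q c) ∧
      ∀ p c, (∀ q, q ≤ p → ∃ r, r ≤ q ∧ Fo r c) → Fo p c := by
  obtain ⟨α, _, E, h, g, hg, h1, h2⟩ := hf
  obtain ⟨x, rfl⟩ := exists_mk hG s
  obtain ⟨l, hl⟩ := x.good.sym x.root
  refine ⟨l, fun p c => FMem M E x.E p (g c) x.root, fun c => ?_, fun π hπ p c hc => ?_,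
    fun p q c hc hq => hc.mono hq, fun p c hc => FMem.of_dense hc⟩
  · rw [h1, mk_eq_nd]
    exact mem_nd_nd hG h x.good
  · have h3 := fmem_tw S π hc
    exact (FMem.congr_left h.int (h.int.tw π) (x.int.tw π)
      ((h2 π (π • p) c).symm (h.int.tw π) h.int) h3).congr_right h.int (x.int.tw π) x.int
      (hl π hπ _)

variable (hG) in
theorem exists_check (hGr : Ground M) (β : Type u) [ITy M β] : ∃ (_ : ITy (NN S hG) β),
    EqFam hG (fun (_ : Γ) (b : β) => b) (fun b : β => code (M := NN S hG) b) ∧
    ∃ lt : β → β → Prop, Int (NN S hG) (fun q : β × β => lt q.1 q.2) ∧ IsWellOrder β lt := by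
  obtain ⟨t, ht, ht'⟩ := exists_trans hGr.allSet hGr.repl (dom M β)
  let g : β → El t := fun b => toEl (ht _ (code_mem_dom b))
  have hg : IntF M g := IntF.of_D (S := fun v => v 0 = v 1) (D.eqf (DF.var _) (DF.var _))
    fun b c => ⟨fun h => Subtype.ext h, fun h => congrArg Subtype.val h⟩
  have hf : EqFam hG (fun (_ : Γ) (b : β) => b)
      (fun b : β => nd hG (good_chE (S := S) hGr.found t) (g b)) :=
    ⟨El t, inferInstance, _, good_chE hGr.found t, g, hg, fun _ => rfl, fun π p c => FEq.refl p _⟩
  have hi : Function.Injective (fun b : β => nd hG (good_chE (S := S) hGr.found t) (g b)) := by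
    intro b b' h
    obtain ⟨p, -, h1⟩ := (nd_eq hG _ _).1 h
    exact ITy.inj (eq_of_feq hGr.allSet hGr.found ht' ht' h1)
  let I := famTy hf hi
  refine ⟨I, hf, ?_⟩
  obtain ⟨r, hr, hw⟩ := hGr.wo (dom M β)
  let e : β → El (dom M β) := fun b => toEl (code_mem_dom b)
  have he : IntF M e := IntF.of_D (S := fun v => v 0 = v 1) (D.eqf (DF.var _) (DF.var _))
    fun b c => ⟨fun h => Subtype.ext h, fun h => congrArg Subtype.val h⟩
  have hei : Function.Injective e := fun b b' h => ITy.inj (congrArg Subtype.val h)
  obtain ⟨l⟩ := S.nonempty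
  refine ⟨fun a b => r (e a) (e b), fam_int (fam_prod (fun _ _ => rfl) (fun _ _ => rfl) hf hf)
    (Int.comp₂ hr (he.comp IntF.fst') (he.comp IntF.snd')) ⟨l, fun _ _ _ h => h⟩, ?_⟩
  exact RelEmbedding.isWellOrder (s := r) ⟨⟨e, hei⟩, Iff.rfl⟩

/-- The graph of all twists. -/
def TG (Γ : Type u) [Group Γ] [MulAction Γ P] (E : α → P → α → Prop) :
    Γ × α → P → Γ × α → Prop := fun x p y => x.1 = y.1 ∧ E x.2 (x.1⁻¹ • p) y.2

theorem ig_TG {E : α → P → α → Prop} (hE : IG M E) : IG M (TG Γ E) := by
  have hE' : Int M (fun q : (α × P) × α => E q.1.1 q.1.2 q.2) := hE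
  unfold IG TG
  (repeat' (first | with_reducible exact IntF.id | with_reducible exact IntF.fst' | with_reducible exact IntF.snd' | with_reducible exact IntF.const _ | with_reducible exact Int.const _ | assumption | with_reducible apply Int.and | with_reducible apply Int.or | with_reducible apply Int.not | with_reducible apply Int.imp | with_reducible apply Int.iff | with_reducible apply Int.ne | with_reducible apply Int.eq | with_reducible apply Int.mem | with_reducible apply Int.subset | with_reducible apply Int.ltN | with_reducible apply Int.leN | with_reducible_and_instances apply Int.le | with_reducible_and_instances apply Int.lt | with_reducible apply Int.all | with_reducible apply Int.ex | with_reducible apply IntF.fst | with_reducible apply IntF.snd | with_reducible apply IntF.app | with_reducible apply IntF.inl | with_reducible apply IntF.inr | with_reducible_and_instances apply IntF.mul | with_reducible_and_instances apply IntF.inv | with_reducible_and_instances apply IntF.add | with_reducible_and_instances apply IntF.sub | with_reducible_and_instances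 apply IntF.neg | with_reducible_and_instances apply IntF.div | with_reducible_and_instances apply IntF.smul | with_reducible apply IntF.succ | with_reducible apply IntF.val | with_reducible apply IntF.mk | (with_reducible refine Int.comp ?_ ?_; assumption) | (with_reducible refine Int.comp₂ ?_ ?_ ?_; assumption) | (with_reducible refine Int.comp₃ ?_ ?_ ?_ ?_; assumption) | (with_reducible refine Int.comp₄ ?_ ?_ ?_ ?_ ?_; assumption) | (with_reducible refine IntF.comp ?_ ?_; assumption) | (with_reducible refine IntF.comp₂ ?_ ?_ ?_; assumption) | (with_reducible refine IntF.comp₃ ?_ ?_ ?_ ?_; assumption) | with_reducible apply IntF.pair))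

theorem feq_TG (E : α → P → α → Prop) (π : Γ) (p : P) (a : α) :
    FEq M (tw π E) (TG Γ E) p a (π, a) := by
  refine feq_of_map (θ := fun a => (π, a)) (by (repeat' (first | with_reducible exact IntF.id | with_reducible exact IntF.fst' | with_reducible exact IntF.snd' | with_reducible exact IntF.const _ | with_reducible exact Int.const _ | assumption | with_reducible apply Int.and | with_reducible apply Int.or | with_reducible apply Int.not | with_reducible apply Int.imp | with_reducible apply Int.iff | with_reducible apply Int.ne | with_reducible apply Int.eq | with_reducible apply Int.mem | with_reducible apply Int.subset | with_reducible apply Int.ltN | with_reducible apply Int.leN | with_reducible_and_instances apply Int.le | with_reducible_and_instances apply Int.lt | with_reducible apply Int.all | with_reducible apply Int.ex | with_reducible apply IntF.fst | with_reducible apply IntF.snd | with_reducible apply IntF.app | with_reducible apply IntF.inl | with_reducible apply IntF.inr | with_reducible_and_instances apply IntF.mul | with_reducible_and_instances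 apply IntF.inv | with_reducible_and_instances apply IntF.add | with_reducible_and_instances apply IntF.sub | with_reducible_and_instances apply IntF.neg | with_reducible_and_instances apply IntF.div | with_reducible_and_instances apply IntF.smul | with_reducible apply IntF.succ | with_reducible apply IntF.val | with_reducible apply IntF.mk | (with_reducible refine Int.comp ?_ ?_; assumption) | (with_reducible refine Int.comp₂ ?_ ?_ ?_; assumption) | (with_reducible refine Int.comp₃ ?_ ?_ ?_ ?_; assumption) | (with_reducible refine Int.comp₄ ?_ ?_ ?_ ?_ ?_; assumption) | (with_reducible refine IntF.comp ?_ ?_; assumption) | (with_reducible refine IntF.comp₂ ?_ ?_ ?_; assumption) | (with_reducible refine IntF.comp₃ ?_ ?_ ?_ ?_; assumption) | with_reducible apply IntF.pair))) (fun a b s => ?_) p a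
  constructor
  · obtain ⟨σ, b⟩ := b
    rintro ⟨h1, h2⟩
    obtain rfl : σ = π := h1
    exact ⟨b, rfl, h2⟩
  · rintro ⟨a', rfl, h⟩
    exact ⟨rfl, h⟩

theorem feq_tw_TG (E : α → P → α → Prop) (τ : Γ) (p : P) (x : Γ × α) :
    FEq M (tw τ (TG Γ E)) (TG Γ E) p x (τ * x.1, x.2) := by
  refine feq_of_map (θ := fun x : Γ × α => (τ * x.1, x.2)) (by (repeat' (first | with_reducible exact IntF.id | with_reducible exact IntF.fst' | with_reducible exact IntF.snd' | with_reducible exact IntF.const _ | with_reducible exact Int.const _ | assumption | with_reducible apply Int.and | with_reducible apply Int.or | with_reducible apply Int.not | with_reducible apply Int.imp | with_reducible apply Int.iff | with_reducible apply Int.ne | with_reducible apply Int.eq | with_reducible apply Int.mem | with_reducible apply Int.subset | with_reducible apply Int.ltN | with_reducible apply Int.leN | with_reducible_and_instances apply Int.le | with_reducible_and_instances apply Int.lt | with_reducible apply Int.all | with_reducible apply Int.ex | with_reducible apply IntF.fst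 | with_reducible apply IntF.snd | with_reducible apply IntF.app | with_reducible apply IntF.inl | with_reducible apply IntF.inr | with_reducible_and_instances apply IntF.mul | with_reducible_and_instances apply IntF.inv | with_reducible_and_instances apply IntF.add | with_reducible_and_instances apply IntF.sub | with_reducible_and_instances apply IntF.neg | with_reducible_and_instances apply IntF.div | with_reducible_and_instances apply IntF.smul | with_reducible apply IntF.succ | with_reducible apply IntF.val | with_reducible apply IntF.mk | (with_reducible refine Int.comp ?_ ?_; assumption) | (with_reducible refine Int.comp₂ ?_ ?_ ?_; assumption) | (with_reducible refine Int.comp₃ ?_ ?_ ?_ ?_; assumption) | (with_reducible refine Int.comp₄ ?_ ?_ ?_ ?_ ?_; assumption) | (with_reducible refine IntF.comp ?_ ?_; assumption) | (with_reducible refine IntF.comp₂ ?_ ?_ ?_; assumption) | (with_reducible refine IntF.comp₃ ?_ ?_ ?_ ?_; assumption) | with_reducible apply IntF.pair))) (fun a b s => ?_) p x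
  constructor
  · obtain ⟨σ, b⟩ := b
    rintro ⟨h1, h2⟩
    obtain rfl : σ = τ * a.1 := h1
    refine ⟨(a.1, b), rfl, rfl, ?_⟩
    simpa [mul_smul] using h2
  · rintro ⟨a', rfl, h1, h2⟩
    refine ⟨congrArg (τ * ·) h1, ?_⟩
    simpa [mul_smul] using h2

theorem good_TG {E : α → P → α → Prop} (h : Good S E) : Good S (TG Γ E) := by
  refine ⟨ig_TG h.int, fun s ⟨⟨π, a⟩, ha⟩ => ?_, fun ⟨π, a⟩ => ?_⟩
  · have hp : Int M (fun a => (π, a) ∈ s) := by (repeat' (first | with_reducible exact IntF.id | with_reducible exact IntF.fst' | with_reducible exact IntF.snd' | with_reducible exact IntF.const _ | with_reducible exact Int.const _ | assumption | with_reducible apply Int.and | with_reducible apply Int.or | with_reducible apply Int.not | with_reducible apply Int.imp | with_reducible apply Int.iff | with_reducible apply Int.ne | with_reducible apply Int.eq | with_reducible apply Int.mem | with_reducible apply Int.subset | with_reducible apply Int.ltN | with_reducible apply Int.leN | with_reducible_and_instances apply Int.le | with_reducible_and_instances apply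 Int.lt | with_reducible apply Int.all | with_reducible apply Int.ex | with_reducible apply IntF.fst | with_reducible apply IntF.snd | with_reducible apply IntF.app | with_reducible apply IntF.inl | with_reducible apply IntF.inr | with_reducible_and_instances apply IntF.mul | with_reducible_and_instances apply IntF.inv | with_reducible_and_instances apply IntF.add | with_reducible_and_instances apply IntF.sub | with_reducible_and_instances apply IntF.neg | with_reducible_and_instances apply IntF.div | with_reducible_and_instances apply IntF.smul | with_reducible apply IntF.succ | with_reducible apply IntF.val | with_reducible apply IntF.mk | (with_reducible refine Int.comp ?_ ?_; assumption) | (with_reducible refine Int.comp₂ ?_ ?_ ?_; assumption) | (with_reducible refine Int.comp₃ ?_ ?_ ?_ ?_; assumption) | (with_reducible refine Int.comp₄ ?_ ?_ ?_ ?_ ?_; assumption) | (with_reducible refine IntF.comp ?_ ?_; assumption) | (with_reducible refine IntF.comp₂ ?_ ?_ ?_; assumption) | (with_reducible refine IntF.comp₃ ?_ ?_ ?_ ?_; assumption) | with_reducible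 apply IntF.pair))
    obtain ⟨b, h1, h2⟩ := h.wf (sep M fun a => (π, a) ∈ s) ⟨a, (mem_sep hp).2 ha⟩
    refine ⟨(π, b), (mem_sep hp).1 h1, fun ⟨σ, c⟩ q h3 ⟨h4, h5⟩ => ?_⟩
    obtain rfl : σ = π := h4
    exact h2 c _ ((mem_sep hp).2 h3) h5
  · obtain ⟨l, hl⟩ := (h.tw S π).sym a
    exact ⟨l, hl.congr S (h.int.tw π) (ig_TG h.int) fun p => feq_TG E π p a⟩

theorem exists_orbit (D : NN S hG) : ∃ (α : Type u) (_ : ITy M α) (v : Γ × α → NN S hG),
    EqFam hG (fun τ (x : Γ × α) => (τ * x.1, x.2)) v ∧ (∀ x, Mem x D → ∃ a, x = v (1, a)) ∧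
      ∀ a, ∃ l, ∀ π π', S.U l (π⁻¹ * π') → v (π, a) = v (π', a) := by
  obtain ⟨x, rfl⟩ := exists_mk hG D
  have h := x.good
  refine ⟨_, inferInstance, fun y => nd hG (good_TG h) y, ⟨_, inferInstance, _, good_TG h,
    fun y => y, IntF.id, fun _ => rfl, fun π p c => feq_tw_TG _ π p c⟩, fun y hy => ?_, fun a => ?_⟩
  · rw [mk_eq_nd] at hy
    obtain ⟨a, s, -, -, rfl⟩ := (mem_nd hG h).1 hy
    refine ⟨a, nd_eq_of hG _ _ fun p => ?_⟩
    have h1 := feq_TG (M := M) x.E (1 : Γ) p a
    rwa [tw_one] at h1
  · obtain ⟨l, hl⟩ := h.sym a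
    refine ⟨l, fun π π' hπ => nd_eq_of hG _ _ fun p => ?_⟩
    have h1 := feq_tw S π (hl _ hπ (π⁻¹ • p))
    rw [smul_inv_smul, ← tw_mul, mul_inv_cancel_left] at h1
    have hI := ig_TG (Γ := Γ) h.int
    exact (((feq_TG x.E π p a).symm (h.int.tw π) hI).trans hI (h.int.tw π) (h.int.tw π')
      (h1.symm (h.int.tw π') (h.int.tw π))).trans hI (h.int.tw π') hI (feq_TG x.E π' p a)

end

end Pool.Agent.Helper672.ZFA.H875
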