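import Pool.Agent.H635R2.Ext

/-!
# A countable well-founded model of ZF in which every set has a well-ordering
-/

namespace Pool.Agent.Helper672.ZFA.H875

open FirstOrder FirstOrder.Language
open Pool.Agent.Helper672.Plain (LSet)
open Pool.Agent.H635Amen (ZF)
open Pool.Agent.Helper672.ZFA.H635

universe u

/-- The universe of sets as a structure. -/
@[reducible] def zfStr : LSet.Structure ZFSet.{u} where
  funMap := fun f => Empty.elim f
  RelMap := fun {_} r v => match r, v with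
    | Plain.Sym.mem, v => v 0 ∈ v 1

attribute [local instance] zfStr

theorem zmem {x y : ZFSet.{u}} : Plain.Mem x y ↔ x ∈ y := Iff.rfl

theorem zf_zfset : ZF ZFSet.{u} where
  ext x y h := ZFSet.ext h
  pairing x y := ⟨{x, y}, fun z => by simp [zmem]⟩
  union x := ⟨ZFSet.sUnion x, fun z => by simp [zmem]⟩
  power x := ⟨ZFSet.powerset x, fun z => by
    rw [zmem, ZFSet.mem_powerset]
    exact Iff.rfl⟩
  infinity := ⟨ZFSet.omega, ⟨∅, ZFSet.omega_zero, fun z => ZFSet.notMem_empty z⟩, fun n hn =>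
    ⟨insert n n, ZFSet.omega_succ hn, fun z => by simp [zmem, or_comm]⟩⟩
  separation S _ x := ⟨ZFSet.sep (fun z => z ∈ S) x, fun z => by simp [zmem]⟩
  foundation x hx := by
    obtain ⟨y, hy⟩ := hx
    have hne : x ≠ ∅ := fun h => by
      rw [h] at hy
      exact ZFSet.notMem_empty y hy
    obtain ⟨z, h1, h2⟩ := ZFSet.regularity x hne
    refine ⟨z, h1, fun w hw hwz => ?_⟩
    have : w ∈ x ∩ z := ZFSet.mem_inter.2 ⟨hw, hwz⟩
    rw [h2] at this
    exact ZFSet.notMem_empty w this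
  replacement F _ a h := by
    classical
    let f : ZFSet.{u} → ZFSet.{u} := fun x => if hx : x ∈ a then (h x hx).choose else x
    refine ⟨@ZFSet.image f (Classical.allZFSetDefinable _) a, fun y => ?_⟩
    rw [zmem, @ZFSet.mem_image f (Classical.allZFSetDefinable _)]
    constructor
    · rintro ⟨x, hx, rfl⟩
      refine ⟨x, hx, ?_⟩
      simp only [f, dif_pos hx]
      exact (h x hx).choose_spec.1
    · rintro ⟨x, hx, hxy⟩
      refine ⟨x, hx, ?_⟩
      have hx' : x ∈ a := hx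
      simp only [f, dif_pos hx']
      exact ((h x hx).choose_spec.2 y hxy).symm

section

variable {M : Type u} [LSet.Structure M]

/-- The pair `(x, y)` is in `r`. -/
def Rel (r x y : M) : Prop := ∃ p, Plain.IsOrdPair p x y ∧ Plain.Mem p r

/-- `r` is a well-ordering of `a`. -/
def WO (r a : M) : Prop :=
  (∀ x y, Plain.Mem x a → Plain.Mem y a → Rel r x y ∨ x = y ∨ Rel r y x) ∧
  (∀ x y z, Rel r x y → Rel r y z → Rel r x z) ∧
  ∀ s : M, (∃ x, Plain.Mem x s) → ∃ x, Plain.Mem x s ∧ ∀ y, Plain.Mem y s → ¬ Rel r y x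

theorem DA.isPair {A : Set M} {ι : Type} {p x y : (ι → M) → M}
    (hp : TA A (fun w : ι ⊕ Unit → M => p (fun i => w (Sum.inl i))))
    (hx : TA A (fun w : ι ⊕ Unit → M => x (fun i => w (Sum.inl i))))
    (hy : TA A (fun w : ι ⊕ Unit → M => y (fun i => w (Sum.inl i)))) :
    DA A (fun v => Plain.IsPair (p v) (x v) (y v)) :=
  DA.all (DA.iff (DA.mem (TA.var _) hp) (DA.or (DA.eq (TA.var _) hx) (DA.eq (TA.var _) hy)))

theorem DA.ordPair₀ {A : Set M} : DA A (fun v : Fin 3 → M => Plain.IsOrdPair (v 0) (v 1) (v 2)) := by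
  unfold Plain.IsOrdPair
  exact DA.ex (DA.ex (DA.and (DA.isPair (TA.var _) (TA.var _) (TA.var _)) (DA.and
    (DA.isPair (TA.var _) (TA.var _) (TA.var _)) (DA.isPair (TA.var _) (TA.var _) (TA.var _)))))

theorem DA.ordPair {A : Set M} {ι : Type} (i j k : ι) :
    DA A (fun v : ι → M => Plain.IsOrdPair (v i) (v j) (v k)) :=
  (DA.ordPair₀ (A := A)).reindex ![i, j, k]

theorem DA.rel {A : Set M} {ι : Type} (i j k : ι) :
    DA A (fun v : ι → M => Rel (v i) (v j) (v k)) := by
  unfold Rel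
  exact DA.ex (DA.and (DA.ordPair (Sum.inr ()) (Sum.inl j) (Sum.inl k))
    (DA.mem (TA.var _) (TA.var (Sum.inl i))))

theorem DA.wo₀ {A : Set M} : DA A (fun v : Fin 2 → M => WO (v 0) (v 1)) := by
  unfold WO
  refine DA.and (DA.all (DA.all (DA.imp (DA.mem (TA.var _) (TA.var _)) (DA.imp
    (DA.mem (TA.var _) (TA.var _)) (DA.or (DA.rel _ _ _) (DA.or (DA.eq (TA.var _) (TA.var _))
      (DA.rel _ _ _))))))) (DA.and (DA.all (DA.all (DA.all (DA.imp (DA.rel _ _ _)
        (DA.imp (DA.rel _ _ _) (DA.rel _ _ _)))))) (DA.all (DA.imp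
          (DA.ex (DA.mem (TA.var _) (TA.var _))) (DA.ex (DA.and (DA.mem (TA.var _) (TA.var _))
            (DA.all (DA.imp (DA.mem (TA.var _) (TA.var _)) (DA.not (DA.rel _ _ _)))))))))

end

theorem zordPair {p x y : ZFSet.{u}} : Plain.IsOrdPair p x y ↔ p = ZFSet.pair x y := by
  constructor
  · rintro ⟨s, d, h1, h2, h3⟩
    have e1 : s = {x} := ZFSet.ext fun z => by
      have := h1 z
      rw [zmem] at this
      simp [this]
    have e2 : d = {x, y} := ZFSet.ext fun z => by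
      have := h2 z
      rw [zmem] at this
      simp [this]
    subst e1 e2
    exact ZFSet.ext fun z => by
      have := h3 z
      rw [zmem] at this
      simp [this, ZFSet.pair]
  · rintro rfl
    exact ⟨{x}, {x, y}, fun z => by simp [zmem], fun z => by simp [zmem],
      fun z => by simp [zmem, ZFSet.pair]⟩

theorem zrel {r x y : ZFSet.{u}} : Rel r x y ↔ ZFSet.pair x y ∈ r := by
  unfold Rel
  simp only [zordPair]
  exact ⟨fun ⟨p, h1, h2⟩ => h1 ▸ h2, fun h => ⟨_, rfl, h⟩⟩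

theorem exists_wo (a : ZFSet.{u}) : ∃ r, WO r a := by
  refine ⟨ZFSet.sep (fun p => ∃ x y, p = ZFSet.pair x y ∧ WellOrderingRel x y) (ZFSet.prod a a),
    ?_, ?_, ?_⟩
  all_goals
    have key : ∀ x y : ZFSet.{u}, Rel (ZFSet.sep (fun p => ∃ x y, p = ZFSet.pair x y ∧
        WellOrderingRel x y) (ZFSet.prod a a)) x y ↔ x ∈ a ∧ y ∈ a ∧ WellOrderingRel x y := by
      intro x y
      rw [zrel, ZFSet.mem_sep, ZFSet.pair_mem_prod]
      constructor
      · rintro ⟨⟨h1, h2⟩, x', y', h3, h4⟩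
        obtain ⟨rfl, rfl⟩ := ZFSet.pair_inj.1 h3
        exact ⟨h1, h2, h4⟩
      · rintro ⟨h1, h2, h3⟩
        exact ⟨⟨h1, h2⟩, x, y, rfl, h3⟩
  · intro x y hx hy
    rw [key, key]
    rcases trichotomous_of WellOrderingRel x y with h | h | h
    · exact Or.inl ⟨hx, hy, h⟩
    · exact Or.inr (Or.inl h)
    · exact Or.inr (Or.inr ⟨hy, hx, h⟩)
  · intro x y z h1 h2
    rw [key] at h1 h2 ⊢
    exact ⟨h1.1, h2.2.1, trans_of WellOrderingRel h1.2.2 h2.2.2⟩
  · rintro s ⟨x, hx⟩
    obtain ⟨m, hm, h⟩ := (IsWellFounded.wf (r := (WellOrderingRel : ZFSet.{u} → ZFSet.{u} → Prop))).has_min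
      {z | z ∈ s} ⟨x, hx⟩
    refine ⟨m, hm, fun y hy h1 => ?_⟩
    rw [key] at h1
    exact h y hy h1.2.2

attribute [local instance] toL

/-- The properties of the ground model. -/
structure Ground (M : Type u) [L.Structure M] [IsModel M] : Prop where
  allSet : ∀ x : M, IsSet x
  coll : CollL M
  repl : ReplL M
  found : FoundL M
  wf : WellFounded (fun x y : M => Mem x y)
  wo : ∀ a : M, ∃ r : El a → El a → Prop, Int M (fun q : El a × El a => r q.1 q.2) ∧
    IsWellOrder (El a) r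

theorem plain_pair' {M : Type u} [LSet.Structure M] [IsModel M] {p x y : M} :
    Plain.IsPair p x y ↔ p = up x y :=
  ⟨fun h => eq_up.2 ⟨trivial, h⟩, fun h => (eq_up.1 h).2⟩

theorem plain_ordPair' {M : Type u} [LSet.Structure M] [IsModel M] {p x y : M} :
    Plain.IsOrdPair p x y ↔ p = op x y := by
  unfold Plain.IsOrdPair
  simp only [plain_pair']
  constructor
  · rintro ⟨s, d, rfl, rfl, rfl⟩
    rfl
  · rintro rfl
    exact ⟨_, _, rfl, rfl, rfl⟩

theorem exists_ground_model : ∃ (M : Type (u + 1)) (_ : L.Structure M) (_ : IsModel M),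
    Countable M ∧ Ground M := by
  obtain ⟨M₀, h1, h2⟩ := exists_countable_sub ZFSet.{u} zf_zfset
  have hV := zf_zfset.{u}
  have hM : IsModel M₀ := isModel_of_zermelo h2.toZermelo
  refine ⟨M₀, inferInstance, hM, h1, fun _ => trivial, coll_of_zf h2,
    fun F hD a h1 => h2.replacement {p | F p.1 p.2} (definable_of_toL hD) a h1, h2.foundation,
    ?_, ?_⟩
  · have h : Subrelation (fun x y : M₀ => Mem x y)
        (InvImage (fun x y : ZFSet.{u} => x ∈ y) Subtype.val) := by
      intro x y hxy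
      exact (mem_coe M₀).1 hxy
    exact h.wf (InvImage.wf _ ZFSet.mem_wf)
  · intro a
    have hD : DA (M₀ : Set ZFSet.{u}) (fun v : Fin 1 → ZFSet.{u} => WO (v 0) (a : ZFSet.{u})) := by
      have h3 : DA (M₀ : Set ZFSet.{u}) (fun v : Fin 1 → ZFSet.{u} =>
          ∃ z, z = (a : ZFSet.{u}) ∧ WO (v 0) z) :=
        DA.ex (DA.and (DA.eq (TA.var _) (TA.const a.2))
          ((DA.wo₀ (A := (M₀ : Set ZFSet.{u}))).reindex (κ := Fin 1 ⊕ Unit)
            ![Sum.inl 0, Sum.inr ()]))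
      refine Eq.mp (congrArg (DA (M₀ : Set ZFSet.{u})) ?_) h3
      funext v
      exact propext ⟨fun ⟨z, h3, h4⟩ => h3 ▸ h4, fun h3 => ⟨_, rfl, h3⟩⟩
    obtain ⟨r, hr1, hr2, hr3⟩ := meets M₀ (p := fun r => WO r (a : ZFSet.{u})) hD (exists_wo _)
    have hop : ∀ x y : M₀, ((op x y : M₀) : ZFSet.{u}) = ZFSet.pair x y := by
      intro x y
      have hup : ∀ x y : M₀, ((up x y : M₀) : ZFSet.{u}) = {(x : ZFSet.{u}), (y : ZFSet.{u})} := by
        intro x y
        obtain ⟨p, hp⟩ := meets M₀ (p := fun p => ∀ z, Plain.Mem z p ↔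
            z = (x : ZFSet.{u}) ∨ z = (y : ZFSet.{u}))
          (DA.all (DA.iff (DA.mem (TA.var _) (TA.var _)) (DA.or
            (DA.eq (TA.var _) (TA.const x.2)) (DA.eq (TA.var _) (TA.const y.2)))))
          (hV.pairing x y)
        have e : p = up x y := eq_up.2 ⟨trivial, fun z => by
          rw [mem_toL, mem_coe, hp, Subtype.ext_iff, Subtype.ext_iff]⟩
        rw [← e]
        exact ZFSet.ext fun z => by
          have := hp z
          rw [zmem] at this
          simp [this]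
      unfold op
      rw [hup, hup, hup]
      simp [ZFSet.pair]
    have hrel : ∀ x y : M₀, Mem (op x y) r ↔ Rel (r : ZFSet.{u}) x y := by
      intro x y
      rw [zrel, ← hop, mem_toL, mem_coe]
      exact Iff.rfl
    refine ⟨fun x y => Mem (op x.1 y.1) r, ⟨r, fun q => Iff.rfl⟩, ?_⟩
    have hwf : WellFounded (fun x y : El a => Mem (op x.1 y.1) r) := by
      refine WellFounded.wellFounded_iff_has_min.2 fun s ⟨x, hx⟩ => ?_
      obtain ⟨m, hm, h⟩ := hr3 (ZFSet.sep (fun z => ∃ y : El a, y ∈ s ∧ (y.1 : ZFSet.{u}) = z) a)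
        ⟨x.1, by
          rw [zmem, ZFSet.mem_sep]
          exact ⟨(mem_coe M₀).1 x.2, x, hx, rfl⟩⟩
      rw [zmem, ZFSet.mem_sep] at hm
      obtain ⟨-, y, hy, rfl⟩ := hm
      refine ⟨y, hy, fun z hz h1 => h z.1 ?_ ((hrel _ _).1 h1)⟩
      rw [zmem, ZFSet.mem_sep]
      exact ⟨(mem_coe M₀).1 z.2, z, hz, rfl⟩
    have htri : Std.Trichotomous (fun x y : El a => Mem (op x.1 y.1) r) := by
      refine Std.trichotomous_of_rel_or_eq_or_rel_swap fun {x y} => ?_
      rcases hr1 x.1 y.1 ((mem_coe M₀).1 x.2) ((mem_coe M₀).1 y.2) with h | h | h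
      · exact Or.inl ((hrel _ _).2 h)
      · exact Or.inr (Or.inl (Subtype.ext (Subtype.ext h)))
      · exact Or.inr (Or.inr ((hrel _ _).2 h))
    have htr : IsTrans (El a) (fun x y : El a => Mem (op x.1 y.1) r) :=
      ⟨fun x y z h3 h4 => (hrel _ _).2 (hr2 _ _ _ ((hrel _ _).1 h3) ((hrel _ _).1 h4))⟩
    exact { wf := hwf }

end Pool.Agent.Helper672.ZFA.H875
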