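import Pool.Agent.H875Z.Ins.BaseG

/-!
# The model
-/

namespace Pool.Agent.Helper672.ZFA.H875

open FirstOrder FirstOrder.Language
open Pool.Agent.Helper672.Plain (LSet)
open Pool.Agent.H635Amen (ZF)
open Pool.Agent.Helper672.ZFA.H635
open Pool.Agent.H875Z.Ins

set_option linter.unusedSectionVars false
set_option synthInstance.maxSize 2000
set_option maxHeartbeats 400000

universe u

variable {M : Type u} [L.Structure M] [hM : IsModel M]

theorem exists_union (p r : Pc M)
    (h : ∀ q n b b', (q, (n, b)) ∈ p.1 → (q, (n, b')) ∈ r.1 → b = b') : ∃ s, s ≤ p ∧ s ≤ r := by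
  obtain ⟨h1, n, h2⟩ := p.2
  obtain ⟨h3, m, h4⟩ := r.2
  refine ⟨⟨p.1 ∪ r.1, fun q k b b' h5 h6 => ?_, max n m, fun c hc => ?_⟩,
    fun c hc => mem_union.2 (Or.inl hc), fun c hc => mem_union.2 (Or.inr hc)⟩
  · rcases mem_union.1 h5 with h7 | h7 <;> rcases mem_union.1 h6 with h8 | h8
    · exact h1 _ _ _ _ h7 h8
    · exact h _ _ _ _ h7 h8
    · exact (h _ _ _ _ h8 h7).symm
    · exact h3 _ _ _ _ h7 h8
  · rcases mem_union.1 hc with h5 | h5
    · exact lt_of_lt_of_le (h2 _ h5) (le_max_left _ _)
    · exact lt_of_lt_of_le (h4 _ h5) (le_max_right _ _)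

variable [Std M]

theorem restrict {ε : Type u} {act : Gm M → ε → ε} {F : Lm M} {Fo : Pc M → ε → Prop}
    (h2 : ∀ π, (SY M).U F π → ∀ p c, Fo p c → Fo (π • p) (act π c))
    (h3 : ∀ p q c, Fo p c → q ≤ p → Fo q c)
    (h4 : ∀ p c, (∀ q, q ≤ p → ∃ r, r ≤ q ∧ Fo r c) → Fo p c) {p : Pc M} {c : ε}
    (hc : ∀ π, (∀ q, ro π q = q) → act π c = c) (h : Fo p c) :
    ∃ p', p ≤ p' ∧ (∀ l, l ∈ p'.1 → l.1 ∈ F.1) ∧ Fo p' c := by
  have hI : Int M (fun l : Lit M => l ∈ p.1 ∧ l.1 ∈ F.1) := by (repeat' (first | with_reducible exact IntF.id | with_reducible exact IntF.fst' | with_reducible exact IntF.snd' | with_reducible exact IntF.const _ | with_reducible exact Int.const _ | assumption | with_reducible apply Int.and | with_reducible apply Int.or | with_reducible apply Int.not | with_reducible apply Int.imp | with_reducible apply Int.iff | with_reducible apply Int.ne | with_reducible apply Int.eq | with_reducible apply Int.mem | with_reducible apply Int.subset | with_reducible apply Int.ltN | with_reducible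 apply Int.leN | with_reducible_and_instances apply Int.le | with_reducible_and_instances apply Int.lt | with_reducible apply Int.all | with_reducible apply Int.ex | with_reducible apply IntF.fst | with_reducible apply IntF.snd | with_reducible apply IntF.app | with_reducible apply IntF.inl | with_reducible apply IntF.inr | with_reducible_and_instances apply IntF.mul | with_reducible_and_instances apply IntF.inv | with_reducible_and_instances apply IntF.add | with_reducible_and_instances apply IntF.sub | with_reducible_and_instances apply IntF.neg | with_reducible_and_instances apply IntF.div | with_reducible_and_instances apply IntF.smul | with_reducible apply IntF.succ | with_reducible apply IntF.val | with_reducible apply IntF.mk | (with_reducible refine Int.comp ?_ ?_; assumption) | (with_reducible refine Int.comp₂ ?_ ?_ ?_; assumption) | (with_reducible refine Int.comp₃ ?_ ?_ ?_ ?_; assumption) | (with_reducible refine Int.comp₄ ?_ ?_ ?_ ?_ ?_; assumption) | (with_reducible refine IntF.comp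 ?_ ?_; assumption) | (with_reducible refine IntF.comp₂ ?_ ?_ ?_; assumption) | (with_reducible refine IntF.comp₃ ?_ ?_ ?_ ?_; assumption) | with_reducible apply IntF.pair))
  obtain ⟨h5, n, h6⟩ := p.2
  refine ⟨⟨sep M fun l : Lit M => l ∈ p.1 ∧ l.1 ∈ F.1, fun q k b b' h7 h8 =>
    h5 _ _ _ _ ((mem_sep hI).1 h7).1 ((mem_sep hI).1 h8).1, n, fun l hl =>
    h6 l ((mem_sep hI).1 hl).1⟩, fun l hl => ((mem_sep hI).1 hl).1,
    fun l hl => ((mem_sep hI).1 hl).2, h4 _ _ fun r hr => ?_⟩
  obtain ⟨π, e1, e2, e3, e4⟩ := exists_flip (M := M)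
    (Z := fun q k => ¬ q ∈ F.1 ∧ ∃ b, (q, (k, b)) ∈ p.1 ∧ (q, (k, !b)) ∈ r.1) (by (repeat' (first | with_reducible exact IntF.id | with_reducible exact IntF.fst' | with_reducible exact IntF.snd' | with_reducible exact IntF.const _ | with_reducible exact Int.const _ | assumption | with_reducible apply Int.and | with_reducible apply Int.or | with_reducible apply Int.not | with_reducible apply Int.imp | with_reducible apply Int.iff | with_reducible apply Int.ne | with_reducible apply Int.eq | with_reducible apply Int.mem | with_reducible apply Int.subset | with_reducible apply Int.ltN | with_reducible apply Int.leN | with_reducible_and_instances apply Int.le | with_reducible_and_instances apply Int.lt | with_reducible apply Int.all | with_reducible apply Int.ex | with_reducible apply IntF.fst | with_reducible apply IntF.snd | with_reducible apply IntF.app | with_reducible apply IntF.inl | with_reducible apply IntF.inr | with_reducible_and_instances apply IntF.mul | with_reducible_and_instances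 apply IntF.inv | with_reducible_and_instances apply IntF.add | with_reducible_and_instances apply IntF.sub | with_reducible_and_instances apply IntF.neg | with_reducible_and_instances apply IntF.div | with_reducible_and_instances apply IntF.smul | with_reducible apply IntF.succ | with_reducible apply IntF.val | with_reducible apply IntF.mk | with_reducible apply IntF.bnot | (with_reducible refine Int.comp ?_ ?_; assumption) | (with_reducible refine Int.comp₂ ?_ ?_ ?_; assumption) | (with_reducible refine Int.comp₃ ?_ ?_ ?_ ?_; assumption) | (with_reducible refine Int.comp₄ ?_ ?_ ?_ ?_ ?_; assumption) | (with_reducible refine IntF.comp ?_ ?_; assumption) | (with_reducible refine IntF.comp₂ ?_ ?_ ?_; assumption) | (with_reducible refine IntF.comp₃ ?_ ?_ ?_ ?_; assumption) | with_reducible apply IntF.pair)))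
  obtain ⟨s, h7, h8⟩ := exists_union (π • p) r fun q k b b' h7 h8 => by
    rw [mem_smul, e1] at h7
    by_cases hZ : ¬ q ∈ F.1 ∧ ∃ b, (q, (k, b)) ∈ p.1 ∧ (q, (k, !b)) ∈ r.1
    · rw [e3 _ _ _ hZ] at h7
      obtain ⟨-, d, h9, h10⟩ := hZ
      rw [r.2.1 _ _ _ _ h8 h10, ← h5 _ _ _ _ h7 h9, Bool.not_not]
    · rw [e4 _ _ _ hZ] at h7
      by_cases hq : q ∈ F.1
      · exact r.2.1 _ _ _ _ (hr _ ((mem_sep hI).2 ⟨h7, hq⟩)) h8
      · by_contra hb
        refine hZ ⟨hq, b, h7, ?_⟩
        rwa [← Bool.eq_not.2 (Ne.symm hb)]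
  refine ⟨s, h8, h3 _ _ _ ?_ h7⟩
  have h9 := h2 π (fun l hl => e4 l.1 l.2.1 l.2.2 fun h => h.1 hl) p c h
  rwa [hc π e2] at h9

variable {G : Set (Pc M)} (hG : IsGen M G)

noncomputable instance qTy : ITy (NN (SY M) hG) (IQ M) := famTy (fam_tn hG) (tn_inj hG)

theorem fam_q : EqFam hG ro (fun q : IQ M => code (M := NN (SY M) hG) q) := fam_tn hG

instance qLE : ILE (NN (SY M) hG) (IQ M) where
  out := fam_int (fam_prod ro_inv_ro ro_inv_ro (fam_tn hG) (fam_tn hG)) ILE.out
    ⟨toLm Set.finite_empty, fun π _ _ h => not_lt.1 fun h1 => not_lt.2 h ((ro_lt π).1 h1)⟩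

theorem tame (S : INat (NN (SY M) hG) → IQ M → Prop)
    (hS : Int (NN (SY M) hG) (fun q : INat (NN (SY M) hG) × IQ M => S q.1 q.2)) :
    ∃ E : Set (IQ M), E.Finite ∧ ∀ n q q', Same E q q' → S n q → S n q' := by
  obtain ⟨s, hs⟩ := hS
  obtain ⟨F, Fo, h1, h2, h3, h4⟩ := fam_force
    (fam_prod (fun _ _ => rfl) ro_inv_ro (fam_na hG) (fam_tn hG)) s
  have key : ∀ k q, S (ofN _ k) q ↔ ∃ p, p ∈ G ∧ Fo p (ofN M k, q) := fun k q => by
    rw [← h1, vl_ofN]
    exact (hs (ofN _ k, q)).symm
  refine ⟨_, F.2, fun n q q' hq h => ?_⟩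
  obtain ⟨k, rfl⟩ := Std.surj n
  obtain ⟨p, hp, h5⟩ := (key k q).1 h
  obtain ⟨p', h6, h7, h8⟩ := restrict h2 h3 h4 (fun π hπ => Prod.ext rfl (hπ q)) h5
  obtain ⟨π, h9, h10⟩ := exists_move F.2 hq
  refine (key k q').2 ⟨p', hG.up _ _ hp h6, h3 (π • p') _ _ ?_ fun l hl => ?_⟩
  · have h11 := h2 π h10 _ _ h8
    rwa [h9] at h11
  · rw [mem_smul] at hl
    rw [← sg_sg_inv π l, h10 _ (h7 _ hl)]
    exact hl

theorem tame₁ (S : IQ M → Prop) (hS : Int (NN (SY M) hG) S) : Tame S := by
  obtain ⟨E, h1, h2⟩ := tame hG (fun _ q => S q) (Int.comp hS IntF.snd')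
  exact ⟨E, h1, h2 0⟩

/-- The generic reals as subsets of the natural numbers of the extension. -/
def XA (c : IQ M × Fl M) : IPow (NN (SY M) hG) (INat (NN (SY M) hG)) :=
  ⟨fun n => Mem n.val (vl hG (xn c)), ⟨_, fun _ => Iff.rfl⟩⟩

theorem mem_XA {c : IQ M × Fl M} {k : ℕ} :
    ofN _ k ∈ XA hG c ↔ ∃ p, p ∈ G ∧ (c.1, (ofN M k, c.2 (ofN M k))) ∈ p.1 := by
  rw [← na_mem_xn hG, vl_ofN]
  rfl

theorem code_XA (c : IQ M × Fl M) : code (XA hG c) = vl hG (xn c) := by
  refine nn_ext hG fun z => (mem_code_pow (s := XA hG c)).trans ⟨?_, fun h => ?_⟩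
  · rintro ⟨a, h, rfl⟩
    exact h
  · obtain ⟨m, p, -, -, h1⟩ := (mem_xn hG).1 h
    obtain ⟨k, rfl⟩ := Std.surj m
    rw [vl_ofN] at h1
    subst h1
    exact ⟨ofN _ k, h, rfl⟩

theorem flip_fact {U : IPow (NN (SY M) hG) (INat (NN (SY M) hG)) → Prop}
    (hU : Int (NN (SY M) hG) U) : ∃ E : Set (IQ M), E.Finite ∧ ∀ c, c.1 ∉ E → U (XA hG c) →
      ∃ c', U (XA hG c') ∧ ∃ m, ∀ n, m ≤ n → (n ∈ XA hG c' ↔ ¬ n ∈ XA hG c) := by
  obtain ⟨s, hs⟩ := hU
  obtain ⟨F, Fo, h1, h2, h3, -⟩ := fam_force (fam_xn hG) s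
  have key : ∀ c, U (XA hG c) ↔ ∃ p, p ∈ G ∧ Fo p c := fun c => by
    rw [← h1, ← hs, code_XA]
  refine ⟨_, F.2, fun c hc h => ?_⟩
  obtain ⟨p, hp, h5⟩ := (key c).1 h
  obtain ⟨-, m, hm⟩ := p.2
  obtain ⟨π, e1, e2, e3, e4⟩ := exists_flip (M := M) (Z := fun q k => q = c.1 ∧ m ≤ k) (by (repeat' (first | with_reducible exact IntF.id | with_reducible exact IntF.fst' | with_reducible exact IntF.snd' | with_reducible exact IntF.const _ | with_reducible exact Int.const _ | assumption | with_reducible apply Int.and | with_reducible apply Int.or | with_reducible apply Int.not | with_reducible apply Int.imp | with_reducible apply Int.iff | with_reducible apply Int.ne | with_reducible apply Int.eq | with_reducible apply Int.mem | with_reducible apply Int.subset | with_reducible apply Int.ltN | with_reducible apply Int.leN | with_reducible_and_instances apply Int.le | with_reducible_and_instances apply Int.lt | with_reducible apply Int.all | with_reducible apply Int.ex | with_reducible apply IntF.fst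 | with_reducible apply IntF.snd | with_reducible apply IntF.app | with_reducible apply IntF.inl | with_reducible apply IntF.inr | with_reducible_and_instances apply IntF.mul | with_reducible_and_instances apply IntF.inv | with_reducible_and_instances apply IntF.add | with_reducible_and_instances apply IntF.sub | with_reducible_and_instances apply IntF.neg | with_reducible_and_instances apply IntF.div | with_reducible_and_instances apply IntF.smul | with_reducible apply IntF.succ | with_reducible apply IntF.val | with_reducible apply IntF.mk | (with_reducible refine Int.comp ?_ ?_; assumption) | (with_reducible refine Int.comp₂ ?_ ?_ ?_; assumption) | (with_reducible refine Int.comp₃ ?_ ?_ ?_ ?_; assumption) | (with_reducible refine Int.comp₄ ?_ ?_ ?_ ?_ ?_; assumption) | (with_reducible refine IntF.comp ?_ ?_; assumption) | (with_reducible refine IntF.comp₂ ?_ ?_ ?_; assumption) | (with_reducible refine IntF.comp₃ ?_ ?_ ?_ ?_; assumption) | with_reducible apply IntF.pair)))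
  obtain ⟨k₀, rfl⟩ := Std.surj m
  refine ⟨xa π c, (key _).2 ⟨p, hp, h3 (π • p) _ _ (h2 π (fun l hl => e4 l.1 l.2.1 l.2.2
    fun h => hc (h.1 ▸ hl)) p c h5) fun l hl => ?_⟩, ofN _ k₀, fun n hn => ?_⟩
  · rw [mem_smul, e1] at hl
    have h6 := hm _ hl
    rw [sg_col] at h6
    rwa [show sg π l = l from e4 l.1 l.2.1 l.2.2 fun h => not_lt.2 h.2 h6] at hl
  · obtain ⟨k, rfl⟩ := Std.surj n
    rw [mem_XA, mem_XA, xa_apply, e3 _ _ _ ⟨rfl, ofN_strictMono.monotone
      (ofN_strictMono.le_iff_le.1 hn)⟩]
    exact gen_not hG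

theorem nn_not_bpi : ¬ BPI (NN (SY M) hG) := by
  refine not_bpi ?_
  rintro ⟨U, hU, h⟩
  obtain ⟨E, h1, h2⟩ := flip_fact hG hU
  obtain ⟨E', h3, h4⟩ := flip_fact hG hU.not
  obtain ⟨q, hq⟩ := (h1.union h3).exists_notMem
  let c : IQ M × Fl M := (q, ⟨fun _ => true, IntF.const _⟩)
  by_cases h5 : U (XA hG c)
  · obtain ⟨c', h6, h7⟩ := h2 c (fun h => hq (Or.inl h)) h5
    exact (h _ _ h7).1 h5 h6
  · obtain ⟨c', h6, h7⟩ := h4 c (fun h => hq (Or.inr h)) h5
    exact h5 ((h _ _ h7).2 h6)

theorem nn_not_idfbi : ¬ IDFBI (NN (SY M) hG) := not_idfbi (Q := IQ M) (tame hG)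

theorem int_ZW {W : Set (IQ M × IQ M)} (hW : W.Finite) :
    Int M (fun π : Gm M => ∀ w, w ∈ W → ro π w.1 = w.2) := by
  have h1 := int_ro (M := M)
  refine Int.all (Int.imp (Int.comp (int_of_finite hW) IntF.snd') ?_)
  (repeat' (first | with_reducible exact IntF.id | with_reducible exact IntF.fst' | with_reducible exact IntF.snd' | with_reducible exact IntF.const _ | with_reducible exact Int.const _ | assumption | with_reducible apply Int.and | with_reducible apply Int.or | with_reducible apply Int.not | with_reducible apply Int.imp | with_reducible apply Int.iff | with_reducible apply Int.ne | with_reducible apply Int.eq | with_reducible apply Int.mem | with_reducible apply Int.subset | with_reducible apply Int.ltN | with_reducible apply Int.leN | with_reducible_and_instances apply Int.le | with_reducible_and_instances apply Int.lt | with_reducible apply Int.all | with_reducible apply Int.ex | with_reducible apply IntF.fst | with_reducible apply IntF.snd | with_reducible apply IntF.app |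 with_reducible apply IntF.inl | with_reducible apply IntF.inr | with_reducible_and_instances apply IntF.mul | with_reducible_and_instances apply IntF.inv | with_reducible_and_instances apply IntF.add | with_reducible_and_instances apply IntF.sub | with_reducible_and_instances apply IntF.neg | with_reducible_and_instances apply IntF.div | with_reducible_and_instances apply IntF.smul | with_reducible apply IntF.succ | with_reducible apply IntF.val | with_reducible apply IntF.mk | (with_reducible refine Int.comp ?_ ?_; assumption) | (with_reducible refine Int.comp₂ ?_ ?_ ?_; assumption) | (with_reducible refine Int.comp₃ ?_ ?_ ?_ ?_; assumption) | (with_reducible refine Int.comp₄ ?_ ?_ ?_ ?_ ?_; assumption) | (with_reducible refine IntF.comp ?_ ?_; assumption) | (with_reducible refine IntF.comp₂ ?_ ?_ ?_; assumption) | (with_reducible refine IntF.comp₃ ?_ ?_ ?_ ?_; assumption) | with_reducible apply IntF.pair))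

theorem nn_gd (hGr : Ground M) {D : NN (SY M) hG} (hD : {z | Mem z D}.Infinite) :
    Gd (NN (SY M) hG) (El D) := by
  by_contra hgd
  obtain ⟨α, _, v, hv, hv1, hv2⟩ := exists_orbit D
  have hact : ∀ (π : Gm M) (b : Gm M × α), ((π⁻¹ * (π * b.1, b.2).1, (π * b.1, b.2).2) :
      Gm M × α) = b := fun π b => Prod.ext (inv_mul_cancel_left _ _) rfl
  obtain ⟨a, ha⟩ : ∃ a, {x : El D | ∃ π, x.1 = v (π, a)}.Infinite := by
    obtain ⟨_, h1, lt, h2, h3⟩ := exists_check (S := SY M) hG hGr α
    have h4 := int_rel (D := D) (w := fun i : Gm M × α => i.2) hact hv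
      (h1.comp (φ := Prod.snd) IntF.snd' fun _ _ => rfl) (Z := fun _ => True) (Int.const _)
      ⟨toLm Set.finite_empty, fun _ _ _ _ => trivial⟩
    have hinf : {x : El D | True}.Infinite := by
      have : Infinite (El D) := hD.to_subtype
      exact Set.infinite_univ
    rcases dich_wo h2 (X := fun _ : El D => True) (Int.const _) hinf
      (R := fun x b => ∃ i, True ∧ x.1 = v i ∧ b = i.2) h4 (fun x _ => by
        obtain ⟨a, ha⟩ := hv1 x.1 x.2
        exact ⟨a, (1, a), trivial, ha, rfl⟩) with h5 | ⟨a, h5⟩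
    · exact absurd h5 hgd
    · refine ⟨a, h5.mono ?_⟩
      rintro x ⟨-, ⟨π, b⟩, -, h6, rfl⟩
      exact ⟨π, h6⟩
  obtain ⟨F, hF⟩ := hv2 a
  have hva : EqFam hG (fun τ π : Gm M => τ * π) (fun π => v (π, a)) :=
    hv.comp (φ := fun π => (π, a)) (IntF.pair IntF.id (IntF.const _)) fun _ _ => rfl
  have hsym : ∀ {W : Set (IQ M × IQ M)} (hW : W.Finite) (τ : Gm M),
      (SY M).U (toLm (hW.image Prod.snd)) τ → ∀ π, (∀ w, w ∈ W → ro π w.1 = w.2) →
      ∀ w, w ∈ W → ro (τ * π) w.1 = w.2 := fun hW τ hτ π hπ w hw => by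
    rw [ro_mul, hπ w hw, ro_of_U hτ ⟨w, hw, rfl⟩]
  have step : ∀ E : Set (IQ M), E.Finite → ∃ W : Set (IQ M × IQ M), W.Finite ∧
      (∀ q ∈ E, ∃ r, (q, r) ∈ W) ∧
      {x : El D | ∃ π, (∀ w, w ∈ W → ro π w.1 = w.2) ∧ x.1 = v (π, a)}.Infinite := by
    intro E hE
    induction E, hE using Set.Finite.induction_on with
    | empty =>
      refine ⟨∅, Set.finite_empty, fun q hq => absurd hq (Set.notMem_empty q), ha.mono ?_⟩
      rintro x ⟨π, h⟩
      exact ⟨π, fun w hw => absurd hw (Set.notMem_empty w), h⟩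
    | @insert q E _ _ ih =>
      obtain ⟨W, h1, h2, h3⟩ := ih
      have h4 := int_rel (D := D) (w := fun π : Gm M => ro π q) (fun π b => inv_mul_cancel_left π b)
        hva ((fam_q hG).comp (φ := fun π : Gm M => ro π q)
          (IntF.comp₂ (p := ro) int_ro IntF.id (IntF.const _)) fun _ _ => ro_mul _ _ _)
        (Z := fun π : Gm M => ∀ w, w ∈ W → ro π w.1 = w.2) (int_ZW h1) ⟨_, hsym h1⟩
      have h5 : Int (NN (SY M) hG) (fun x : El D => ∃ π, (∀ w, w ∈ W → ro π w.1 = w.2) ∧
          x.1 = v (π, a)) := (Int.ex (p := fun (x : El D) r => ∃ π,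
            (∀ w, w ∈ W → ro π w.1 = w.2) ∧ x.1 = v (π, a) ∧ r = ro π q) h4).congr fun x =>
          ⟨fun ⟨_, π, h6, h7, _⟩ => ⟨π, h6, h7⟩, fun ⟨π, h6, h7⟩ => ⟨_, π, h6, h7, rfl⟩⟩
      rcases dich_rel (tame₁ hG) h5 h3 (R := fun (x : El D) r => ∃ π,
        (∀ w, w ∈ W → ro π w.1 = w.2) ∧ x.1 = v (π, a) ∧ r = ro π q) h4
        (fun x ⟨π, h6, h7⟩ => ⟨_, π, h6, h7, rfl⟩) with h6 | ⟨r, h6⟩
      · exact absurd h6 hgd
      refine ⟨insert (q, r) W, h1.insert _, ?_, h6.mono ?_⟩
      · rintro q' (rfl | h7)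
        · exact ⟨r, Or.inl rfl⟩
        · obtain ⟨r', h8⟩ := h2 q' h7
          exact ⟨r', Or.inr h8⟩
      · rintro x ⟨-, π, h7, h8, h9⟩
        refine ⟨π, ?_, h8⟩
        rintro w (rfl | hw)
        · exact h9.symm
        · exact h7 w hw
  obtain ⟨W, h1, h2, h3⟩ := step _ F.2
  obtain ⟨_, h4, lt, h5, h6⟩ := exists_check (S := SY M) hG hGr (Gm M)
  have hs := int_sg (M := M)
  have hZ : Int M (fun i : Gm M × Gm M => (∀ w, w ∈ W → ro i.1 w.1 = w.2) ∧
      ∀ l : Lit M, l.1 ∈ F.1 → sg i.1 l = sg i.2 l) :=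
    Int.and (Int.comp (int_ZW h1) IntF.fst') (by (repeat' (first | with_reducible exact IntF.id | with_reducible exact IntF.fst' | with_reducible exact IntF.snd' | with_reducible exact IntF.const _ | with_reducible exact Int.const _ | assumption | with_reducible apply Int.and | with_reducible apply Int.or | with_reducible apply Int.not | with_reducible apply Int.imp | with_reducible apply Int.iff | with_reducible apply Int.ne | with_reducible apply Int.eq | with_reducible apply Int.mem | with_reducible apply Int.subset | with_reducible apply Int.ltN | with_reducible apply Int.leN | with_reducible_and_instances apply Int.le | with_reducible_and_instances apply Int.lt | with_reducible apply Int.all | with_reducible apply Int.ex | with_reducible apply IntF.fst | with_reducible apply IntF.snd | with_reducible apply IntF.app | with_reducible apply IntF.inl | with_reducible apply IntF.inr | with_reducible_and_instances apply IntF.mul | with_reducible_and_instances apply IntF.inv | with_reducible_and_instances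 apply IntF.add | with_reducible_and_instances apply IntF.sub | with_reducible_and_instances apply IntF.neg | with_reducible_and_instances apply IntF.div | with_reducible_and_instances apply IntF.smul | with_reducible apply IntF.succ | with_reducible apply IntF.val | with_reducible apply IntF.mk | (with_reducible refine Int.comp ?_ ?_; assumption) | (with_reducible refine Int.comp₂ ?_ ?_ ?_; assumption) | (with_reducible refine Int.comp₃ ?_ ?_ ?_ ?_; assumption) | (with_reducible refine Int.comp₄ ?_ ?_ ?_ ?_ ?_; assumption) | (with_reducible refine IntF.comp ?_ ?_; assumption) | (with_reducible refine IntF.comp₂ ?_ ?_ ?_; assumption) | (with_reducible refine IntF.comp₃ ?_ ?_ ?_ ?_; assumption) | with_reducible apply IntF.pair)))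
  have h7 := int_rel (D := D) (act := fun (τ : Gm M) (i : Gm M × Gm M) => (τ * i.1, i.2))
    (w := fun i : Gm M × Gm M => i.2) (fun π b => Prod.ext (inv_mul_cancel_left _ _) rfl)
    (hva.comp (φ := Prod.fst) IntF.fst' fun _ _ => rfl)
    (h4.comp (φ := Prod.snd) IntF.snd' fun _ _ => rfl) hZ
    ⟨_, fun τ hτ i hi => ⟨hsym h1 τ hτ i.1 hi.1, fun l hl => by
      obtain ⟨r, hr⟩ := h2 _ hl
      rw [sg_mul, hτ, hi.2 l hl]
      exact ⟨_, hr, by rw [sg_row, hi.1 _ hr]⟩⟩⟩
  have h8 : Int (NN (SY M) hG) (fun x : El D => ∃ π, (∀ w, w ∈ W → ro π w.1 = w.2) ∧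
      x.1 = v (π, a)) := (Int.ex (p := fun (x : El D) k => ∃ i : Gm M × Gm M,
        ((∀ w, w ∈ W → ro i.1 w.1 = w.2) ∧ ∀ l : Lit M, l.1 ∈ F.1 → sg i.1 l = sg i.2 l) ∧
          x.1 = v (i.1, a) ∧ k = i.2) h7).congr fun x =>
      ⟨fun ⟨_, i, h6, h7, _⟩ => ⟨i.1, h6.1, h7⟩,
        fun ⟨π, h6, h7⟩ => ⟨π, (π, π), ⟨h6, fun _ _ => rfl⟩, h7, rfl⟩⟩
  rcases dich_wo h5 h8 h3 (R := fun (x : El D) k => ∃ i : Gm M × Gm M,
    ((∀ w, w ∈ W → ro i.1 w.1 = w.2) ∧ ∀ l : Lit M, l.1 ∈ F.1 → sg i.1 l = sg i.2 l) ∧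
      x.1 = v (i.1, a) ∧ k = i.2) h7
    (fun x ⟨π, h6, h7⟩ => ⟨π, (π, π), ⟨h6, fun _ _ => rfl⟩, h7, rfl⟩) with h9 | ⟨k, h9⟩
  · exact hgd h9
  refine h9 (Set.Subsingleton.finite ?_)
  have h10 : ∀ x : El D, (∃ i : Gm M × Gm M,
      ((∀ w, w ∈ W → ro i.1 w.1 = w.2) ∧ ∀ l : Lit M, l.1 ∈ F.1 → sg i.1 l = sg i.2 l) ∧
        x.1 = v (i.1, a) ∧ k = i.2) → x.1 = v (k, a) := by
    rintro x ⟨i, ⟨-, h10⟩, h11, rfl⟩
    rw [h11]
    exact hF _ _ fun l hl => by rw [sg_mul, ← h10 l hl, sg_inv_sg]
  intro x hx y hy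
  exact Subtype.ext ((h10 x hx.2).trans (h10 y hy.2).symm)

theorem nn_inshc (hGr : Ground M) : INSHC (NN (SY M) hG) := by
  intro D hD
  rw [isFinite_iff] at hD
  obtain ⟨Λ, _, _, _, _, _, _, _, f, hf, hs⟩ := nn_gd hG hGr hD
  exact good_of_dlo hf hs

omit hM hG in
theorem main : ∃ (N : Type 1) (_ : LSet.Structure N), ZF N ∧ INSHC N ∧ ¬ BPI N ∧ ¬ IDFBI N := by
  obtain ⟨M, _, _, _, hGr⟩ := exists_ground_model.{0}
  have := std_of_wf hGr.wf
  obtain ⟨G, hG⟩ := exists_gen (M := M) (P := Pc M) ⟨∅, fun _ _ _ _ h => (mem_empty.1 h).elim, 0,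
    fun _ h => (mem_empty.1 h).elim⟩
  exact ⟨NN (SY M) hG, inferInstance, nn_zf hG hGr.coll, nn_inshc hG hGr, nn_not_bpi hG,
    nn_not_idfbi hG⟩

end Pool.Agent.Helper672.ZFA.H875
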