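import Pool.Agent.H875Z.Ins.Tame

/-!
# The Cantor cube is not a remainder of a tame dense linear order; ultrafilters from prime ideals
-/

namespace Pool.Agent.Helper672.ZFA.H875

open FirstOrder FirstOrder.Language
open Pool.Agent.Helper672.Plain (LSet)
open Pool.Agent.Helper672.ZFA.H635
open Pool.Agent.H875Z.Ins

set_option linter.unusedSectionVars false
set_option synthInstance.maxSize 2000

universe u

section plain

variable {N : Type u} [LSet.Structure N]

attribute [local instance] toL

variable [hN : IsModel N]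

theorem exists_inter (U V : N) : ∃ X : N, ∀ z, Plain.Mem z X ↔ Plain.Mem z U ∧ Plain.Mem z V := by
  obtain ⟨X, -, h⟩ := small_sep (S := {z | Mem z V}) (D.memf (DF.var _) (DF.const _)) U
  exact ⟨X, h⟩

theorem int_memEl {a b : N} : Int N (fun q : El a × El b => Mem q.1.1 q.2.1) :=
  Int.of_D₂ (S := fun v => Mem (v 0) (v 1)) (D.memf (DF.var _) (DF.var _)) fun _ _ => Iff.rfl

theorem sep_finite {K τ : N} (h1 : IsTop K τ) (h2 : IsHausdorff K τ) {Z : Set N} (hZ : Z.Finite)
    {k : N} (hk : Plain.Mem k K) (h3 : ∀ z ∈ Z, Plain.Mem z K ∧ z ≠ k) :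
    ∃ U, Plain.Mem U τ ∧ Plain.Mem k U ∧ ∀ z ∈ Z, ∃ V, Plain.Mem V τ ∧ Plain.Mem z V ∧
      ∀ y, ¬ (Plain.Mem y U ∧ Plain.Mem y V) := by
  induction Z, hZ using Set.Finite.induction_on with
  | empty => exact ⟨K, h1.2.1, hk, fun z hz => absurd hz (Set.notMem_empty z)⟩
  | @insert z s _ _ ih =>
    obtain ⟨U, h4, h5, h6⟩ := ih fun y hy => h3 y (Or.inr hy)
    obtain ⟨U', V', h7, h8, h9, h10, h11⟩ := h2 k z hk (h3 z (Or.inl rfl)).1
      (h3 z (Or.inl rfl)).2.symm
    obtain ⟨X, hX⟩ := exists_inter U U'
    refine ⟨X, h1.2.2.1 U U' X h4 h7 hX, (hX k).2 ⟨h5, h9⟩, ?_⟩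
    rintro y (rfl | hy)
    · exact ⟨V', h8, h10, fun w hw => h11 w ⟨((hX w).1 hw.1).2, hw.2⟩⟩
    · obtain ⟨V, h12, h13, h14⟩ := h6 y hy
      exact ⟨V, h12, h13, fun w hw => h14 w ⟨((hX w).1 hw.1).1, hw.2⟩⟩

variable [Std N]

theorem cube_infinite {C σ : N} (h : IsCantorCube C σ) : {c | Plain.Mem c C}.Infinite := by
  obtain ⟨w, o, i, t, hw, ho, hi, ht, hC, -⟩ := h
  rw [omega_iff] at hw
  subst hw
  have hoi : i ≠ o := fun h => ho o (h ▸ (hi o).2 (Or.inl rfl))
  let o' : El t := ⟨o, (ht o).2 (Or.inl rfl)⟩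
  let i' : El t := ⟨i, (ht i).2 (Or.inr rfl)⟩
  have hI : ∀ n : INat N, Int N (fun q : INat N × El t =>
      (q.1 = n ∧ q.2 = i') ∨ (¬ q.1 = n ∧ q.2 = o')) := fun n => by (repeat' (first | with_reducible exact IntF.id | with_reducible exact IntF.fst' | with_reducible exact IntF.snd' | with_reducible exact IntF.const _ | with_reducible exact Int.const _ | assumption | with_reducible apply Int.and | with_reducible apply Int.or | with_reducible apply Int.not | with_reducible apply Int.imp | with_reducible apply Int.iff | with_reducible apply Int.ne | with_reducible apply Int.eq | with_reducible apply Int.mem | with_reducible apply Int.subset | with_reducible apply Int.ltN | with_reducible apply Int.leN | with_reducible_and_instances apply Int.le | with_reducible_and_instances apply Int.lt | with_reducible apply Int.all | with_reducible apply Int.ex | with_reducible apply IntF.fst | with_reducible apply IntF.snd | with_reducible apply IntF.app | with_reducible apply IntF.inl | with_reducible apply IntF.inr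 | with_reducible_and_instances apply IntF.mul | with_reducible_and_instances apply IntF.inv | with_reducible_and_instances apply IntF.add | with_reducible_and_instances apply IntF.sub | with_reducible_and_instances apply IntF.neg | with_reducible_and_instances apply IntF.div | with_reducible_and_instances apply IntF.smul | with_reducible apply IntF.succ | with_reducible apply IntF.val | with_reducible apply IntF.mk | (with_reducible refine Int.comp ?_ ?_; assumption) | (with_reducible refine Int.comp₂ ?_ ?_ ?_; assumption) | (with_reducible refine Int.comp₃ ?_ ?_ ?_ ?_; assumption) | (with_reducible refine Int.comp₄ ?_ ?_ ?_ ?_ ?_; assumption) | (with_reducible refine IntF.comp ?_ ?_; assumption) | (with_reducible refine IntF.comp₂ ?_ ?_ ?_; assumption) | (with_reducible refine IntF.comp₃ ?_ ?_ ?_ ?_; assumption) | with_reducible apply IntF.pair))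
  have : Infinite (INat N) := Infinite.of_injective _ (ofN_inj (M := N))
  refine Set.infinite_of_injective_forall_mem (f := fun n => gr (hI n)) (fun n n' h => ?_)
    fun n => (hC _).2 ⟨fun p hp => ?_, fun x hx => ?_⟩
  · have h1 : Maps (gr (hI n)) n.val i := (maps_gr _).2 ⟨n, i', Or.inl ⟨rfl, rfl⟩, rfl, rfl⟩
    have h' : gr (hI n) = gr (hI n') := h
    rw [h'] at h1
    obtain ⟨a, b, h2, h3, h4⟩ := (maps_gr _).1 h1
    obtain rfl : a = n := INat.ext h3
    rcases h2 with h2 | h2
    · exact h2.1
    · have h5 : b = o' := h2.2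
      rw [h5] at h4
      exact absurd h4.symm hoi
  · obtain ⟨⟨a, b⟩, -, rfl⟩ := (pmem_gr _).1 hp
    exact ⟨a.val, b.1, pcode_mem_dom a, b.2, plain_ordPair'.2 rfl⟩
  · obtain ⟨a, rfl⟩ := pmem_dom.1 hx
    by_cases h1 : a = n
    · refine ⟨i, (maps_gr _).2 ⟨a, i', Or.inl ⟨h1, rfl⟩, rfl, rfl⟩, fun y hy => ?_⟩
      obtain ⟨a', b, h2, h3, rfl⟩ := (maps_gr _).1 hy
      obtain rfl := ITy.inj h3
      rcases h2 with h2 | h2
      · exact congrArg Subtype.val h2.2
      · exact absurd h1 h2.1
    · refine ⟨o, (maps_gr _).2 ⟨a, o', Or.inr ⟨h1, rfl⟩, rfl, rfl⟩, fun y hy => ?_⟩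
      obtain ⟨a', b, h2, h3, rfl⟩ := (maps_gr _).1 hy
      obtain rfl := ITy.inj h3
      rcases h2 with h2 | h2
      · exact absurd h2.1 h1
      · exact congrArg Subtype.val h2.2

omit [Std N] in
theorem fun_ext {c c' w o i t : N} (ht : Plain.IsPair t o i) (h : IsFun c w t) (h' : IsFun c' w t)
    (hcc : ∀ n, Plain.Mem n w → (Maps c n i ↔ Maps c' n i)) : c = c' := by
  have key : ∀ {c c' : N}, IsFun c w t → IsFun c' w t →
      (∀ n, Plain.Mem n w → (Maps c n i ↔ Maps c' n i)) → ∀ p, Mem p c → Mem p c' := by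
    intro c c' h h' hcc p hp
    obtain ⟨x, y, h1, h2, h3⟩ := h.1 p hp
    rw [plain_ordPair'] at h3
    subst h3
    rw [← maps_iff] at hp ⊢
    rcases (ht y).1 h2 with rfl | rfl
    · obtain ⟨y', h4, -⟩ := h'.2 x h1
      obtain ⟨x', y'', -, h5, h6⟩ := h'.1 _ (maps_iff.1 h4)
      rw [plain_ordPair'] at h6
      obtain ⟨-, rfl⟩ := op_inj h6
      rcases (ht y').1 h5 with rfl | rfl
      · exact h4
      · rw [(h.2 x h1).unique hp ((hcc x h1).2 h4)]
        exact h4
    · exact (hcc x h1).1 hp
  exact hN.ext _ _ trivial trivial fun p =>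
    ⟨key h h' hcc p, key h' h (fun n hn => (hcc n hn).symm) p⟩

variable {Q : Type u} [ITy N Q] [LinearOrder Q] [DenselyOrdered Q] [NoMaxOrder Q] [NoMinOrder Q]
  [Nonempty Q] [ILE N Q]

theorem not_idfbi (hT : ∀ S : INat N → Q → Prop, Int N (fun q : INat N × Q => S q.1 q.2) →
    ∃ E : Set Q, E.Finite ∧ ∀ n q q', Same E q q' → S n q → S n q') : ¬ IDFBI N := by
  have hT1 : ∀ S : Q → Prop, Int N S → Tame S := fun S hS => by
    obtain ⟨E, h1, h2⟩ := hT (fun _ q => S q) (Int.comp hS IntF.snd')
    exact ⟨E, h1, h2 0⟩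
  intro h
  obtain ⟨K, τ, h, C, σ, ⟨h1, h2, h3, h4, h5, h6⟩, h7, R, φ, hR, hφ, -⟩ := h (dom N Q) (by
    rw [isFinite_iff]
    exact Set.infinite_of_injective_forall_mem (f := fun q : Q => (code q : N)) ITy.inj
      fun q => code_mem_dom (M := N) q)
  have hex : ∀ q : Q, ∃ k : El K, Maps h (code q) k.1 := fun q => by
    obtain ⟨y, hy, -⟩ := h4.1.2 _ (pcode_mem_dom q)
    obtain ⟨x', y', -, h8, h9⟩ := h4.1.1 _ (maps_iff.1 hy)
    rw [plain_ordPair'] at h9
    obtain ⟨-, rfl⟩ := op_inj h9
    exact ⟨⟨y, h8⟩, hy⟩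
  choose hf hhf using hex
  have hmap : ∀ d k, Maps h d k → ∃ q : Q, code q = d ∧ (hf q).1 = k := fun d k hd => by
    obtain ⟨x', y', h8, -, h9⟩ := h4.1.1 _ (maps_iff.1 hd)
    rw [plain_ordPair'] at h9
    obtain ⟨rfl, rfl⟩ := op_inj h9
    obtain ⟨q, rfl⟩ := pmem_dom.1 h8
    exact ⟨q, rfl, (h4.1.2 _ h8).unique (hhf q) hd⟩
  have hfi : IntF N hf := IntF.of_rel (r := fun q (k : El K) => Mem (op (code q) k.1) h)
    ⟨h, fun _ => Iff.rfl⟩ fun q k => by
      rw [← maps_iff]
      exact ⟨fun h8 => Subtype.ext ((h4.1.2 _ (pcode_mem_dom q)).unique (hhf q) h8),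
        fun h8 => h8 ▸ hhf q⟩
  have hmem := int_memEl (a := K) (b := τ)
  let Lim : Q → El K → Prop := fun t k => ∀ U : El τ, Mem k.1 U.1 →
    ∃ s, s < t ∧ ∀ r, s < r → r < t → Mem (hf r).1 U.1
  have hmem' : Int N (fun q : Q × El τ => Mem (hf q.1).1 q.2.1) :=
    Int.comp₂ (p := fun (a : El K) (b : El τ) => Mem a.1 b.1) hmem (hfi.comp IntF.fst') IntF.snd'
  have hA : Int N (fun q : Q × El τ => ∃ s, s < q.1 ∧ ∀ r, s < r → r < q.1 →
      Mem (hf r).1 q.2.1) := by
    refine Int.ex (Int.and (by (repeat' (first | with_reducible exact IntF.id | with_reducible exact IntF.fst' | with_reducible exact IntF.snd' | with_reducible exact IntF.const _ | with_reducible exact Int.const _ | assumption | with_reducible apply Int.and | with_reducible apply Int.or | with_reducible apply Int.not | with_reducible apply Int.imp | with_reducible apply Int.iff | with_reducible apply Int.ne | with_reducible apply Int.eq | with_reducible apply Int.mem | with_reducible apply Int.subset | with_reducible apply Int.ltN | with_reducible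 apply Int.leN | with_reducible_and_instances apply Int.le | with_reducible_and_instances apply Int.lt | with_reducible apply Int.all | with_reducible apply Int.ex | with_reducible apply IntF.fst | with_reducible apply IntF.snd | with_reducible apply IntF.app | with_reducible apply IntF.inl | with_reducible apply IntF.inr | with_reducible_and_instances apply IntF.mul | with_reducible_and_instances apply IntF.inv | with_reducible_and_instances apply IntF.add | with_reducible_and_instances apply IntF.sub | with_reducible_and_instances apply IntF.neg | with_reducible_and_instances apply IntF.div | with_reducible_and_instances apply IntF.smul | with_reducible apply IntF.succ | with_reducible apply IntF.val | with_reducible apply IntF.mk | (with_reducible refine Int.comp ?_ ?_; assumption) | (with_reducible refine Int.comp₂ ?_ ?_ ?_; assumption) | (with_reducible refine Int.comp₃ ?_ ?_ ?_ ?_; assumption) | (with_reducible refine Int.comp₄ ?_ ?_ ?_ ?_ ?_; assumption) | (with_reducible refine IntF.comp ?_ ?_; assumption)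 | (with_reducible refine IntF.comp₂ ?_ ?_ ?_; assumption) | (with_reducible refine IntF.comp₃ ?_ ?_ ?_ ?_; assumption) | with_reducible apply IntF.pair))) (Int.all (Int.imp (by (repeat' (first | with_reducible exact IntF.id | with_reducible exact IntF.fst' | with_reducible exact IntF.snd' | with_reducible exact IntF.const _ | with_reducible exact Int.const _ | assumption | with_reducible apply Int.and | with_reducible apply Int.or | with_reducible apply Int.not | with_reducible apply Int.imp | with_reducible apply Int.iff | with_reducible apply Int.ne | with_reducible apply Int.eq | with_reducible apply Int.mem | with_reducible apply Int.subset | with_reducible apply Int.ltN | with_reducible apply Int.leN | with_reducible_and_instances apply Int.le | with_reducible_and_instances apply Int.lt | with_reducible apply Int.all | with_reducible apply Int.ex | with_reducible apply IntF.fst | with_reducible apply IntF.snd | with_reducible apply IntF.app | with_reducible apply IntF.inl | with_reducible apply IntF.inr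 | with_reducible_and_instances apply IntF.mul | with_reducible_and_instances apply IntF.inv | with_reducible_and_instances apply IntF.add | with_reducible_and_instances apply IntF.sub | with_reducible_and_instances apply IntF.neg | with_reducible_and_instances apply IntF.div | with_reducible_and_instances apply IntF.smul | with_reducible apply IntF.succ | with_reducible apply IntF.val | with_reducible apply IntF.mk | (with_reducible refine Int.comp ?_ ?_; assumption) | (with_reducible refine Int.comp₂ ?_ ?_ ?_; assumption) | (with_reducible refine Int.comp₃ ?_ ?_ ?_ ?_; assumption) | (with_reducible refine Int.comp₄ ?_ ?_ ?_ ?_ ?_; assumption) | (with_reducible refine IntF.comp ?_ ?_; assumption) | (with_reducible refine IntF.comp₂ ?_ ?_ ?_; assumption) | (with_reducible refine IntF.comp₃ ?_ ?_ ?_ ?_; assumption) | with_reducible apply IntF.pair))) (Int.imp (by (repeat' (first | with_reducible exact IntF.id | with_reducible exact IntF.fst' | with_reducible exact IntF.snd' | with_reducible exact IntF.const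 _ | with_reducible exact Int.const _ | assumption | with_reducible apply Int.and | with_reducible apply Int.or | with_reducible apply Int.not | with_reducible apply Int.imp | with_reducible apply Int.iff | with_reducible apply Int.ne | with_reducible apply Int.eq | with_reducible apply Int.mem | with_reducible apply Int.subset | with_reducible apply Int.ltN | with_reducible apply Int.leN | with_reducible_and_instances apply Int.le | with_reducible_and_instances apply Int.lt | with_reducible apply Int.all | with_reducible apply Int.ex | with_reducible apply IntF.fst | with_reducible apply IntF.snd | with_reducible apply IntF.app | with_reducible apply IntF.inl | with_reducible apply IntF.inr | with_reducible_and_instances apply IntF.mul | with_reducible_and_instances apply IntF.inv | with_reducible_and_instances apply IntF.add | with_reducible_and_instances apply IntF.sub | with_reducible_and_instances apply IntF.neg | with_reducible_and_instances apply IntF.div | with_reducible_and_instances apply IntF.smul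 | with_reducible apply IntF.succ | with_reducible apply IntF.val | with_reducible apply IntF.mk | (with_reducible refine Int.comp ?_ ?_; assumption) | (with_reducible refine Int.comp₂ ?_ ?_ ?_; assumption) | (with_reducible refine Int.comp₃ ?_ ?_ ?_ ?_; assumption) | (with_reducible refine Int.comp₄ ?_ ?_ ?_ ?_ ?_; assumption) | (with_reducible refine IntF.comp ?_ ?_; assumption) | (with_reducible refine IntF.comp₂ ?_ ?_ ?_; assumption) | (with_reducible refine IntF.comp₃ ?_ ?_ ?_ ?_; assumption) | with_reducible apply IntF.pair))) ?_))))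
    exact Int.comp₂ (p := fun (a : Q) (b : El τ) => Mem (hf a).1 b.1) hmem' IntF.snd'
      (IntF.snd (IntF.fst IntF.fst'))
  have hLim : Int N (fun q : Q × El K => Lim q.1 q.2) := by
    refine Int.all (Int.imp ?_ ?_)
    · exact Int.comp₂ (p := fun (a : El K) (b : El τ) => Mem a.1 b.1) hmem (IntF.snd IntF.fst')
        IntF.snd'
    · exact Int.comp₂ (p := fun (t : Q) (U : El τ) => ∃ s, s < t ∧ ∀ r, s < r → r < t →
        Mem (hf r).1 U.1) hA (IntF.fst IntF.fst') IntF.snd'
  have hL1 : ∀ t, ∃ k, Lim t k := fun t => by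
    by_contra hcon
    have hI := (Int.slice (p := fun (t : Q) (U : El τ) => ∃ s, s < t ∧ ∀ r, s < r → r < t →
        Mem (hf r).1 U.1) hA t).not
    obtain ⟨F', h8, h9, h10⟩ := h3 (gr hI) (fun U hU => by
      obtain ⟨U, -, rfl⟩ := (pmem_gr hI).1 hU
      exact U.2) fun k hk => by
        by_contra h8
        refine hcon ⟨⟨k, hk⟩, fun U hU => ?_⟩
        by_contra h9
        exact h8 ⟨U.1, (pmem_gr hI).2 ⟨U, h9, rfl⟩, hU⟩
    rw [isFinite_iff] at h9
    have h11 : ∀ U, Mem U F' → ∃ a, a < t ∧ ∀ r, a < r → r < t → ¬ Mem (hf r).1 U := by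
      intro U hU
      obtain ⟨U, h11, rfl⟩ := (pmem_gr hI).1 (h8 U hU)
      obtain ⟨a, h12, h13 | h13⟩ := (hT1 (fun r => Mem (hf r).1 U.1)
        (Int.comp₂ (p := fun (a : Q) (b : El τ) => Mem (hf a).1 b.1) hmem' IntF.id
          (IntF.const U))).left t
      · exact absurd ⟨a, h12, h13⟩ h11
      · exact ⟨a, h12, h13⟩
    choose! a ha ha' using h11
    obtain ⟨b, hb, hb'⟩ := exists_left (h9.image a) t
    obtain ⟨r, h12, h13⟩ := exists_between hb
    obtain ⟨U, h14, h15⟩ := h10 _ (hf r).2
    exact ha' U h14 r (lt_of_le_of_lt (hb' _ ⟨U, h14, rfl⟩ (ha U h14)) h12) h13 h15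
  have hL2 : ∀ t k k', Lim t k → Lim t k' → k = k' := fun t k k' hk hk' => by
    by_contra hne
    obtain ⟨U, V, h8, h9, h10, h11, h12⟩ := h2 k.1 k'.1 k.2 k'.2 fun h => hne (Subtype.ext h)
    obtain ⟨s, h13, h14⟩ := hk ⟨U, h8⟩ h10
    obtain ⟨s', h15, h16⟩ := hk' ⟨V, h9⟩ h11
    obtain ⟨r, h17, h18⟩ := exists_between (max_lt h13 h15)
    exact h12 _ ⟨h14 r (lt_of_le_of_lt (le_max_left _ _) h17) h18,
      h16 r (lt_of_le_of_lt (le_max_right _ _) h17) h18⟩
  have hL3 : ∀ t k, Lim t k → Plain.Mem k.1 R := fun t k hk => by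
    refine (hR _).2 ⟨k.2, fun ⟨d, hd⟩ => ?_⟩
    obtain ⟨q, rfl, h8⟩ := hmap _ _ hd
    obtain ⟨U, h9, h10⟩ := h5 (code ({q} : IPow N Q)) (sub_code _)
    obtain ⟨s, h11, h12⟩ := hk ⟨U, h9⟩ ((h10 _ _ hd).2 (pmem_code'.2 (mem_singleton.2 rfl)))
    obtain ⟨r, h13, h14⟩ := exists_between h11
    obtain ⟨r', h15, h16⟩ := exists_between h14
    have h17 : r = q := mem_singleton.1 (pmem_code'.1 ((h10 _ _ (hhf r)).1 (h12 r h13 h14)))
    have h18 : r' = q := mem_singleton.1 (pmem_code'.1 ((h10 _ _ (hhf r')).1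
      (h12 r' (h13.trans h15) h16)))
    exact absurd (h17.trans h18.symm) h15.ne
  choose lim hlim using hL1
  have hinf := cube_infinite h7
  obtain ⟨w, o, i, t, hw, ho, hi, ht, hC, -⟩ := h7
  rw [omega_iff] at hw
  subst hw
  have hval : ∀ k, Plain.Mem k R → ∃ c : El C, Maps φ k c.1 := fun k hk => by
    obtain ⟨y, hy, -⟩ := hφ.1.1.2 k hk
    obtain ⟨x', y', -, h8, h9⟩ := hφ.1.1.1 _ (maps_iff.1 hy)
    rw [plain_ordPair'] at h9
    obtain ⟨-, rfl⟩ := op_inj h9
    exact ⟨⟨y, h8⟩, hy⟩
  obtain ⟨E, hE, hE'⟩ := hT (fun n q => ∃ (k : El K) (c : El C), Lim q k ∧ Mem (op k.1 c.1) φ ∧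
      Mem (op n.val i) c.1) (by
    have i1 : Int N (fun q : El K × El C => Mem (op q.1.1 q.2.1) φ) := ⟨φ, fun _ => Iff.rfl⟩
    have i2 : Int N (fun q : INat N × El C => Mem (op q.1.val i) q.2.1) :=
      Int.of_D₂ (S := fun v => Mem (op (v 0) i) (v 1)) (by (repeat' (first | with_reducible exact DF.var _ | with_reducible exact DF.const _ | assumption | with_reducible apply D.and | with_reducible apply D.or | with_reducible apply D.not | with_reducible apply D.imp | with_reducible apply D.iff | with_reducible apply D.eqf | with_reducible apply D.memf | with_reducible apply D.all | with_reducible apply D.ex | with_reducible apply DF.op | with_reducible apply DF.up | with_reducible apply DF.fst | with_reducible apply DF.snd))) fun _ _ => Iff.rfl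
    refine Int.ex (Int.ex (Int.and ?_ (Int.and ?_ ?_)))
    · exact Int.comp₂ (p := Lim) hLim (IntF.snd (IntF.fst IntF.fst')) (IntF.snd IntF.fst')
    · exact Int.comp₂ (p := fun (a : El K) (c : El C) => Mem (op a.1 c.1) φ) i1
        (IntF.snd IntF.fst') IntF.snd'
    · exact Int.comp₂ (p := fun (a : INat N) (c : El C) => Mem (op a.val i) c.1) i2
        (IntF.fst (IntF.fst IntF.fst')) IntF.snd')
  have hsame : ∀ q q', Same E q q' → lim q = lim q' := fun q q' hq => by
    have key : ∀ q q', Same E q q' → ∀ c c' : El C, Maps φ (lim q).1 c.1 →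
        Maps φ (lim q').1 c'.1 → ∀ n : INat N, Maps c.1 n.val i → Maps c'.1 n.val i := by
      intro q q' hq c c' hc hc' n hn
      obtain ⟨k, c'', h8, h9, h10⟩ := hE' n q q' hq ⟨lim q, c, hlim q, maps_iff.1 hc, maps_iff.1 hn⟩
      obtain rfl := hL2 _ _ _ h8 (hlim q')
      rw [(hφ.1.1.2 _ (hL3 _ _ h8)).unique hc' (maps_iff.2 h9)]
      exact maps_iff.2 h10
    obtain ⟨c, hc⟩ := hval _ (hL3 _ _ (hlim q))
    obtain ⟨c', hc'⟩ := hval _ (hL3 _ _ (hlim q'))
    have h8 : c.1 = c'.1 := fun_ext ht ((hC _).1 c.2) ((hC _).1 c'.2) fun n hn => by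
      obtain ⟨n, rfl⟩ := pmem_dom.1 hn
      exact ⟨key q q' hq c c' hc hc' n, key q' q hq.symm c' c hc' hc n⟩
    exact Subtype.ext (hφ.1.2 _ _ _ hc (h8 ▸ hc'))
  have hfin : (Set.range lim).Finite := by
    have : Finite E := hE
    let ty : Q → (E → Prop × Prop) := fun q e => (e.1 < q, q < e.1)
    refine ((Set.toFinite (Set.range ty)).image (fun y => lim (Function.invFun ty y))).subset ?_
    rintro _ ⟨q, rfl⟩
    refine ⟨ty q, ⟨q, rfl⟩, hsame _ _ fun e he => ?_⟩
    have h8 := congrFun (Function.invFun_eq (f := ty) ⟨q, rfl⟩) ⟨e, he⟩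
    exact ⟨iff_of_eq (congrArg Prod.fst h8), iff_of_eq (congrArg Prod.snd h8)⟩
  have hk : ∃ k, Plain.Mem k R ∧ ∀ q, (lim q).1 ≠ k := by
    by_contra h8
    push Not at h8
    have h9 : ∀ k : El K, ∃ c : N, ∀ c', Plain.Mem k.1 R → Maps φ k.1 c' → c' = c := fun k => by
      by_cases h9 : Plain.Mem k.1 R
      · obtain ⟨c, -, hc⟩ := hφ.1.1.2 _ h9
        exact ⟨c, fun c' _ h10 => hc c' h10⟩
      · exact ⟨k.1, fun c' h10 => absurd h10 h9⟩
    choose val hval' using h9
    refine hinf ((hfin.image val).subset fun c hc => ?_)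
    obtain ⟨k, h10⟩ := hφ.2 c hc
    obtain ⟨x', y', h11, -, h12⟩ := hφ.1.1.1 _ (maps_iff.1 h10)
    rw [plain_ordPair'] at h12
    obtain ⟨rfl, rfl⟩ := op_inj h12
    obtain ⟨q, rfl⟩ := h8 k h11
    exact ⟨lim q, ⟨q, rfl⟩, (hval' _ _ h11 h10).symm⟩
  obtain ⟨k, hkR, hk⟩ := hk
  obtain ⟨hkK, hkh⟩ := (hR k).1 hkR
  obtain ⟨U, h8, h9, h10⟩ := sep_finite h1 h2 (hfin.image Subtype.val) hkK (by
    rintro _ ⟨_, ⟨q, rfl⟩, rfl⟩
    exact ⟨(lim q).2, hk q⟩)
  have h11 : {r | Mem (hf r).1 U}.Infinite := by
    intro h11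
    obtain ⟨U', h12, h13, h14⟩ := sep_finite h1 h2 (h11.image fun r => (hf r).1) hkK (by
      rintro _ ⟨q, -, rfl⟩
      exact ⟨(hf q).2, fun h' => hkh ⟨code q, (show (hf q).1 = k from h') ▸ hhf q⟩⟩)
    obtain ⟨X, hX⟩ := exists_inter U U'
    obtain ⟨d, y, h15, h16⟩ := h6 X (h1.2.2.1 U U' X h8 h12 hX) ⟨k, (hX k).2 ⟨h9, h13⟩⟩
    obtain ⟨q, rfl, rfl⟩ := hmap _ _ h15
    obtain ⟨V, -, h17, h18⟩ := h14 _ ⟨q, ((hX _).1 h16).1, rfl⟩
    exact h18 _ ⟨((hX _).1 h16).2, h17⟩
  obtain ⟨a, b, h12, h13⟩ := (hT1 (fun r => Mem (hf r).1 U)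
    (Int.comp₂ (p := fun (a : Q) (b : El τ) => Mem (hf a).1 b.1) hmem' IntF.id
      (IntF.const ⟨U, h8⟩))).interval h11
  obtain ⟨V, h14, h15, h16⟩ := h10 _ ⟨_, ⟨b, rfl⟩, rfl⟩
  obtain ⟨s, h17, h18⟩ := hlim b ⟨V, h14⟩ h15
  obtain ⟨r, h19, h20⟩ := exists_between (max_lt h12 h17)
  exact h16 _ ⟨h13 r (lt_of_le_of_lt (le_max_left _ _) h19) h20,
    h18 r (lt_of_le_of_lt (le_max_right _ _) h19) h20⟩

end plain

end Pool.Agent.Helper672.ZFA.H875
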