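import Pool.Agent.H875Z.Ins.Ground
import Pool.Agent.H875Z.Ins.Defs

/-!
# Finite sets and models with standard natural numbers
-/

namespace Pool.Agent.Helper672.ZFA.H875

open FirstOrder FirstOrder.Language
open Pool.Agent.Helper672.Plain (LSet)
open Pool.Agent.Helper672.ZFA.H635
open Pool.Agent.H875Z.Ins

set_option linter.unusedSectionVars false

universe u u₁ u₂ u₃

section

variable {M : Type u} [L.Structure M] [hM : IsModel M]
variable {α : Type u₁} {β : Type u₂} {γ : Type u₃} [ITy M α] [ITy M β] [ITy M γ]

theorem int_of_finite {s : Set α} (hs : s.Finite) : Int M (fun a => a ∈ s) := by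
  induction s, hs using Set.Finite.induction_on with
  | empty => exact (Int.const False).congr fun a => by simp
  | @insert a s _ _ ih =>
    exact (Int.or (Int.eq IntF.id (IntF.const a)) ih).congr fun x => by simp

theorem int_of_finite' {p : α → Prop} (hs : {a | p a}.Finite) : Int M p := int_of_finite hs

theorem int_fin [Finite α] (p : α → Prop) : Int M p := int_of_finite' (Set.toFinite _)

theorem intF_fin [Finite α] (f : α → β) : IntF M f := by
  refine int_of_finite' ((Set.finite_range (fun a => (a, f a))).subset ?_)
  rintro ⟨a, b⟩ h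
  exact ⟨a, Prod.ext rfl h⟩

/-- The standard natural numbers. -/
noncomputable def ofN (M : Type u) [L.Structure M] [IsModel M] : ℕ → INat M
  | 0 => 0
  | n + 1 => (ofN M n).succ

theorem ofN_strictMono : StrictMono (ofN M) :=
  strictMono_nat_of_lt_succ fun n => INat.lt_succ_self (ofN M n)

theorem ofN_inj : Function.Injective (ofN M) := ofN_strictMono.injective

noncomputable instance : ITy M Bool :=
  ITy.ofInj (fun b : Bool => ofN M b.toNat) (fun a b h => by
    have := ofN_inj h
    cases a <;> cases b <;> simp_all) (int_of_finite' (Set.finite_range _))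

theorem IntF.bnot {f : γ → Bool} (hf : IntF M f) : IntF M (fun c => !(f c)) :=
  IntF.comp (intF_fin not) hf

theorem IntF.bxor {f g : γ → Bool} (hf : IntF M f) (hg : IntF M g) :
    IntF M (fun c => xor (f c) (g c)) :=
  IntF.comp₂ (p := xor) (intF_fin _) hf hg

theorem iio_ofN (n : ℕ) : {m : INat M | m < ofN M n} = ofN M '' {k | k < n} := by
  induction n with
  | zero =>
    ext m
    simp only [Set.mem_ofPred_eq, ofN, Nat.not_lt_zero, Set.ofPred_false, Set.image_empty,
      Set.mem_empty_iff_false, iff_false]
    exact INat.not_lt_zero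
  | succ n ih =>
    ext m
    have h : m ∈ {m : INat M | m < ofN M n} ↔ m ∈ ofN M '' {k | k < n} := by rw [ih]
    simp only [Set.mem_ofPred_eq, Set.mem_image] at h ⊢
    rw [ofN, INat.lt_succ_iff', h]
    constructor
    · rintro (⟨k, h1, rfl⟩ | rfl)
      · exact ⟨k, by omega, rfl⟩
      · exact ⟨n, by omega, rfl⟩
    · rintro ⟨k, h1, rfl⟩
      rcases Nat.lt_succ_iff_lt_or_eq.1 h1 with h2 | rfl
      · exact Or.inl ⟨k, h2, rfl⟩
      · exact Or.inr rfl

variable (M) in
/-- The natural numbers of the model are standard. -/
class Std : Prop where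
  surj : Function.Surjective (ofN M)

variable [Std M]

theorem finite_iio (n : INat M) : {m : INat M | m < n}.Finite := by
  obtain ⟨k, rfl⟩ := Std.surj n
  rw [iio_ofN]
  exact (Set.finite_lt_nat k).image _

theorem ncard_iio (k : ℕ) : {m : INat M | m < ofN M k}.ncard = k := by
  rw [iio_ofN, Set.ncard_image_of_injective _ ofN_inj]
  have : {j | j < k} = (Finset.range k : Set ℕ) := by
    ext j
    simp
  rw [this, Set.ncard_coe_finset, Finset.card_range]

theorem exists_bound {s : Set (INat M)} (hs : s.Finite) : ∃ n, ∀ m ∈ s, m < n := by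
  have : Nonempty (INat M) := ⟨0⟩
  obtain ⟨b, hb⟩ := hs.bddAbove
  exact ⟨b.succ, fun m hm => lt_of_le_of_lt (hb hm) (INat.lt_succ_self b)⟩

variable (M) in
/-- A bijection with a natural number. -/
def Bj (p : α → Prop) (n : INat M) : Prop :=
  ∃ f : IPow M (α × INat M), (∀ a, p a → ∃ m, m < n ∧ (a, m) ∈ f) ∧
    (∀ m, m < n → ∃ a, p a ∧ (a, m) ∈ f) ∧ (∀ a m m', (a, m) ∈ f → (a, m') ∈ f → m = m') ∧
    ∀ a a' m, (a, m) ∈ f → (a', m) ∈ f → a = a'

theorem bj_iff {p : α → Prop} {n : INat M} :
    Bj M p n ↔ {a | p a}.Finite ∧ ofN M {a | p a}.ncard = n := by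
  classical
  obtain ⟨k, rfl⟩ := Std.surj n
  constructor
  · rintro ⟨f, h1, h2, h3, h4⟩
    choose! g hg1 hg2 using h1
    have hb : Set.BijOn g {a | p a} {m | m < ofN M k} := by
      refine ⟨fun a ha => hg1 a ha, fun a ha a' ha' h => h4 a a' (g a) (hg2 a ha) ?_, fun m hm => ?_⟩
      · rw [h]
        exact hg2 a' ha'
      · obtain ⟨a, ha, h5⟩ := h2 m hm
        exact ⟨a, ha, h3 a _ _ (hg2 a ha) h5⟩
    have hfin : {a | p a}.Finite := Set.Finite.of_finite_image
      (by rw [hb.image_eq]; exact finite_iio _) hb.injOn
    refine ⟨hfin, ?_⟩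
    rw [← hb.injOn.ncard_image, hb.image_eq, ncard_iio]
  · rintro ⟨h1, h2⟩
    have h3 := ofN_inj h2
    have : Finite {a | p a} := h1
    have h4 : Nat.card {a | p a} = k := h3
    let e : {a | p a} ≃ Fin k := Finite.equivFinOfCardEq h4
    have hI : Int M (fun q : α × INat M => ∃ a : {a | p a}, q = (a.1, ofN M (e a))) :=
      int_of_finite' ((Set.finite_range (fun a : {a | p a} => (a.1, ofN M (e a)))).subset
        fun q ⟨a, h⟩ => ⟨a, h.symm⟩)
    refine ⟨⟨_, hI⟩, fun a ha => ⟨ofN M (e ⟨a, ha⟩), ofN_strictMono (e ⟨a, ha⟩).2,
      ⟨a, ha⟩, rfl⟩, fun m hm => ?_, ?_, ?_⟩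
    · obtain ⟨j, rfl⟩ := Std.surj m
      have hj : j < k := ofN_strictMono.lt_iff_lt.1 hm
      refine ⟨(e.symm ⟨j, hj⟩).1, (e.symm ⟨j, hj⟩).2, e.symm ⟨j, hj⟩, ?_⟩
      simp
    · rintro a m m' ⟨b, hb⟩ ⟨b', hb'⟩
      obtain ⟨h5, rfl⟩ := Prod.mk.inj hb
      obtain ⟨h6, rfl⟩ := Prod.mk.inj hb'
      rw [Subtype.ext (h5.symm.trans h6)]
    · rintro a a' m ⟨b, hb⟩ ⟨b', hb'⟩
      obtain ⟨rfl, h5⟩ := Prod.mk.inj hb
      obtain ⟨rfl, h6⟩ := Prod.mk.inj hb'
      have h7 : e b = e b' := Fin.ext (ofN_inj (h5.symm.trans h6))
      rw [e.injective h7]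

omit [Std M] in
theorem int_bj {p : γ → α → Prop} (h : Int M (fun q : γ × α => p q.1 q.2)) :
    Int M (fun q : γ × INat M => Bj M (p q.1) q.2) := by
  unfold Bj
  (repeat' (first | with_reducible exact IntF.id | with_reducible exact IntF.fst' | with_reducible exact IntF.snd' | with_reducible exact IntF.const _ | with_reducible exact Int.const _ | assumption | with_reducible apply Int.and | with_reducible apply Int.or | with_reducible apply Int.not | with_reducible apply Int.imp | with_reducible apply Int.iff | with_reducible apply Int.ne | with_reducible apply Int.eq | with_reducible apply Int.mem | with_reducible apply Int.subset | with_reducible apply Int.ltN | with_reducible apply Int.leN | with_reducible_and_instances apply Int.le | with_reducible_and_instances apply Int.lt | with_reducible apply Int.all | with_reducible apply Int.ex | with_reducible apply IntF.fst | with_reducible apply IntF.snd | with_reducible apply IntF.app | with_reducible apply IntF.inl | with_reducible apply IntF.inr | with_reducible_and_instances apply IntF.mul | with_reducible_and_instances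 apply IntF.inv | with_reducible_and_instances apply IntF.add | with_reducible_and_instances apply IntF.sub | with_reducible_and_instances apply IntF.neg | with_reducible_and_instances apply IntF.div | with_reducible_and_instances apply IntF.smul | with_reducible apply IntF.succ | with_reducible apply IntF.val | with_reducible apply IntF.mk | (with_reducible refine Int.comp ?_ ?_; assumption) | (with_reducible refine Int.comp₂ ?_ ?_ ?_; assumption) | (with_reducible refine Int.comp₃ ?_ ?_ ?_ ?_; assumption) | (with_reducible refine Int.comp₄ ?_ ?_ ?_ ?_ ?_; assumption) | (with_reducible refine IntF.comp ?_ ?_; assumption) | (with_reducible refine IntF.comp₂ ?_ ?_ ?_; assumption) | (with_reducible refine IntF.comp₃ ?_ ?_ ?_ ?_; assumption) | with_reducible apply IntF.pair))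

theorem Int.finite {p : γ → α → Prop} (h : Int M (fun q : γ × α => p q.1 q.2)) :
    Int M (fun c => {a | p c a}.Finite) := by
  refine (Int.ex (p := fun c n => Bj M (p c) n) (int_bj h)).congr fun c => ⟨fun ⟨n, hn⟩ => (bj_iff.1 hn).1, fun h1 => ?_⟩
  exact ⟨_, bj_iff.2 ⟨h1, rfl⟩⟩

theorem IntF.ncard {p : γ → α → Prop} (h : Int M (fun q : γ × α => p q.1 q.2)) :
    IntF M (fun c => ofN M {a | p c a}.ncard) := by
  have h1 := int_bj h
  have h2 := Int.finite h
  refine IntF.of_rel (r := fun c n => Bj M (p c) n ∨ (¬ {a | p c a}.Finite ∧ n = 0)) ?_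
    fun c n => ?_
  · exact Int.or h1 (Int.and (Int.not (Int.comp (p := fun c => {a | p c a}.Finite) h2 IntF.fst')) (Int.eq IntF.snd' (IntF.const _)))
  · rw [bj_iff]
    by_cases hf : {a | p c a}.Finite
    · simp [hf]
    · have h3 : {a | p c a}.ncard = 0 := Set.Infinite.ncard hf
      simp only [hf, false_and, not_false_eq_true, true_and, false_or, h3, ofN]
      exact eq_comm

end

section pair

variable {M : Type u} [L.Structure M] [hM : IsModel M]
variable {α : Type u₁} {β : Type u₂} {γ : Type u₃} [ITy M α] [ITy M β] [ITy M γ]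

/-- A pairing function. -/
noncomputable def pr (a b : INat M) : INat M := (a + b) * (a + b) + a

theorem IntF.pr {f g : γ → INat M} (hf : IntF M f) (hg : IntF M g) :
    IntF M (fun c => pr (f c) (g c)) := by
  unfold H875.pr
  (repeat' (first | with_reducible exact IntF.id | with_reducible exact IntF.fst' | with_reducible exact IntF.snd' | with_reducible exact IntF.const _ | with_reducible exact Int.const _ | assumption | with_reducible apply Int.and | with_reducible apply Int.or | with_reducible apply Int.not | with_reducible apply Int.imp | with_reducible apply Int.iff | with_reducible apply Int.ne | with_reducible apply Int.eq | with_reducible apply Int.mem | with_reducible apply Int.subset | with_reducible apply Int.ltN | with_reducible apply Int.leN | with_reducible_and_instances apply Int.le | with_reducible_and_instances apply Int.lt | with_reducible apply Int.all | with_reducible apply Int.ex | with_reducible apply IntF.fst | with_reducible apply IntF.snd | with_reducible apply IntF.app | with_reducible apply IntF.inl | with_reducible apply IntF.inr |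 with_reducible_and_instances apply IntF.mul | with_reducible_and_instances apply IntF.inv | with_reducible_and_instances apply IntF.add | with_reducible_and_instances apply IntF.sub | with_reducible_and_instances apply IntF.neg | with_reducible_and_instances apply IntF.div | with_reducible_and_instances apply IntF.smul | with_reducible apply IntF.succ | with_reducible apply IntF.val | with_reducible apply IntF.mk | (with_reducible refine Int.comp ?_ ?_; assumption) | (with_reducible refine Int.comp₂ ?_ ?_ ?_; assumption) | (with_reducible refine Int.comp₃ ?_ ?_ ?_ ?_; assumption) | (with_reducible refine Int.comp₄ ?_ ?_ ?_ ?_ ?_; assumption) | (with_reducible refine IntF.comp ?_ ?_; assumption) | (with_reducible refine IntF.comp₂ ?_ ?_ ?_; assumption) | (with_reducible refine IntF.comp₃ ?_ ?_ ?_ ?_; assumption) | with_reducible apply IntF.pair))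

theorem pr_aux {a b a' b' d : INat M} (h : a' + b' = a + b + d.succ) : pr a b ≠ pr a' b' := by
  intro h1
  unfold pr at h1
  rw [h, INat.succ_eq] at h1
  have h2 : (a + b) * (a + b) + a + 0 = (a + b) * (a + b) + a +
      ((a + b * 2 + a * d * 2 + b * d * 2 + d * 2 + d * d + a') + 1) := by
    rw [add_zero]
    conv_lhs => rw [h1]
    ring
  have h3 := INat.add_left_cancel' h2
  rw [← INat.succ_eq] at h3
  exact INat.succ_ne_zero _ h3.symm

theorem pr_inj {a b a' b' : INat M} (h : pr a b = pr a' b') : a = a' ∧ b = b' := by
  have key : a + b = a' + b' := by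
    rcases INat.total (a + b) (a' + b') with ⟨c, hc⟩ | ⟨c, hc⟩
    · rcases INat.eq_zero_or_succ c with rfl | ⟨d, rfl⟩
      · rw [hc, add_zero]
      · exact absurd h (pr_aux hc)
    · rcases INat.eq_zero_or_succ c with rfl | ⟨d, rfl⟩
      · rw [hc, add_zero]
      · exact absurd h.symm (pr_aux hc)
  unfold pr at h
  rw [key] at h
  have h1 := INat.add_left_cancel' h
  subst h1
  exact ⟨rfl, INat.add_left_cancel' key⟩

/-- An internal injection has an internal left inverse. -/
theorem exists_surj_of_inj {e : α → β} (he : IntF M e) (hi : Function.Injective e) (a₀ : α) :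
    ∃ g : β → α, IntF M g ∧ ∀ a, g (e a) = a := by
  refine ⟨fun b => the (fun a => e a = b) a₀, IntF.the (by (repeat' (first | with_reducible exact IntF.id | with_reducible exact IntF.fst' | with_reducible exact IntF.snd' | with_reducible exact IntF.const _ | with_reducible exact Int.const _ | assumption | with_reducible apply Int.and | with_reducible apply Int.or | with_reducible apply Int.not | with_reducible apply Int.imp | with_reducible apply Int.iff | with_reducible apply Int.ne | with_reducible apply Int.eq | with_reducible apply Int.mem | with_reducible apply Int.subset | with_reducible apply Int.ltN | with_reducible apply Int.leN | with_reducible_and_instances apply Int.le | with_reducible_and_instances apply Int.lt | with_reducible apply Int.all | with_reducible apply Int.ex | with_reducible apply IntF.fst | with_reducible apply IntF.snd | with_reducible apply IntF.app | with_reducible apply IntF.inl | with_reducible apply IntF.inr | with_reducible_and_instances apply IntF.mul | with_reducible_and_instances apply IntF.inv | with_reducible_and_instances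 apply IntF.add | with_reducible_and_instances apply IntF.sub | with_reducible_and_instances apply IntF.neg | with_reducible_and_instances apply IntF.div | with_reducible_and_instances apply IntF.smul | with_reducible apply IntF.succ | with_reducible apply IntF.val | with_reducible apply IntF.mk | (with_reducible refine Int.comp ?_ ?_; assumption) | (with_reducible refine Int.comp₂ ?_ ?_ ?_; assumption) | (with_reducible refine Int.comp₃ ?_ ?_ ?_ ?_; assumption) | (with_reducible refine Int.comp₄ ?_ ?_ ?_ ?_ ?_; assumption) | (with_reducible refine IntF.comp ?_ ?_; assumption) | (with_reducible refine IntF.comp₂ ?_ ?_ ?_; assumption) | (with_reducible refine IntF.comp₃ ?_ ?_ ?_ ?_; assumption) | with_reducible apply IntF.pair))) (IntF.const _), fun a => ?_⟩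
  exact the_eq ⟨a, rfl, fun a' h => hi h⟩ rfl

theorem exists_surj_rat : ∃ g : INat M → IQ M, IntF M g ∧ Function.Surjective g := by
  obtain ⟨g, hg, h⟩ := exists_surj_of_inj (M := M)
    (e := fun q : (INat M × INat M) × INat M => pr (pr q.1.1 q.1.2) q.2)
    (IntF.pr (IntF.pr (IntF.fst IntF.fst') (IntF.snd IntF.fst')) IntF.snd')
    (fun q q' h => by
      obtain ⟨h1, h2⟩ := pr_inj h
      obtain ⟨h3, h4⟩ := pr_inj h1
      exact Prod.ext (Prod.ext h3 h4) h2) ((0, 0), 0)
  refine ⟨fun n => IQ.pi (g n), IntF.comp IQ.int_pi hg, fun x => ?_⟩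
  obtain ⟨q, rfl⟩ := IQ.pi_surjective x
  exact ⟨_, congrArg IQ.pi (h q)⟩

end pair

section plain

variable {N : Type u} [LSet.Structure N]

attribute [local instance] toL

variable [hN : IsModel N]

theorem maps_iff {f x y : N} : Maps f x y ↔ Mem (op x y) f := by
  unfold Maps
  simp only [plain_ordPair']
  exact ⟨fun ⟨p, h1, h2⟩ => h1 ▸ h2, fun h => ⟨_, rfl, h⟩⟩

omit hN in
theorem ind_iff {i : N} : IsInductive i ↔ Ind i := by
  unfold IsInductive Ind
  simp only [isSet_toL, true_and, mem_toL]

theorem omega_iff {w : N} : IsOmega w ↔ w = dom N (INat N) := by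
  have h : IsOmega (dom N (INat N)) := fun n => by
    rw [← mem_toL, mem_dom]
    simp only [ind_iff]
    exact ⟨fun ⟨a, h⟩ => h ▸ a.prop, fun h => ⟨⟨n, h⟩, rfl⟩⟩
  refine ⟨fun hw => hN.ext _ _ trivial trivial fun z => ?_, fun hw => hw ▸ h⟩
  exact (hw z).trans (h z).symm

theorem mem_val_iff {n : INat N} {z : N} : Mem z n.val ↔ ∃ m : INat N, m < n ∧ m.val = z := by
  constructor
  · intro h
    have h1 : ∀ n : INat N, ∀ z, Mem z n.val → Mem z (dom N (INat N)) := by
      refine INat.ind ?_ (fun z hz => absurd hz INat.not_mem_zero) ?_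
      · exact Int.of_D (S := fun v => ∀ z, Mem z (v 0) → Mem z (dom N (INat N))) (by (repeat' (first | with_reducible exact DF.var _ | with_reducible exact DF.const _ | assumption | with_reducible apply D.and | with_reducible apply D.or | with_reducible apply D.not | with_reducible apply D.imp | with_reducible apply D.iff | with_reducible apply D.eqf | with_reducible apply D.memf | with_reducible apply D.all | with_reducible apply D.ex | with_reducible apply DF.op | with_reducible apply DF.up | with_reducible apply DF.fst | with_reducible apply DF.snd)))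
          fun _ => Iff.rfl
      · intro n ih z hz
        rcases INat.mem_succ.1 hz with h | rfl
        · exact ih z h
        · exact code_mem_dom n
    obtain ⟨m, rfl⟩ := mem_dom.1 (h1 n z h)
    exact ⟨m, h, rfl⟩
  · rintro ⟨m, h, rfl⟩
    exact h

variable [Std N]

theorem isFinite_iff {a : N} : IsFinite a ↔ {z | Mem z a}.Finite := by
  constructor
  · rintro ⟨w, n, f, hw, hn, ⟨⟨h1, h2⟩, h3⟩, -⟩
    rw [omega_iff] at hw
    subst hw
    obtain ⟨n, rfl⟩ := mem_dom.1 (mem_toL.2 hn)
    choose! g hg hg' using h2
    refine Set.Finite.of_finite_image (f := g) (((finite_iio n).image INat.val).subset ?_) ?_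
    · rintro _ ⟨x, hx, rfl⟩
      obtain ⟨p, h4, h5⟩ := hg x hx
      obtain ⟨x', y', -, h6, h7⟩ := h1 p h5
      rw [plain_ordPair'] at h4 h7
      obtain ⟨-, h8⟩ := op_inj (h4.symm.trans h7)
      rw [h8]
      obtain ⟨m, h9, h10⟩ := mem_val_iff.1 h6
      exact ⟨m, h9, h10⟩
    · intro x hx x' hx' h
      exact h3 x x' (g x) (hg x hx) (h ▸ hg x' hx')
  · intro h
    have h1 : {z : El a | True}.Finite := by
      have : Finite (El a) := h
      exact Set.toFinite _
    obtain ⟨f, h2, h3, h4, h5⟩ := (bj_iff (M := N) (p := fun _ : El a => True)).2 ⟨h1, rfl⟩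
    generalize ofN N {z : El a | True}.ncard = n at h2 h3
    have hI : Int N (fun q : El a × INat N => q ∈ f ∧ q.2 < n) := by (repeat' (first | with_reducible exact IntF.id | with_reducible exact IntF.fst' | with_reducible exact IntF.snd' | with_reducible exact IntF.const _ | with_reducible exact Int.const _ | assumption | with_reducible apply Int.and | with_reducible apply Int.or | with_reducible apply Int.not | with_reducible apply Int.imp | with_reducible apply Int.iff | with_reducible apply Int.ne | with_reducible apply Int.eq | with_reducible apply Int.mem | with_reducible apply Int.subset | with_reducible apply Int.ltN | with_reducible apply Int.leN | with_reducible_and_instances apply Int.le | with_reducible_and_instances apply Int.lt | with_reducible apply Int.all | with_reducible apply Int.ex | with_reducible apply IntF.fst | with_reducible apply IntF.snd | with_reducible apply IntF.app | with_reducible apply IntF.inl | with_reducible apply IntF.inr | with_reducible_and_instances apply IntF.mul | with_reducible_and_instances apply IntF.inv | with_reducible_and_instances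 apply IntF.add | with_reducible_and_instances apply IntF.sub | with_reducible_and_instances apply IntF.neg | with_reducible_and_instances apply IntF.div | with_reducible_and_instances apply IntF.smul | with_reducible apply IntF.succ | with_reducible apply IntF.val | with_reducible apply IntF.mk | (with_reducible refine Int.comp ?_ ?_; assumption) | (with_reducible refine Int.comp₂ ?_ ?_ ?_; assumption) | (with_reducible refine Int.comp₃ ?_ ?_ ?_ ?_; assumption) | (with_reducible refine Int.comp₄ ?_ ?_ ?_ ?_ ?_; assumption) | (with_reducible refine IntF.comp ?_ ?_; assumption) | (with_reducible refine IntF.comp₂ ?_ ?_ ?_; assumption) | (with_reducible refine IntF.comp₃ ?_ ?_ ?_ ?_; assumption) | with_reducible apply IntF.pair))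
    have key : ∀ x y, Maps (gr hI) x y ↔ ∃ (b : El a) (m : INat N), (b, m) ∈ f ∧ m < n ∧
        b.1 = x ∧ m.val = y := by
      intro x y
      rw [maps_iff, mem_gr]
      constructor
      · rintro ⟨⟨b, m⟩, ⟨h6, h7⟩, h8⟩
        obtain ⟨h9, h10⟩ := op_inj h8
        exact ⟨b, m, h6, h7, h9, h10⟩
      · rintro ⟨b, m, h6, h7, rfl, rfl⟩
        exact ⟨(b, m), ⟨h6, h7⟩, rfl⟩
    refine ⟨_, n.val, gr hI, omega_iff.2 rfl, mem_toL.1 (code_mem_dom n), ⟨⟨fun p hp => ?_, fun x hx => ?_⟩,
      fun x x' y h6 h7 => ?_⟩, fun y hy => ?_⟩
    · obtain ⟨⟨b, m⟩, ⟨h6, h7⟩, rfl⟩ := (mem_gr hI).1 hp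
      exact ⟨b.1, m.val, b.2, h7, plain_ordPair'.2 rfl⟩
    · obtain ⟨m, h6, h7⟩ := h2 ⟨x, hx⟩ trivial
      refine ⟨m.val, (key _ _).2 ⟨⟨x, hx⟩, m, h7, h6, rfl, rfl⟩, fun y hy => ?_⟩
      obtain ⟨b, m', h8, h9, rfl, rfl⟩ := (key _ _).1 hy
      rw [h4 b m' m h8 h7]
    · obtain ⟨b, m, h8, h9, rfl, rfl⟩ := (key _ _).1 h6
      obtain ⟨b', m', h10, h11, rfl, h12⟩ := (key _ _).1 h7
      obtain rfl := INat.ext h12
      rw [h5 b b' m' h8 h10]
    · obtain ⟨m, h6, rfl⟩ := mem_val_iff.1 hy
      obtain ⟨b, -, h7⟩ := h3 m h6
      exact ⟨b.1, (key _ _).2 ⟨b, m, h7, h6, rfl, rfl⟩⟩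

end plain

theorem std_of_wf {M : Type u} [L.Structure M] [hM : IsModel M]
    (h : WellFounded (fun x y : M => Mem x y)) : Std M := by
  refine ⟨fun n => ?_⟩
  have hwf : WellFounded (fun m n : INat M => m < n) := InvImage.wf INat.val h
  induction n using hwf.induction with
  | _ n ih =>
    rcases INat.eq_zero_or_succ n with rfl | ⟨m, rfl⟩
    · exact ⟨0, rfl⟩
    · obtain ⟨k, rfl⟩ := ih m (INat.lt_succ_self m)
      exact ⟨k + 1, rfl⟩

end Pool.Agent.Helper672.ZFA.H875
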