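import Pool.Agent.H875Z.Ins.Fams

/-!
# The symmetric system
-/

namespace Pool.Agent.Helper672.ZFA.H875

open FirstOrder FirstOrder.Language
open Pool.Agent.Helper672.Plain (LSet)
open Pool.Agent.Helper672.ZFA.H635
open Pool.Agent.H875Z.Ins

set_option linter.unusedSectionVars false
set_option synthInstance.maxSize 2000

universe u

variable (M : Type u) [L.Structure M] [hM : IsModel M]

/-- The literals. -/
abbrev Lit : Type u := IQ M × (INat M × Bool)

variable {M}

/-- The conditions. -/
def IsC (p : IPow M (Lit M)) : Prop :=
  (∀ q n b b', (q, (n, b)) ∈ p → (q, (n, b')) ∈ p → b = b') ∧ ∃ n, ∀ l : Lit M, l ∈ p → l.2.1 < n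

instance : Fact (Int M (IsC (M := M))) := ⟨by
  unfold IsC
  (repeat' (first | with_reducible exact IntF.id | with_reducible exact IntF.fst' | with_reducible exact IntF.snd' | with_reducible exact IntF.const _ | with_reducible exact Int.const _ | assumption | with_reducible apply Int.and | with_reducible apply Int.or | with_reducible apply Int.not | with_reducible apply Int.imp | with_reducible apply Int.iff | with_reducible apply Int.ne | with_reducible apply Int.eq | with_reducible apply Int.mem | with_reducible apply Int.subset | with_reducible apply Int.ltN | with_reducible apply Int.leN | with_reducible_and_instances apply Int.le | with_reducible_and_instances apply Int.lt | with_reducible apply Int.all | with_reducible apply Int.ex | with_reducible apply IntF.fst | with_reducible apply IntF.snd | with_reducible apply IntF.app | with_reducible apply IntF.inl | with_reducible apply IntF.inr | with_reducible_and_instances apply IntF.mul | with_reducible_and_instances apply IntF.inv | with_reducible_and_instances apply IntF.add | with_reducible_and_instances apply IntF.sub | with_reducible_and_instances apply IntF.neg | with_reducible_and_instances apply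 IntF.div | with_reducible_and_instances apply IntF.smul | with_reducible apply IntF.succ | with_reducible apply IntF.val | with_reducible apply IntF.mk | (with_reducible refine Int.comp ?_ ?_; assumption) | (with_reducible refine Int.comp₂ ?_ ?_ ?_; assumption) | (with_reducible refine Int.comp₃ ?_ ?_ ?_ ?_; assumption) | (with_reducible refine Int.comp₄ ?_ ?_ ?_ ?_ ?_; assumption) | (with_reducible refine IntF.comp ?_ ?_; assumption) | (with_reducible refine IntF.comp₂ ?_ ?_ ?_; assumption) | (with_reducible refine IntF.comp₃ ?_ ?_ ?_ ?_; assumption) | with_reducible apply IntF.pair))⟩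

variable (M) in
/-- The notion of forcing. -/
abbrev Pc : Type u := {p : IPow M (Lit M) // IsC p}

instance : Preorder (Pc M) where
  le p q := ∀ c, c ∈ q.1 → c ∈ p.1
  le_refl _ _ h := h
  le_trans _ _ _ h h' c hc := h c (h' c hc)

theorem pc_le {p q : Pc M} : p ≤ q ↔ ∀ c, c ∈ q.1 → c ∈ p.1 := Iff.rfl

instance : ILE M (Pc M) where
  out := by
    change Int M (fun q : Pc M × Pc M => ∀ c, c ∈ q.2.1 → c ∈ q.1.1)
    (repeat' (first | with_reducible exact IntF.id | with_reducible exact IntF.fst' | with_reducible exact IntF.snd' | with_reducible exact IntF.const _ | with_reducible exact Int.const _ | assumption | with_reducible apply Int.and | with_reducible apply Int.or | with_reducible apply Int.not | with_reducible apply Int.imp | with_reducible apply Int.iff | with_reducible apply Int.ne | with_reducible apply Int.eq | with_reducible apply Int.mem | with_reducible apply Int.subset | with_reducible apply Int.ltN | with_reducible apply Int.leN | with_reducible_and_instances apply Int.le | with_reducible_and_instances apply Int.lt | with_reducible apply Int.all | with_reducible apply Int.ex | with_reducible apply IntF.fst | with_reducible apply IntF.snd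 | with_reducible apply IntF.app | with_reducible apply IntF.inl | with_reducible apply IntF.inr | with_reducible_and_instances apply IntF.mul | with_reducible_and_instances apply IntF.inv | with_reducible_and_instances apply IntF.add | with_reducible_and_instances apply IntF.sub | with_reducible_and_instances apply IntF.neg | with_reducible_and_instances apply IntF.div | with_reducible_and_instances apply IntF.smul | with_reducible apply IntF.succ | with_reducible apply IntF.val | with_reducible apply IntF.mk | (with_reducible refine Int.comp ?_ ?_; assumption) | (with_reducible refine Int.comp₂ ?_ ?_ ?_; assumption) | (with_reducible refine Int.comp₃ ?_ ?_ ?_ ?_; assumption) | (with_reducible refine Int.comp₄ ?_ ?_ ?_ ?_ ?_; assumption) | (with_reducible refine IntF.comp ?_ ?_; assumption) | (with_reducible refine IntF.comp₂ ?_ ?_ ?_; assumption) | (with_reducible refine IntF.comp₃ ?_ ?_ ?_ ?_; assumption) | with_reducible apply IntF.pair))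

/-- The automorphisms. -/
def IsG (π : IPerm M (Lit M)) : Prop :=
  (∀ l, (π.1.1 l).2.1 = l.2.1) ∧ ∀ l l', ((π.1.1 l).1 < (π.1.1 l').1 ↔ l.1 < l'.1)

theorem int_isG : Int M (IsG (M := M)) := by
  unfold IsG
  (repeat' (first | with_reducible exact IntF.id | with_reducible exact IntF.fst' | with_reducible exact IntF.snd' | with_reducible exact IntF.const _ | with_reducible exact Int.const _ | assumption | with_reducible apply Int.and | with_reducible apply Int.or | with_reducible apply Int.not | with_reducible apply Int.imp | with_reducible apply Int.iff | with_reducible apply Int.ne | with_reducible apply Int.eq | with_reducible apply Int.mem | with_reducible apply Int.subset | with_reducible apply Int.ltN | with_reducible apply Int.leN | with_reducible_and_instances apply Int.le | with_reducible_and_instances apply Int.lt | with_reducible apply Int.all | with_reducible apply Int.ex | with_reducible apply IntF.fst | with_reducible apply IntF.snd | with_reducible apply IntF.app | with_reducible apply IntF.inl | with_reducible apply IntF.inr | with_reducible_and_instances apply IntF.mul | with_reducible_and_instances apply IntF.inv | with_reducible_and_instances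 apply IntF.add | with_reducible_and_instances apply IntF.sub | with_reducible_and_instances apply IntF.neg | with_reducible_and_instances apply IntF.div | with_reducible_and_instances apply IntF.smul | with_reducible apply IntF.succ | with_reducible apply IntF.val | with_reducible apply IntF.mk | (with_reducible refine Int.comp ?_ ?_; assumption) | (with_reducible refine Int.comp₂ ?_ ?_ ?_; assumption) | (with_reducible refine Int.comp₃ ?_ ?_ ?_ ?_; assumption) | (with_reducible refine Int.comp₄ ?_ ?_ ?_ ?_ ?_; assumption) | (with_reducible refine IntF.comp ?_ ?_; assumption) | (with_reducible refine IntF.comp₂ ?_ ?_ ?_; assumption) | (with_reducible refine IntF.comp₃ ?_ ?_ ?_ ?_; assumption) | with_reducible apply IntF.pair))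

variable (M) in
/-- The group of automorphisms. -/
def GH : Subgroup (IPerm M (Lit M)) where
  carrier := {π | IsG π}
  mul_mem' := fun {a b} h h' => ⟨fun l => by rw [IPerm.mul_apply, h.1, h'.1], fun l l' => by
    rw [IPerm.mul_apply, IPerm.mul_apply, h.2, h'.2]⟩
  one_mem' := ⟨fun l => by rw [IPerm.one_apply], fun l l' => by
    rw [IPerm.one_apply, IPerm.one_apply]⟩
  inv_mem' := fun {a} h => ⟨fun l => by
      rw [IPerm.inv_apply, ← h.1, a.2.1], fun l l' => by
      rw [IPerm.inv_apply, IPerm.inv_apply, ← h.2, a.2.1, a.2.1]⟩

instance : Fact (Int M (fun π : IPerm M (Lit M) => π ∈ GH M)) := ⟨int_isG⟩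

variable (M) in
/-- The group of automorphisms. -/
abbrev Gm : Type u := {π : IPerm M (Lit M) // π ∈ GH M}

/-- The permutation of the literals. -/
def sg (π : Gm M) (l : Lit M) : Lit M := π.1.1.1 l

/-- The permutation of the rows. -/
noncomputable def ro (π : Gm M) (q : IQ M) : IQ M := (sg π (q, (0, true))).1

theorem sg_mul (π σ : Gm M) (l : Lit M) : sg (π * σ) l = sg π (sg σ l) := IPerm.mul_apply _ _ _
theorem sg_one (l : Lit M) : sg (1 : Gm M) l = l := IPerm.one_apply _
theorem sg_inv_sg (π : Gm M) (l : Lit M) : sg π⁻¹ (sg π l) = l := π.1.2.2 l
theorem sg_sg_inv (π : Gm M) (l : Lit M) : sg π (sg π⁻¹ l) = l := π.1.2.1 l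
theorem sg_col (π : Gm M) (l : Lit M) : (sg π l).2.1 = l.2.1 := π.2.1 l
theorem sg_lt (π : Gm M) (l l' : Lit M) : (sg π l).1 < (sg π l').1 ↔ l.1 < l'.1 := π.2.2 l l'

theorem sg_row (π : Gm M) (l : Lit M) : (sg π l).1 = ro π l.1 := by
  refine le_antisymm (not_lt.1 fun h => ?_) (not_lt.1 fun h => ?_)
  · exact lt_irrefl _ ((sg_lt π (l.1, (0, true)) l).1 h)
  · exact lt_irrefl _ ((sg_lt π l (l.1, (0, true))).1 h)

theorem ro_lt (π : Gm M) {q q' : IQ M} : ro π q < ro π q' ↔ q < q' := sg_lt π _ _

theorem ro_mul (π σ : Gm M) (q : IQ M) : ro (π * σ) q = ro π (ro σ q) := by
  unfold ro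
  rw [sg_mul, sg_row]
  rfl

theorem ro_one (q : IQ M) : ro (1 : Gm M) q = q := by
  unfold ro
  rw [sg_one]

theorem ro_inv_ro (π : Gm M) (q : IQ M) : ro π⁻¹ (ro π q) = q := by
  rw [← ro_mul, inv_mul_cancel, ro_one]

theorem ro_ro_inv (π : Gm M) (q : IQ M) : ro π (ro π⁻¹ q) = q := by
  rw [← ro_mul, mul_inv_cancel, ro_one]

theorem sg_eq (π : Gm M) (q : IQ M) (n : INat M) (b : Bool) :
    sg π (q, (n, b)) = (ro π q, (n, (sg π (q, (n, b))).2.2)) :=
  Prod.ext (sg_row π _) (Prod.ext (sg_col π _) rfl)

theorem int_sg : IntF M (fun q : Gm M × Lit M => sg q.1 q.2) := by
  unfold sg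
  (repeat' (first | with_reducible exact IntF.id | with_reducible exact IntF.fst' | with_reducible exact IntF.snd' | with_reducible exact IntF.const _ | with_reducible exact Int.const _ | assumption | with_reducible apply Int.and | with_reducible apply Int.or | with_reducible apply Int.not | with_reducible apply Int.imp | with_reducible apply Int.iff | with_reducible apply Int.ne | with_reducible apply Int.eq | with_reducible apply Int.mem | with_reducible apply Int.subset | with_reducible apply Int.ltN | with_reducible apply Int.leN | with_reducible_and_instances apply Int.le | with_reducible_and_instances apply Int.lt | with_reducible apply Int.all | with_reducible apply Int.ex | with_reducible apply IntF.fst | with_reducible apply IntF.snd | with_reducible apply IntF.app | with_reducible apply IntF.inl | with_reducible apply IntF.inr | with_reducible_and_instances apply IntF.mul | with_reducible_and_instances apply IntF.inv | with_reducible_and_instances apply IntF.add | with_reducible_and_instances apply IntF.sub | with_reducible_and_instances apply IntF.neg | with_reducible_and_instances apply IntF.div | with_reducible_and_instances apply IntF.smul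 | with_reducible apply IntF.succ | with_reducible apply IntF.val | with_reducible apply IntF.mk | (with_reducible refine Int.comp ?_ ?_; assumption) | (with_reducible refine Int.comp₂ ?_ ?_ ?_; assumption) | (with_reducible refine Int.comp₃ ?_ ?_ ?_ ?_; assumption) | (with_reducible refine Int.comp₄ ?_ ?_ ?_ ?_ ?_; assumption) | (with_reducible refine IntF.comp ?_ ?_; assumption) | (with_reducible refine IntF.comp₂ ?_ ?_ ?_; assumption) | (with_reducible refine IntF.comp₃ ?_ ?_ ?_ ?_; assumption) | with_reducible apply IntF.pair))

theorem int_ro : IntF M (fun q : Gm M × IQ M => ro q.1 q.2) := by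
  have h := int_sg (M := M)
  unfold ro
  (repeat' (first | with_reducible exact IntF.id | with_reducible exact IntF.fst' | with_reducible exact IntF.snd' | with_reducible exact IntF.const _ | with_reducible exact Int.const _ | assumption | with_reducible apply Int.and | with_reducible apply Int.or | with_reducible apply Int.not | with_reducible apply Int.imp | with_reducible apply Int.iff | with_reducible apply Int.ne | with_reducible apply Int.eq | with_reducible apply Int.mem | with_reducible apply Int.subset | with_reducible apply Int.ltN | with_reducible apply Int.leN | with_reducible_and_instances apply Int.le | with_reducible_and_instances apply Int.lt | with_reducible apply Int.all | with_reducible apply Int.ex | with_reducible apply IntF.fst | with_reducible apply IntF.snd | with_reducible apply IntF.app | with_reducible apply IntF.inl | with_reducible apply IntF.inr | with_reducible_and_instances apply IntF.mul | with_reducible_and_instances apply IntF.inv | with_reducible_and_instances apply IntF.add | with_reducible_and_instances apply IntF.sub | with_reducible_and_instances apply IntF.neg | with_reducible_and_instances apply IntF.div | with_reducible_and_instances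 apply IntF.smul | with_reducible apply IntF.succ | with_reducible apply IntF.val | with_reducible apply IntF.mk | (with_reducible refine Int.comp ?_ ?_; assumption) | (with_reducible refine Int.comp₂ ?_ ?_ ?_; assumption) | (with_reducible refine Int.comp₃ ?_ ?_ ?_ ?_; assumption) | (with_reducible refine Int.comp₄ ?_ ?_ ?_ ?_ ?_; assumption) | (with_reducible refine IntF.comp ?_ ?_; assumption) | (with_reducible refine IntF.comp₂ ?_ ?_ ?_; assumption) | (with_reducible refine IntF.comp₃ ?_ ?_ ?_ ?_; assumption) | with_reducible apply IntF.pair))

instance : IMul M (Gm M) where
  out := by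
    refine IntF.mk ?_
    have h : IntF M (fun q : Gm M × Gm M => q.1.1 * q.2.1) := by (repeat' (first | with_reducible exact IntF.id | with_reducible exact IntF.fst' | with_reducible exact IntF.snd' | with_reducible exact IntF.const _ | with_reducible exact Int.const _ | assumption | with_reducible apply Int.and | with_reducible apply Int.or | with_reducible apply Int.not | with_reducible apply Int.imp | with_reducible apply Int.iff | with_reducible apply Int.ne | with_reducible apply Int.eq | with_reducible apply Int.mem | with_reducible apply Int.subset | with_reducible apply Int.ltN | with_reducible apply Int.leN | with_reducible_and_instances apply Int.le | with_reducible_and_instances apply Int.lt | with_reducible apply Int.all | with_reducible apply Int.ex | with_reducible apply IntF.fst | with_reducible apply IntF.snd | with_reducible apply IntF.app | with_reducible apply IntF.inl | with_reducible apply IntF.inr | with_reducible_and_instances apply IntF.mul | with_reducible_and_instances apply IntF.inv | with_reducible_and_instances apply IntF.add | with_reducible_and_instances apply IntF.sub | with_reducible_and_instances apply IntF.neg | with_reducible_and_instances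 apply IntF.div | with_reducible_and_instances apply IntF.smul | with_reducible apply IntF.succ | with_reducible apply IntF.val | with_reducible apply IntF.mk | (with_reducible refine Int.comp ?_ ?_; assumption) | (with_reducible refine Int.comp₂ ?_ ?_ ?_; assumption) | (with_reducible refine Int.comp₃ ?_ ?_ ?_ ?_; assumption) | (with_reducible refine Int.comp₄ ?_ ?_ ?_ ?_ ?_; assumption) | (with_reducible refine IntF.comp ?_ ?_; assumption) | (with_reducible refine IntF.comp₂ ?_ ?_ ?_; assumption) | (with_reducible refine IntF.comp₃ ?_ ?_ ?_ ?_; assumption) | with_reducible apply IntF.pair))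
    exact h

instance : IInv M (Gm M) where
  out := by
    refine IntF.mk ?_
    have h : IntF M (fun q : Gm M => q.1⁻¹) := by (repeat' (first | with_reducible exact IntF.id | with_reducible exact IntF.fst' | with_reducible exact IntF.snd' | with_reducible exact IntF.const _ | with_reducible exact Int.const _ | assumption | with_reducible apply Int.and | with_reducible apply Int.or | with_reducible apply Int.not | with_reducible apply Int.imp | with_reducible apply Int.iff | with_reducible apply Int.ne | with_reducible apply Int.eq | with_reducible apply Int.mem | with_reducible apply Int.subset | with_reducible apply Int.ltN | with_reducible apply Int.leN | with_reducible_and_instances apply Int.le | with_reducible_and_instances apply Int.lt | with_reducible apply Int.all | with_reducible apply Int.ex | with_reducible apply IntF.fst | with_reducible apply IntF.snd | with_reducible apply IntF.app | with_reducible apply IntF.inl | with_reducible apply IntF.inr | with_reducible_and_instances apply IntF.mul | with_reducible_and_instances apply IntF.inv | with_reducible_and_instances apply IntF.add | with_reducible_and_instances apply IntF.sub | with_reducible_and_instances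 apply IntF.neg | with_reducible_and_instances apply IntF.div | with_reducible_and_instances apply IntF.smul | with_reducible apply IntF.succ | with_reducible apply IntF.val | with_reducible apply IntF.mk | (with_reducible refine Int.comp ?_ ?_; assumption) | (with_reducible refine Int.comp₂ ?_ ?_ ?_; assumption) | (with_reducible refine Int.comp₃ ?_ ?_ ?_ ?_; assumption) | (with_reducible refine Int.comp₄ ?_ ?_ ?_ ?_ ?_; assumption) | (with_reducible refine IntF.comp ?_ ?_; assumption) | (with_reducible refine IntF.comp₂ ?_ ?_ ?_; assumption) | (with_reducible refine IntF.comp₃ ?_ ?_ ?_ ?_; assumption) | with_reducible apply IntF.pair))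
    exact h

theorem int_smul_aux (π : Gm M) (p : Pc M) : Int M (fun c => sg π⁻¹ c ∈ p.1) := by
  have h := int_sg (M := M)
  (repeat' (first | with_reducible exact IntF.id | with_reducible exact IntF.fst' | with_reducible exact IntF.snd' | with_reducible exact IntF.const _ | with_reducible exact Int.const _ | assumption | with_reducible apply Int.and | with_reducible apply Int.or | with_reducible apply Int.not | with_reducible apply Int.imp | with_reducible apply Int.iff | with_reducible apply Int.ne | with_reducible apply Int.eq | with_reducible apply Int.mem | with_reducible apply Int.subset | with_reducible apply Int.ltN | with_reducible apply Int.leN | with_reducible_and_instances apply Int.le | with_reducible_and_instances apply Int.lt | with_reducible apply Int.all | with_reducible apply Int.ex | with_reducible apply IntF.fst | with_reducible apply IntF.snd | with_reducible apply IntF.app | with_reducible apply IntF.inl | with_reducible apply IntF.inr | with_reducible_and_instances apply IntF.mul | with_reducible_and_instances apply IntF.inv | with_reducible_and_instances apply IntF.add | with_reducible_and_instances apply IntF.sub | with_reducible_and_instances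 apply IntF.neg | with_reducible_and_instances apply IntF.div | with_reducible_and_instances apply IntF.smul | with_reducible apply IntF.succ | with_reducible apply IntF.val | with_reducible apply IntF.mk | (with_reducible refine Int.comp ?_ ?_; assumption) | (with_reducible refine Int.comp₂ ?_ ?_ ?_; assumption) | (with_reducible refine Int.comp₃ ?_ ?_ ?_ ?_; assumption) | (with_reducible refine Int.comp₄ ?_ ?_ ?_ ?_ ?_; assumption) | (with_reducible refine IntF.comp ?_ ?_; assumption) | (with_reducible refine IntF.comp₂ ?_ ?_ ?_; assumption) | (with_reducible refine IntF.comp₃ ?_ ?_ ?_ ?_; assumption) | with_reducible apply IntF.pair))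

theorem smul_isC (π : Gm M) (p : Pc M) : IsC (sep M fun c => sg π⁻¹ c ∈ p.1) := by
  have hI := int_smul_aux π p
  obtain ⟨h1, n, h2⟩ := p.2
  refine ⟨fun q k b b' hd hd' => ?_, n, fun c hc => ?_⟩
  · have h3 := (mem_sep hI).1 hd
    have h4 := (mem_sep hI).1 hd'
    rw [sg_eq] at h3 h4
    have h5 := h1 _ _ _ _ h3 h4
    have h6 : sg π⁻¹ (q, (k, b)) = sg π⁻¹ (q, (k, b')) := by
      rw [sg_eq, h5, ← sg_eq]
    have h7 := congrArg (sg π) h6
    rw [sg_sg_inv, sg_sg_inv] at h7
    exact congrArg (fun c : Lit M => c.2.2) h7
  · have h3 := h2 _ ((mem_sep hI).1 hc)
    rwa [sg_col] at h3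

noncomputable instance : SMul (Gm M) (Pc M) :=
  ⟨fun π p => ⟨sep M fun c => sg π⁻¹ c ∈ p.1, smul_isC π p⟩⟩

theorem mem_smul {π : Gm M} {p : Pc M} {c : Lit M} :
    c ∈ (π • p).1 ↔ sg π⁻¹ c ∈ p.1 := mem_sep (int_smul_aux π p)

noncomputable instance : MulAction (Gm M) (Pc M) where
  one_smul p := Subtype.ext (IPow.ext' fun c => by rw [mem_smul, inv_one, sg_one])
  mul_smul π σ p := Subtype.ext (IPow.ext' fun c => by
    rw [mem_smul, mem_smul, mem_smul, mul_inv_rev, sg_mul])

instance : ISMul M (Gm M) (Pc M) where
  out := by
    have h := int_sg (M := M)
    refine IntF.of_rel (r := fun (q : Gm M × Pc M) (p : Pc M) =>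
      ∀ c, c ∈ p.1 ↔ sg q.1⁻¹ c ∈ q.2.1) (by (repeat' (first | with_reducible exact IntF.id | with_reducible exact IntF.fst' | with_reducible exact IntF.snd' | with_reducible exact IntF.const _ | with_reducible exact Int.const _ | assumption | with_reducible apply Int.and | with_reducible apply Int.or | with_reducible apply Int.not | with_reducible apply Int.imp | with_reducible apply Int.iff | with_reducible apply Int.ne | with_reducible apply Int.eq | with_reducible apply Int.mem | with_reducible apply Int.subset | with_reducible apply Int.ltN | with_reducible apply Int.leN | with_reducible_and_instances apply Int.le | with_reducible_and_instances apply Int.lt | with_reducible apply Int.all | with_reducible apply Int.ex | with_reducible apply IntF.fst | with_reducible apply IntF.snd | with_reducible apply IntF.app | with_reducible apply IntF.inl | with_reducible apply IntF.inr | with_reducible_and_instances apply IntF.mul | with_reducible_and_instances apply IntF.inv | with_reducible_and_instances apply IntF.add | with_reducible_and_instances apply IntF.sub | with_reducible_and_instances apply IntF.neg | with_reducible_and_instances apply IntF.div | with_reducible_and_instances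 apply IntF.smul | with_reducible apply IntF.succ | with_reducible apply IntF.val | with_reducible apply IntF.mk | (with_reducible refine Int.comp ?_ ?_; assumption) | (with_reducible refine Int.comp₂ ?_ ?_ ?_; assumption) | (with_reducible refine Int.comp₃ ?_ ?_ ?_ ?_; assumption) | (with_reducible refine Int.comp₄ ?_ ?_ ?_ ?_ ?_; assumption) | (with_reducible refine IntF.comp ?_ ?_; assumption) | (with_reducible refine IntF.comp₂ ?_ ?_ ?_; assumption) | (with_reducible refine IntF.comp₃ ?_ ?_ ?_ ?_; assumption) | with_reducible apply IntF.pair))) fun q p => ?_
    constructor
    · intro h1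
      exact Subtype.ext (IPow.ext' fun c => mem_smul.trans (h1 c).symm)
    · rintro rfl c
      exact mem_smul

section

variable [Std M]

instance : Fact (Int M (fun s : IPow M (IQ M) => {q | q ∈ s}.Finite)) :=
  ⟨Int.finite (p := fun (s : IPow M (IQ M)) q => q ∈ s) (by (repeat' (first | with_reducible exact IntF.id | with_reducible exact IntF.fst' | with_reducible exact IntF.snd' | with_reducible exact IntF.const _ | with_reducible exact Int.const _ | assumption | with_reducible apply Int.and | with_reducible apply Int.or | with_reducible apply Int.not | with_reducible apply Int.imp | with_reducible apply Int.iff | with_reducible apply Int.ne | with_reducible apply Int.eq | with_reducible apply Int.mem | with_reducible apply Int.subset | with_reducible apply Int.ltN | with_reducible apply Int.leN | with_reducible_and_instances apply Int.le | with_reducible_and_instances apply Int.lt | with_reducible apply Int.all | with_reducible apply Int.ex | with_reducible apply IntF.fst | with_reducible apply IntF.snd | with_reducible apply IntF.app | with_reducible apply IntF.inl | with_reducible apply IntF.inr | with_reducible_and_instances apply IntF.mul | with_reducible_and_instances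 apply IntF.inv | with_reducible_and_instances apply IntF.add | with_reducible_and_instances apply IntF.sub | with_reducible_and_instances apply IntF.neg | with_reducible_and_instances apply IntF.div | with_reducible_and_instances apply IntF.smul | with_reducible apply IntF.succ | with_reducible apply IntF.val | with_reducible apply IntF.mk | (with_reducible refine Int.comp ?_ ?_; assumption) | (with_reducible refine Int.comp₂ ?_ ?_ ?_; assumption) | (with_reducible refine Int.comp₃ ?_ ?_ ?_ ?_; assumption) | (with_reducible refine Int.comp₄ ?_ ?_ ?_ ?_ ?_; assumption) | (with_reducible refine IntF.comp ?_ ?_; assumption) | (with_reducible refine IntF.comp₂ ?_ ?_ ?_; assumption) | (with_reducible refine IntF.comp₃ ?_ ?_ ?_ ?_; assumption) | with_reducible apply IntF.pair)))⟩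

variable (M) in
/-- The supports. -/
abbrev Lm : Type u := {s : IPow M (IQ M) // {q | q ∈ s}.Finite}

/-- A finite set as a support. -/
def toLm {s : Set (IQ M)} (hs : s.Finite) : Lm M := ⟨⟨fun q => q ∈ s, int_of_finite hs⟩, hs⟩

variable (M) in
/-- The symmetric system. -/
noncomputable def SY : SymSys M (Pc M) (Gm M) (Lm M) where
  smul_le π p q h c hc := mem_smul.2 (h _ (mem_smul.1 hc))
  U F π := ∀ l : Lit M, l.1 ∈ F.1 → sg π l = l
  int_U := by
    have h := int_sg (M := M)
    (repeat' (first | with_reducible exact IntF.id | with_reducible exact IntF.fst' | with_reducible exact IntF.snd' | with_reducible exact IntF.const _ | with_reducible exact Int.const _ | assumption | with_reducible apply Int.and | with_reducible apply Int.or | with_reducible apply Int.not | with_reducible apply Int.imp | with_reducible apply Int.iff | with_reducible apply Int.ne | with_reducible apply Int.eq | with_reducible apply Int.mem | with_reducible apply Int.subset | with_reducible apply Int.ltN | with_reducible apply Int.leN | with_reducible_and_instances apply Int.le | with_reducible_and_instances apply Int.lt | with_reducible apply Int.all | with_reducible apply Int.ex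 | with_reducible apply IntF.fst | with_reducible apply IntF.snd | with_reducible apply IntF.app | with_reducible apply IntF.inl | with_reducible apply IntF.inr | with_reducible_and_instances apply IntF.mul | with_reducible_and_instances apply IntF.inv | with_reducible_and_instances apply IntF.add | with_reducible_and_instances apply IntF.sub | with_reducible_and_instances apply IntF.neg | with_reducible_and_instances apply IntF.div | with_reducible_and_instances apply IntF.smul | with_reducible apply IntF.succ | with_reducible apply IntF.val | with_reducible apply IntF.mk | (with_reducible refine Int.comp ?_ ?_; assumption) | (with_reducible refine Int.comp₂ ?_ ?_ ?_; assumption) | (with_reducible refine Int.comp₃ ?_ ?_ ?_ ?_; assumption) | (with_reducible refine Int.comp₄ ?_ ?_ ?_ ?_ ?_; assumption) | (with_reducible refine IntF.comp ?_ ?_; assumption) | (with_reducible refine IntF.comp₂ ?_ ?_ ?_; assumption) | (with_reducible refine IntF.comp₃ ?_ ?_ ?_ ?_; assumption) | with_reducible apply IntF.pair))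
  nonempty := ⟨toLm Set.finite_empty⟩
  one _ c _ := sg_one c
  mul _ a b ha hb c hc := by rw [sg_mul, hb c hc, ha c hc]
  inv _ a ha c hc := by
    have h := congrArg (sg a⁻¹) (ha c hc)
    rwa [sg_inv_sg, eq_comm] at h
  dir l l' := ⟨toLm (l.2.union l'.2), fun a ha => ⟨fun c hc => ha c (Or.inl hc),
    fun c hc => ha c (Or.inr hc)⟩⟩
  conj π l := ⟨toLm (l.2.image (ro π)), fun a ha c hc => by
    rw [sg_mul, sg_mul, ha, sg_inv_sg]
    exact ⟨c.1, hc, (sg_row π c).symm⟩⟩

theorem SY_U {F : Lm M} {π : Gm M} : (SY M).U F π ↔ ∀ l : Lit M, l.1 ∈ F.1 → sg π l = l := Iff.rfl

theorem ro_of_U {F : Lm M} {π : Gm M} (h : (SY M).U F π) {q : IQ M} (hq : q ∈ F.1) :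
    ro π q = q := congrArg Prod.fst (h (q, (0, true)) hq)

end

/-! ### Special automorphisms -/

open Classical in
theorem exists_flip {Z : IQ M → INat M → Prop} (hZ : Int M (fun q : IQ M × INat M => Z q.1 q.2)) :
    ∃ π : Gm M, π⁻¹ = π ∧ (∀ q, ro π q = q) ∧ (∀ q n b, Z q n → sg π (q, (n, b)) = (q, (n, !b))) ∧
      ∀ q n b, ¬ Z q n → sg π (q, (n, b)) = (q, (n, b)) := by
  have hf : IntF M (fun l : Lit M => ((l.1, (l.2.1, if Z l.1 l.2.1 then !l.2.2 else l.2.2)) :
      Lit M)) := by
    refine IntF.pair IntF.fst' (IntF.pair (IntF.fst IntF.snd') (IntF.ite ?_ ?_ ?_))
    · (repeat' (first | with_reducible exact IntF.id | with_reducible exact IntF.fst' | with_reducible exact IntF.snd' | with_reducible exact IntF.const _ | with_reducible exact Int.const _ | assumption | with_reducible apply Int.and | with_reducible apply Int.or | with_reducible apply Int.not | with_reducible apply Int.imp | with_reducible apply Int.iff | with_reducible apply Int.ne | with_reducible apply Int.eq | with_reducible apply Int.mem | with_reducible apply Int.subset | with_reducible apply Int.ltN | with_reducible apply Int.leN | with_reducible_and_instances apply Int.le | with_reducible_and_instances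 apply Int.lt | with_reducible apply Int.all | with_reducible apply Int.ex | with_reducible apply IntF.fst | with_reducible apply IntF.snd | with_reducible apply IntF.app | with_reducible apply IntF.inl | with_reducible apply IntF.inr | with_reducible_and_instances apply IntF.mul | with_reducible_and_instances apply IntF.inv | with_reducible_and_instances apply IntF.add | with_reducible_and_instances apply IntF.sub | with_reducible_and_instances apply IntF.neg | with_reducible_and_instances apply IntF.div | with_reducible_and_instances apply IntF.smul | with_reducible apply IntF.succ | with_reducible apply IntF.val | with_reducible apply IntF.mk | (with_reducible refine Int.comp ?_ ?_; assumption) | (with_reducible refine Int.comp₂ ?_ ?_ ?_; assumption) | (with_reducible refine Int.comp₃ ?_ ?_ ?_ ?_; assumption) | (with_reducible refine Int.comp₄ ?_ ?_ ?_ ?_ ?_; assumption) | (with_reducible refine IntF.comp ?_ ?_; assumption) | (with_reducible refine IntF.comp₂ ?_ ?_ ?_; assumption) | (with_reducible refine IntF.comp₃ ?_ ?_ ?_ ?_; assumption) | with_reducible apply IntF.pair))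
    · exact IntF.bnot (IntF.snd IntF.snd')
    · exact IntF.snd IntF.snd'
  refine ⟨⟨IPerm.ofInv _ hf fun l => ?_, fun l => rfl, fun l l' => Iff.rfl⟩, rfl, fun q => rfl,
    fun q n b h => ?_, fun q n b h => ?_⟩
  · by_cases h : Z l.1 l.2.1 <;> simp [h]
  · change (q, (n, if Z q n then !b else b)) = _
    rw [if_pos h]
  · change (q, (n, if Z q n then !b else b)) = _
    rw [if_neg h]

theorem exists_lift {ρ : IQ M → IQ M} (h1 : IntF M ρ) (h2 : StrictMono ρ)
    (h3 : Function.Surjective ρ) : ∃ π : Gm M, ∀ l, sg π l = (ρ l.1, l.2) := by
  obtain ⟨g, hg, h4⟩ := exists_surj_of_inj h1 h2.injective 0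
  refine ⟨⟨⟨(⟨fun l => (ρ l.1, l.2), by (repeat' (first | with_reducible exact IntF.id | with_reducible exact IntF.fst' | with_reducible exact IntF.snd' | with_reducible exact IntF.const _ | with_reducible exact Int.const _ | assumption | with_reducible apply Int.and | with_reducible apply Int.or | with_reducible apply Int.not | with_reducible apply Int.imp | with_reducible apply Int.iff | with_reducible apply Int.ne | with_reducible apply Int.eq | with_reducible apply Int.mem | with_reducible apply Int.subset | with_reducible apply Int.ltN | with_reducible apply Int.leN | with_reducible_and_instances apply Int.le | with_reducible_and_instances apply Int.lt | with_reducible apply Int.all | with_reducible apply Int.ex | with_reducible apply IntF.fst | with_reducible apply IntF.snd | with_reducible apply IntF.app | with_reducible apply IntF.inl | with_reducible apply IntF.inr | with_reducible_and_instances apply IntF.mul | with_reducible_and_instances apply IntF.inv | with_reducible_and_instances apply IntF.add | with_reducible_and_instances apply IntF.sub | with_reducible_and_instances apply IntF.neg | with_reducible_and_instances apply IntF.div | with_reducible_and_instances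 apply IntF.smul | with_reducible apply IntF.succ | with_reducible apply IntF.val | with_reducible apply IntF.mk | (with_reducible refine Int.comp ?_ ?_; assumption) | (with_reducible refine Int.comp₂ ?_ ?_ ?_; assumption) | (with_reducible refine Int.comp₃ ?_ ?_ ?_ ?_; assumption) | (with_reducible refine Int.comp₄ ?_ ?_ ?_ ?_ ?_; assumption) | (with_reducible refine IntF.comp ?_ ?_; assumption) | (with_reducible refine IntF.comp₂ ?_ ?_ ?_; assumption) | (with_reducible refine IntF.comp₃ ?_ ?_ ?_ ?_; assumption) | with_reducible apply IntF.pair))⟩, ⟨fun l => (g l.1, l.2), by (repeat' (first | with_reducible exact IntF.id | with_reducible exact IntF.fst' | with_reducible exact IntF.snd' | with_reducible exact IntF.const _ | with_reducible exact Int.const _ | assumption | with_reducible apply Int.and | with_reducible apply Int.or | with_reducible apply Int.not | with_reducible apply Int.imp | with_reducible apply Int.iff | with_reducible apply Int.ne | with_reducible apply Int.eq | with_reducible apply Int.mem | with_reducible apply Int.subset | with_reducible apply Int.ltN | with_reducible apply Int.leN | with_reducible_and_instances apply Int.le | with_reducible_and_instances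 apply Int.lt | with_reducible apply Int.all | with_reducible apply Int.ex | with_reducible apply IntF.fst | with_reducible apply IntF.snd | with_reducible apply IntF.app | with_reducible apply IntF.inl | with_reducible apply IntF.inr | with_reducible_and_instances apply IntF.mul | with_reducible_and_instances apply IntF.inv | with_reducible_and_instances apply IntF.add | with_reducible_and_instances apply IntF.sub | with_reducible_and_instances apply IntF.neg | with_reducible_and_instances apply IntF.div | with_reducible_and_instances apply IntF.smul | with_reducible apply IntF.succ | with_reducible apply IntF.val | with_reducible apply IntF.mk | (with_reducible refine Int.comp ?_ ?_; assumption) | (with_reducible refine Int.comp₂ ?_ ?_ ?_; assumption) | (with_reducible refine Int.comp₃ ?_ ?_ ?_ ?_; assumption) | (with_reducible refine Int.comp₄ ?_ ?_ ?_ ?_ ?_; assumption) | (with_reducible refine IntF.comp ?_ ?_; assumption) | (with_reducible refine IntF.comp₂ ?_ ?_ ?_; assumption) | (with_reducible refine IntF.comp₃ ?_ ?_ ?_ ?_; assumption) | with_reducible apply IntF.pair))⟩),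
    fun l => ?_, fun l => ?_⟩, fun l => rfl, fun l l' => h2.lt_iff_lt⟩, fun l => rfl⟩
  · obtain ⟨q, hq⟩ := h3 l.1
    refine Prod.ext ?_ rfl
    change ρ (g l.1) = l.1
    rw [← hq, h4]
  · exact Prod.ext (h4 _) rfl

/-- Internal order automorphisms. -/
def Aut (ρ : IQ M → IQ M) : Prop := IntF M ρ ∧ StrictMono ρ ∧ Function.Surjective ρ

theorem Aut.max {f g : IQ M → IQ M} (hf : Aut f) (hg : Aut g) : Aut (fun x => max (f x) (g x)) := by
  refine ⟨?_, fun x y h => max_lt_max (hf.2.1 h) (hg.2.1 h), fun y => ?_⟩
  · simp only [max_def]
    exact IntF.ite (Int.le hf.1 hg.1) hg.1 hf.1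
  · obtain ⟨a, ha⟩ := hf.2.2 y
    obtain ⟨b, hb⟩ := hg.2.2 y
    rcases le_total a b with h | h
    · exact ⟨a, by beta_reduce; rw [ha]; exact max_eq_left (hb ▸ hg.2.1.monotone h)⟩
    · exact ⟨b, by beta_reduce; rw [hb]; exact max_eq_right (ha ▸ hf.2.1.monotone h)⟩

theorem Aut.min {f g : IQ M → IQ M} (hf : Aut f) (hg : Aut g) : Aut (fun x => min (f x) (g x)) := by
  refine ⟨?_, fun x y h => min_lt_min (hf.2.1 h) (hg.2.1 h), fun y => ?_⟩
  · simp only [min_def]
    exact IntF.ite (Int.le hf.1 hg.1) hf.1 hg.1
  · obtain ⟨a, ha⟩ := hf.2.2 y
    obtain ⟨b, hb⟩ := hg.2.2 y
    rcases le_total a b with h | h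
    · exact ⟨b, by beta_reduce; rw [hb]; exact min_eq_right (ha ▸ hf.2.1.monotone h)⟩
    · exact ⟨a, by beta_reduce; rw [ha]; exact min_eq_left (hb ▸ hg.2.1.monotone h)⟩

theorem aut_lin (a : IQ M) {c : IQ M} (hc : 0 < c) : Aut (fun x => a + c * (x - a)) := by
  refine ⟨by (repeat' (first | with_reducible exact IntF.id | with_reducible exact IntF.fst' | with_reducible exact IntF.snd' | with_reducible exact IntF.const _ | with_reducible exact Int.const _ | assumption | with_reducible apply Int.and | with_reducible apply Int.or | with_reducible apply Int.not | with_reducible apply Int.imp | with_reducible apply Int.iff | with_reducible apply Int.ne | with_reducible apply Int.eq | with_reducible apply Int.mem | with_reducible apply Int.subset | with_reducible apply Int.ltN | with_reducible apply Int.leN | with_reducible_and_instances apply Int.le | with_reducible_and_instances apply Int.lt | with_reducible apply Int.all | with_reducible apply Int.ex | with_reducible apply IntF.fst | with_reducible apply IntF.snd | with_reducible apply IntF.app | with_reducible apply IntF.inl | with_reducible apply IntF.inr | with_reducible_and_instances apply IntF.mul | with_reducible_and_instances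 apply IntF.inv | with_reducible_and_instances apply IntF.add | with_reducible_and_instances apply IntF.sub | with_reducible_and_instances apply IntF.neg | with_reducible_and_instances apply IntF.div | with_reducible_and_instances apply IntF.smul | with_reducible apply IntF.succ | with_reducible apply IntF.val | with_reducible apply IntF.mk | (with_reducible refine Int.comp ?_ ?_; assumption) | (with_reducible refine Int.comp₂ ?_ ?_ ?_; assumption) | (with_reducible refine Int.comp₃ ?_ ?_ ?_ ?_; assumption) | (with_reducible refine Int.comp₄ ?_ ?_ ?_ ?_ ?_; assumption) | (with_reducible refine IntF.comp ?_ ?_; assumption) | (with_reducible refine IntF.comp₂ ?_ ?_ ?_; assumption) | (with_reducible refine IntF.comp₃ ?_ ?_ ?_ ?_; assumption) | with_reducible apply IntF.pair)), fun x y h => ?_, fun y => ⟨a + (y - a) / c, ?_⟩⟩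
  · have := mul_lt_mul_of_pos_left (sub_lt_sub_right h a) hc
    beta_reduce
    linarith
  · field_simp
    ring

theorem exists_aut {a q q' b : IQ M} (h1 : a < q) (h2 : q ≤ q') (h3 : q' < b) :
    ∃ ρ, Aut ρ ∧ ρ q = q' ∧ ∀ x, x ≤ a ∨ b ≤ x → ρ x = x := by
  have h4 : 0 < q - a := sub_pos.2 h1
  have h5 : 0 < b - q := by linarith
  have hc : 1 ≤ (q' - a) / (q - a) := (one_le_div h4).2 (by linarith)
  have hd : (b - q') / (b - q) ≤ 1 := (div_le_one h5).2 (by linarith)
  have hd' : 0 < (b - q') / (b - q) := div_pos (by linarith) h5
  refine ⟨_, Aut.max (f := fun x => x) ⟨IntF.id, strictMono_id, Function.surjective_id⟩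
    ((aut_lin a (lt_of_lt_of_le one_pos hc)).min (aut_lin b hd')), ?_, fun x hx => ?_⟩
  · have e1 : a + (q' - a) / (q - a) * (q - a) = q' := by
      field_simp
      ring
    have e2 : b + (b - q') / (b - q) * (q - b) = q' := by
      field_simp
      ring
    beta_reduce
    rw [e1, e2, min_self, max_eq_right h2]
  · refine max_eq_left ?_
    rcases hx with hx | hx
    · refine (min_le_left _ _).trans ?_
      nlinarith
    · refine (min_le_right _ _).trans ?_
      nlinarith

theorem exists_move {E : Set (IQ M)} (hE : E.Finite) {q q' : IQ M} (h : Same E q q') :
    ∃ π : Gm M, ro π q = q' ∧ ∀ l : Lit M, l.1 ∈ E → sg π l = l := by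
  wlog hq : q ≤ q' generalizing q q'
  · obtain ⟨π, h1, h2⟩ := this h.symm (not_le.1 hq).le
    refine ⟨π⁻¹, by rw [← h1, ro_inv_ro], fun l hl => ?_⟩
    have h3 := congrArg (sg π⁻¹) (h2 l hl)
    rwa [sg_inv_sg, eq_comm] at h3
  rcases hq.eq_or_lt with rfl | hlt
  · exact ⟨1, ro_one _, fun l _ => sg_one l⟩
  obtain ⟨a, h1, h2⟩ := exists_left hE q
  obtain ⟨b, h3, h4⟩ := exists_right hE q'
  obtain ⟨ρ, ⟨h5, h6, h7⟩, h8, h9⟩ := exists_aut h1 hq h3
  obtain ⟨π, hπ⟩ := exists_lift h5 h6 h7
  refine ⟨π, ?_, fun l hl => ?_⟩
  · unfold ro
    rw [hπ]
    exact h8
  · rw [hπ, h9]
    rcases lt_or_ge l.1 q with h10 | h10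
    · exact Or.inl (h2 _ hl h10)
    · refine Or.inr (h4 _ hl ?_)
      by_contra h11
      rcases (not_lt.1 h11).eq_or_lt with h12 | h12
      · exact h11 ((h _ hl).2.1 (h12 ▸ hlt))
      · exact absurd ((h _ hl).1.2 h12) (not_lt.2 h10)

end Pool.Agent.Helper672.ZFA.H875
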