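import Pool.Agent.H875Z.Ins.Topo

/-!
# Tame subsets of a dense linear order, and two dichotomies
-/

namespace Pool.Agent.Helper672.ZFA.H875

open FirstOrder FirstOrder.Language
open Pool.Agent.Helper672.Plain (LSet)
open Pool.Agent.Helper672.ZFA.H635
open Pool.Agent.H875Z.Ins

set_option linter.unusedSectionVars false
set_option synthInstance.maxSize 2000

universe u

section order

variable {Q : Type u} [LinearOrder Q] [DenselyOrdered Q] [NoMaxOrder Q] [NoMinOrder Q]

/-- The same position relative to `E`. -/
def Same (E : Set Q) (q q' : Q) : Prop := ∀ e ∈ E, (e < q ↔ e < q') ∧ (q < e ↔ q' < e)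

theorem Same.symm {E : Set Q} {q q' : Q} (h : Same E q q') : Same E q' q :=
  fun e he => ⟨(h e he).1.symm, (h e he).2.symm⟩

/-- Tame sets. -/
def Tame (S : Q → Prop) : Prop := ∃ E : Set Q, E.Finite ∧ ∀ q q', Same E q q' → S q → S q'

theorem exists_left {E : Set Q} (hE : E.Finite) (q : Q) : ∃ a, a < q ∧ ∀ e ∈ E, e < q → e ≤ a := by
  induction E, hE using Set.Finite.induction_on with
  | empty =>
    obtain ⟨a, ha⟩ := exists_lt q
    exact ⟨a, ha, fun e he => absurd he (Set.notMem_empty e)⟩
  | @insert e s _ _ ih =>
    obtain ⟨a, h1, h2⟩ := ih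
    by_cases h : e < q
    · refine ⟨max a e, max_lt h1 h, ?_⟩
      rintro e' (rfl | he') h3
      · exact le_max_right _ _
      · exact (h2 e' he' h3).trans (le_max_left _ _)
    · refine ⟨a, h1, ?_⟩
      rintro e' (rfl | he') h3
      · exact absurd h3 h
      · exact h2 e' he' h3

theorem exists_right {E : Set Q} (hE : E.Finite) (q : Q) :
    ∃ a, q < a ∧ ∀ e ∈ E, q < e → a ≤ e := exists_left (Q := Qᵒᵈ) hE q

theorem same_of {E : Set Q} {a b r r' : Q} (h : ∀ e ∈ E, e ≤ a ∨ b ≤ e) (h1 : a < r) (h2 : r < b)
    (h3 : a < r') (h4 : r' < b) : Same E r r' := by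
  intro e he
  rcases h e he with h5 | h5
  · exact ⟨iff_of_true (lt_of_le_of_lt h5 h1) (lt_of_le_of_lt h5 h3),
      iff_of_false (not_lt.2 (h5.trans h1.le)) (not_lt.2 (h5.trans h3.le))⟩
  · exact ⟨iff_of_false (not_lt.2 (h2.le.trans h5)) (not_lt.2 (h4.le.trans h5)),
      iff_of_true (lt_of_lt_of_le h2 h5) (lt_of_lt_of_le h4 h5)⟩

variable {S : Q → Prop}

theorem Tame.interval (h : Tame S) (hS : {q | S q}.Infinite) :
    ∃ a b, a < b ∧ ∀ r, a < r → r < b → S r := by
  obtain ⟨E, hE, h⟩ := h
  obtain ⟨q, hq, hqE⟩ := hS.exists_notMem_finite hE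
  obtain ⟨a, h1, h2⟩ := exists_left hE q
  obtain ⟨b, h3, h4⟩ := exists_right hE q
  refine ⟨a, b, h1.trans h3, fun r h5 h6 => h q r (same_of (fun e he => ?_) h1 h3 h5 h6) hq⟩
  rcases lt_trichotomy e q with h7 | rfl | h7
  · exact Or.inl (h2 e he h7)
  · exact absurd he hqE
  · exact Or.inr (h4 e he h7)

theorem Tame.left (h : Tame S) (t : Q) :
    ∃ a, a < t ∧ ((∀ r, a < r → r < t → S r) ∨ ∀ r, a < r → r < t → ¬ S r) := by
  obtain ⟨E, hE, h⟩ := h
  obtain ⟨a, h1, h2⟩ := exists_left hE t
  refine ⟨a, h1, ?_⟩
  by_contra h3
  push Not at h3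
  obtain ⟨⟨r, h4, h5, h6⟩, r', h7, h8, h9⟩ := h3
  refine h6 (h r' r (same_of (fun e he => ?_) h7 h8 h4 h5) h9)
  rcases lt_or_ge e t with h10 | h10
  · exact Or.inl (h2 e he h10)
  · exact Or.inr h10

theorem Tame.right (h : Tame S) (t : Q) :
    ∃ b, t < b ∧ ((∀ r, t < r → r < b → S r) ∨ ∀ r, t < r → r < b → ¬ S r) := by
  obtain ⟨E, hE, h⟩ := h
  obtain ⟨b, h1, h2⟩ := exists_right hE t
  refine ⟨b, h1, ?_⟩
  by_contra h3
  push Not at h3
  obtain ⟨⟨r, h4, h5, h6⟩, r', h7, h8, h9⟩ := h3
  refine h6 (h r' r (same_of (fun e he => ?_) h7 h8 h4 h5) h9)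
  rcases lt_or_ge t e with h10 | h10
  · exact Or.inr (h2 e he h10)
  · exact Or.inl h10

/-- Greatest lower bounds. -/
def Glb (S : Q → Prop) (q : Q) : Prop := (∀ r, S r → q ≤ r) ∧ ∀ b, (∀ r, S r → b ≤ r) → b ≤ q

theorem Glb.unique {q q' : Q} (h : Glb S q) (h' : Glb S q') : q = q' :=
  le_antisymm (h'.2 q h.1) (h.2 q' h'.1)

theorem Tame.glb (h : Tame S) {s b : Q} (hs : S s) (hb : ∀ r, S r → b ≤ r) : ∃ q, Glb S q := by
  obtain ⟨E, hE, h⟩ := h
  have hF : {e | (e ∈ E ∨ e = b) ∧ ∀ r, S r → e ≤ r}.Finite :=
    (hE.insert b).subset fun e he => he.1.symm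
  obtain ⟨m, ⟨-, hm⟩, h1⟩ := Set.exists_max_image _ id hF ⟨b, Or.inr rfl, hb⟩
  refine ⟨m, hm, fun c hc => ?_⟩
  by_contra h2
  rw [not_le] at h2
  obtain ⟨e', h3, h4⟩ := exists_right hE m
  have h5 : ∃ s', S s' ∧ ∀ e ∈ E, m < e → s' < e := by
    by_contra h5
    push Not at h5
    have hG : {e | e ∈ E ∧ m < e}.Finite := hE.subset fun e he => he.1
    obtain ⟨e, h6, h7, -⟩ := h5 s hs
    obtain ⟨e₀, ⟨h8, h9⟩, h10⟩ := Set.exists_min_image _ id hG ⟨e, h6, h7⟩
    have h11 : e₀ ≤ m := h1 e₀ ⟨Or.inl h8, fun r hr => by
      obtain ⟨e, h6, h7, h12⟩ := h5 r hr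
      exact (h10 e ⟨h6, h7⟩).trans h12⟩
    exact absurd h9 (not_lt.2 h11)
  obtain ⟨s', h6, h7⟩ := h5
  obtain ⟨q, h8, h9⟩ := exists_between h2
  have h10 : c ≤ s' := hc s' h6
  refine absurd (hc q (h s' q (fun e he => ?_) h6)) (not_le.2 h9)
  rcases lt_or_ge m e with h11 | h11
  · have := h7 e he h11
    exact ⟨iff_of_false (not_lt.2 this.le) (not_lt.2 (h9.le.trans (h10.trans this.le))),
      iff_of_true this (lt_of_lt_of_le h9 (h10.trans this.le))⟩
  · exact ⟨iff_of_true (lt_of_le_of_lt h11 (lt_of_lt_of_le h2 h10)) (lt_of_le_of_lt h11 h8),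
      iff_of_false (not_lt.2 (h11.trans (h2.le.trans h10))) (not_lt.2 (h11.trans h8.le))⟩

theorem Tame.unbdd [Nonempty Q] (h : Tame S) (hb : ∀ b, ∃ r, S r ∧ r < b) :
    ∃ a, ∀ r, r < a → S r := by
  obtain ⟨E, hE, h⟩ := h
  obtain ⟨a, ha⟩ := hE.bddBelow
  obtain ⟨s, h1, h2⟩ := hb a
  refine ⟨a, fun r hr => h s r (fun e he => ?_) h1⟩
  have h3 : a ≤ e := ha he
  exact ⟨iff_of_false (not_lt.2 (h2.le.trans h3)) (not_lt.2 (hr.le.trans h3)),
    iff_of_true (lt_of_lt_of_le h2 h3) (lt_of_lt_of_le hr h3)⟩

/-- The points above some element of `S` that are not in `S`. -/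
def Up (S : Q → Prop) (r : Q) : Prop := ¬ S r ∧ ∃ s, S s ∧ s < r

theorem candidates [Nonempty Q] (l h : Q) : ∃ C : Set Q, C.Finite ∧ ∀ S : Q → Prop, Tame S →
    Tame (Up S) → (∃ s, S s) → (∀ q, Glb S q → q = l) → (∀ q, Glb (Up S) q → q = h) →
    ∃ c ∈ C, S c := by
  obtain ⟨l', hl'⟩ := exists_gt l
  obtain ⟨h', hh'⟩ := exists_lt h
  have hm : ∃ m, l < h → l < m ∧ m < h := by
    by_cases h1 : l < h
    · obtain ⟨m, hm⟩ := exists_between h1
      exact ⟨m, fun _ => hm⟩
    · exact ⟨l, fun h2 => absurd h2 h1⟩
  obtain ⟨m, hm⟩ := hm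
  refine ⟨{l, l', h', m}, Set.toFinite _, fun S h1 h2 ⟨s, hs⟩ h3 h4 => ?_⟩
  by_cases h5 : ∃ b, ∀ r, S r → b ≤ r
  · obtain ⟨b, hb⟩ := h5
    obtain ⟨g, hg⟩ := h1.glb hs hb
    obtain rfl := h3 g hg
    have h6 : ∀ c, g < c → ∃ s, S s ∧ s < c := fun c hc => by
      by_contra h6
      push Not at h6
      exact absurd (hg.2 c h6) (not_le.2 hc)
    by_cases h7 : S g
    · exact ⟨g, by simp, h7⟩
    by_cases h8 : ∃ r, Up S r
    · obtain ⟨r, hr⟩ := h8
      obtain ⟨k, hk⟩ := h2.glb hr (b := g) fun r' ⟨_, s', h9, h10⟩ => (hg.1 s' h9).trans h10.le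
      obtain rfl := h4 k hk
      have h9 : g < k := by
        obtain ⟨b', h10, h11 | h11⟩ := h1.right g
        · refine lt_of_lt_of_le h10 (hk.2 b' fun r' ⟨h12, s', h13, h14⟩ => ?_)
          by_contra h15
          exact h12 (h11 r' (lt_of_le_of_lt (hg.1 s' h13) h14) (not_le.1 h15))
        · obtain ⟨s', h12, h13⟩ := h6 b' h10
          refine absurd h12 (h11 s' (lt_of_le_of_ne (hg.1 s' h12) fun h14 => h7 ?_) h13)
          rw [h14]
          exact h12
      refine ⟨m, by simp, ?_⟩
      by_contra h10
      exact absurd (hk.1 m ⟨h10, h6 m (hm h9).1⟩) (not_le.2 (hm h9).2)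
    · refine ⟨l', by simp, ?_⟩
      by_contra h10
      exact h8 ⟨l', h10, h6 l' hl'⟩
  · push Not at h5
    refine ⟨h', by simp, ?_⟩
    by_contra h6
    obtain ⟨a, ha⟩ := h1.unbdd h5
    obtain ⟨k, hk⟩ := h2.glb (s := h') (b := a) ⟨h6, h5 h'⟩ fun r hr => by
      by_contra h7
      exact hr.1 (ha r (not_le.1 h7))
    obtain rfl := h4 k hk
    exact absurd (hk.1 h' ⟨h6, h5 h'⟩) (not_le.2 hh')

end order

theorem pigeon {α β : Type*} {X : α → Prop} {R : α → β → Prop} {C : Set β} (hC : C.Finite)
    (hX : {x | X x}.Infinite) (h : ∀ x, X x → ∃ c ∈ C, R x c) :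
    ∃ c, {x | X x ∧ R x c}.Infinite := by
  by_contra h1
  push Not at h1
  refine hX ((hC.biUnion fun c _ => h1 c).subset fun x hx => ?_)
  obtain ⟨c, h2, h3⟩ := h x hx
  exact Set.mem_biUnion h2 ⟨hx, h3⟩

section dich

variable {N : Type u} [L.Structure N] [hN : IsModel N] [Std N]
variable {α β Q : Type u} [ITy N α] [ITy N β] [ITy N Q]

variable (N α) in
/-- The type maps onto a dense linear order without endpoints. -/
def Gd : Prop := ∃ (Λ : Type u) (_ : ITy N Λ) (_ : LinearOrder Λ) (_ : ILE N Λ),
  DenselyOrdered Λ ∧ NoMaxOrder Λ ∧ NoMinOrder Λ ∧ Nonempty Λ ∧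
    ∃ f : α → Λ, IntF N f ∧ Function.Surjective f

theorem dich_wo {lt : β → β → Prop} (hlt : Int N (fun q : β × β => lt q.1 q.2))
    [hw : IsWellOrder β lt] {X : α → Prop} (hX : Int N X) (hinf : {x | X x}.Infinite)
    {R : α → β → Prop} (hR : Int N (fun q : α × β => R q.1 q.2)) (hne : ∀ x, X x → ∃ b, R x b) :
    Gd N α ∨ ∃ b, {x | X x ∧ R x b}.Infinite := by
  obtain ⟨x₀, hx₀⟩ := hinf.nonempty
  obtain ⟨b₀, -⟩ := hne x₀ hx₀
  let m : α → β := fun x => the (fun b => R x b ∧ ∀ b', lt b' b → ¬ R x b') b₀
  have hm : IntF N m := IntF.the (by (repeat' (first | with_reducible exact IntF.id | with_reducible exact IntF.fst' | with_reducible exact IntF.snd' | with_reducible exact IntF.const _ | with_reducible exact Int.const _ | assumption | with_reducible apply Int.and | with_reducible apply Int.or | with_reducible apply Int.not | with_reducible apply Int.imp | with_reducible apply Int.iff | with_reducible apply Int.ne | with_reducible apply Int.eq | with_reducible apply Int.mem | with_reducible apply Int.subset | with_reducible apply Int.ltN | with_reducible apply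 Int.leN | with_reducible_and_instances apply Int.le | with_reducible_and_instances apply Int.lt | with_reducible apply Int.all | with_reducible apply Int.ex | with_reducible apply IntF.fst | with_reducible apply IntF.snd | with_reducible apply IntF.app | with_reducible apply IntF.inl | with_reducible apply IntF.inr | with_reducible_and_instances apply IntF.mul | with_reducible_and_instances apply IntF.inv | with_reducible_and_instances apply IntF.add | with_reducible_and_instances apply IntF.sub | with_reducible_and_instances apply IntF.neg | with_reducible_and_instances apply IntF.div | with_reducible_and_instances apply IntF.smul | with_reducible apply IntF.succ | with_reducible apply IntF.val | with_reducible apply IntF.mk | (with_reducible refine Int.comp ?_ ?_; assumption) | (with_reducible refine Int.comp₂ ?_ ?_ ?_; assumption) | (with_reducible refine Int.comp₃ ?_ ?_ ?_ ?_; assumption) | (with_reducible refine Int.comp₄ ?_ ?_ ?_ ?_ ?_; assumption) | (with_reducible refine IntF.comp ?_ ?_; assumption) | (with_reducible refine IntF.comp₂ ?_ ?_ ?_; assumption)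 | (with_reducible refine IntF.comp₃ ?_ ?_ ?_ ?_; assumption) | with_reducible apply IntF.pair))) (IntF.const _)
  have hm' : ∀ x, X x → R x (m x) := fun x hx => by
    obtain ⟨b, h1, h2⟩ := hw.wf.has_min {b | R x b} (hne x hx)
    refine (the_spec (p := fun b => R x b ∧ ∀ b', lt b' b → ¬ R x b')
      ⟨b, ⟨h1, fun b' h3 h4 => h2 b' h4 h3⟩, fun b' h3 => ?_⟩).1
    rcases trichotomous_of lt b b' with h4 | h4 | h4
    · exact absurd h1 (h3.2 b h4)
    · exact h4.symm
    · exact absurd h4 (h2 b' h3.1)
  by_cases hW : {b | ∃ x, X x ∧ m x = b}.Finite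
  · exact Or.inr (pigeon hW hinf fun x hx => ⟨m x, ⟨x, hx, rfl⟩, hm' x hx⟩)
  left
  obtain ⟨g, hg, hgs⟩ := exists_surj_rat (M := N)
  have hk : IntF N (fun x => ofN N {b | (∃ y, X y ∧ m y = b) ∧ lt b (m x)}.ncard) :=
    IntF.ncard (p := fun x b => (∃ y, X y ∧ m y = b) ∧ lt b (m x)) (by (repeat' (first | with_reducible exact IntF.id | with_reducible exact IntF.fst' | with_reducible exact IntF.snd' | with_reducible exact IntF.const _ | with_reducible exact Int.const _ | assumption | with_reducible apply Int.and | with_reducible apply Int.or | with_reducible apply Int.not | with_reducible apply Int.imp | with_reducible apply Int.iff | with_reducible apply Int.ne | with_reducible apply Int.eq | with_reducible apply Int.mem | with_reducible apply Int.subset | with_reducible apply Int.ltN | with_reducible apply Int.leN | with_reducible_and_instances apply Int.le | with_reducible_and_instances apply Int.lt | with_reducible apply Int.all | with_reducible apply Int.ex | with_reducible apply IntF.fst | with_reducible apply IntF.snd | with_reducible apply IntF.app |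 with_reducible apply IntF.inl | with_reducible apply IntF.inr | with_reducible_and_instances apply IntF.mul | with_reducible_and_instances apply IntF.inv | with_reducible_and_instances apply IntF.add | with_reducible_and_instances apply IntF.sub | with_reducible_and_instances apply IntF.neg | with_reducible_and_instances apply IntF.div | with_reducible_and_instances apply IntF.smul | with_reducible apply IntF.succ | with_reducible apply IntF.val | with_reducible apply IntF.mk | (with_reducible refine Int.comp ?_ ?_; assumption) | (with_reducible refine Int.comp₂ ?_ ?_ ?_; assumption) | (with_reducible refine Int.comp₃ ?_ ?_ ?_ ?_; assumption) | (with_reducible refine Int.comp₄ ?_ ?_ ?_ ?_ ?_; assumption) | (with_reducible refine IntF.comp ?_ ?_; assumption) | (with_reducible refine IntF.comp₂ ?_ ?_ ?_; assumption) | (with_reducible refine IntF.comp₃ ?_ ?_ ?_ ?_; assumption) | with_reducible apply IntF.pair)))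
  refine ⟨IQ N, inferInstance, inferInstance, inferInstance, inferInstance, inferInstance,
    inferInstance, inferInstance, _, IntF.comp hg hk, hgs.comp fun n => ?_⟩
  obtain ⟨n, rfl⟩ := Std.surj n
  have key : ∀ S : Set β, S.Finite → (∀ b ∈ S, ∃ x, X x ∧ m x = b) →
      (∀ b ∈ S, ∀ b', (∃ x, X x ∧ m x = b') → lt b' b → b' ∈ S) →
      ∃ b, (∃ x, X x ∧ m x = b) ∧ b ∉ S ∧ {b' | (∃ y, X y ∧ m y = b') ∧ lt b' b} = S := by
    intro S h1 h2 h3
    obtain ⟨b, h4, h5⟩ := Set.Infinite.exists_notMem_finite hW h1
    obtain ⟨b, ⟨h6, h7⟩, h8⟩ := hw.wf.has_min {b | (∃ x, X x ∧ m x = b) ∧ b ∉ S} ⟨b, h4, h5⟩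
    refine ⟨b, h6, h7, Set.ext fun b' => ⟨fun ⟨h9, h10⟩ => ?_, fun h9 => ⟨h2 b' h9, ?_⟩⟩⟩
    · by_contra h11
      exact h8 b' ⟨h9, h11⟩ h10
    · rcases trichotomous_of lt b b' with h10 | h10 | h10
      · exact absurd (h3 b' h9 b h6 h10) h7
      · exact absurd (h10 ▸ h9) h7
      · exact h10
  have key2 : ∀ n : ℕ, ∃ S : Set β, S.Finite ∧ (∀ b ∈ S, ∃ x, X x ∧ m x = b) ∧
      (∀ b ∈ S, ∀ b', (∃ x, X x ∧ m x = b') → lt b' b → b' ∈ S) ∧ S.ncard = n := by
    intro n
    induction n with
    | zero => exact ⟨∅, Set.finite_empty, by simp, by simp, by simp⟩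
    | succ n ih =>
      obtain ⟨S, h1, h2, h3, h4⟩ := ih
      obtain ⟨b, h5, h6, h7⟩ := key S h1 h2 h3
      refine ⟨insert b S, h1.insert b, ?_, ?_, by rw [Set.ncard_insert_of_notMem h6 h1, h4]⟩
      · rintro b' (rfl | h8)
        · exact h5
        · exact h2 b' h8
      · rintro b' (rfl | h8) b'' h9 h10
        · exact Or.inr (h7 ▸ ⟨h9, h10⟩)
        · exact Or.inr (h3 b' h8 b'' h9 h10)
  obtain ⟨S, h1, h2, h3, h4⟩ := key2 n
  obtain ⟨b, ⟨x, -, rfl⟩, -, h7⟩ := key S h1 h2 h3
  exact ⟨x, by rw [h7, h4]⟩

variable [LinearOrder Q] [DenselyOrdered Q] [NoMaxOrder Q] [NoMinOrder Q] [Nonempty Q] [ILE N Q]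
variable (hT : ∀ S : Q → Prop, Int N S → Tame S)
include hT

theorem dich_fun {X : α → Prop} (hX : Int N X) (hinf : {x | X x}.Infinite) {g : α → Q}
    (hg : IntF N g) : Gd N α ∨ ∃ q, {x | X x ∧ g x = q}.Infinite := by
  classical
  by_cases hW : {q | ∃ x, X x ∧ g x = q}.Finite
  · exact Or.inr (pigeon (R := fun x q => g x = q) hW hinf fun x hx => ⟨g x, ⟨x, hx, rfl⟩, rfl⟩)
  left
  obtain ⟨a, b, hab, h⟩ := (hT (fun q => ∃ x, X x ∧ g x = q) (by (repeat' (first | with_reducible exact IntF.id | with_reducible exact IntF.fst' | with_reducible exact IntF.snd' | with_reducible exact IntF.const _ | with_reducible exact Int.const _ | assumption | with_reducible apply Int.and | with_reducible apply Int.or | with_reducible apply Int.not | with_reducible apply Int.imp | with_reducible apply Int.iff | with_reducible apply Int.ne | with_reducible apply Int.eq | with_reducible apply Int.mem | with_reducible apply Int.subset | with_reducible apply Int.ltN | with_reducible apply Int.leN | with_reducible_and_instances apply Int.le | with_reducible_and_instances apply Int.lt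 | with_reducible apply Int.all | with_reducible apply Int.ex | with_reducible apply IntF.fst | with_reducible apply IntF.snd | with_reducible apply IntF.app | with_reducible apply IntF.inl | with_reducible apply IntF.inr | with_reducible_and_instances apply IntF.mul | with_reducible_and_instances apply IntF.inv | with_reducible_and_instances apply IntF.add | with_reducible_and_instances apply IntF.sub | with_reducible_and_instances apply IntF.neg | with_reducible_and_instances apply IntF.div | with_reducible_and_instances apply IntF.smul | with_reducible apply IntF.succ | with_reducible apply IntF.val | with_reducible apply IntF.mk | (with_reducible refine Int.comp ?_ ?_; assumption) | (with_reducible refine Int.comp₂ ?_ ?_ ?_; assumption) | (with_reducible refine Int.comp₃ ?_ ?_ ?_ ?_; assumption) | (with_reducible refine Int.comp₄ ?_ ?_ ?_ ?_ ?_; assumption) | (with_reducible refine IntF.comp ?_ ?_; assumption) | (with_reducible refine IntF.comp₂ ?_ ?_ ?_; assumption) | (with_reducible refine IntF.comp₃ ?_ ?_ ?_ ?_; assumption) | with_reducible apply IntF.pair)))).interval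 hW
  obtain ⟨m, hm⟩ := exists_between hab
  have hI : Fact (Int N (fun q : Q => a < q ∧ q < b)) := ⟨by (repeat' (first | with_reducible exact IntF.id | with_reducible exact IntF.fst' | with_reducible exact IntF.snd' | with_reducible exact IntF.const _ | with_reducible exact Int.const _ | assumption | with_reducible apply Int.and | with_reducible apply Int.or | with_reducible apply Int.not | with_reducible apply Int.imp | with_reducible apply Int.iff | with_reducible apply Int.ne | with_reducible apply Int.eq | with_reducible apply Int.mem | with_reducible apply Int.subset | with_reducible apply Int.ltN | with_reducible apply Int.leN | with_reducible_and_instances apply Int.le | with_reducible_and_instances apply Int.lt | with_reducible apply Int.all | with_reducible apply Int.ex | with_reducible apply IntF.fst | with_reducible apply IntF.snd | with_reducible apply IntF.app | with_reducible apply IntF.inl | with_reducible apply IntF.inr | with_reducible_and_instances apply IntF.mul | with_reducible_and_instances apply IntF.inv | with_reducible_and_instances apply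 IntF.add | with_reducible_and_instances apply IntF.sub | with_reducible_and_instances apply IntF.neg | with_reducible_and_instances apply IntF.div | with_reducible_and_instances apply IntF.smul | with_reducible apply IntF.succ | with_reducible apply IntF.val | with_reducible apply IntF.mk | (with_reducible refine Int.comp ?_ ?_; assumption) | (with_reducible refine Int.comp₂ ?_ ?_ ?_; assumption) | (with_reducible refine Int.comp₃ ?_ ?_ ?_ ?_; assumption) | (with_reducible refine Int.comp₄ ?_ ?_ ?_ ?_ ?_; assumption) | (with_reducible refine IntF.comp ?_ ?_; assumption) | (with_reducible refine IntF.comp₂ ?_ ?_ ?_; assumption) | (with_reducible refine IntF.comp₃ ?_ ?_ ?_ ?_; assumption) | with_reducible apply IntF.pair))⟩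
  have hle : ILE N {q : Q // a < q ∧ q < b} := ⟨by
    change Int N (fun q : {q : Q // a < q ∧ q < b} × {q : Q // a < q ∧ q < b} => q.1.1 ≤ q.2.1)
    (repeat' (first | with_reducible exact IntF.id | with_reducible exact IntF.fst' | with_reducible exact IntF.snd' | with_reducible exact IntF.const _ | with_reducible exact Int.const _ | assumption | with_reducible apply Int.and | with_reducible apply Int.or | with_reducible apply Int.not | with_reducible apply Int.imp | with_reducible apply Int.iff | with_reducible apply Int.ne | with_reducible apply Int.eq | with_reducible apply Int.mem | with_reducible apply Int.subset | with_reducible apply Int.ltN | with_reducible apply Int.leN | with_reducible_and_instances apply Int.le | with_reducible_and_instances apply Int.lt | with_reducible apply Int.all | with_reducible apply Int.ex | with_reducible apply IntF.fst | with_reducible apply IntF.snd | with_reducible apply IntF.app | with_reducible apply IntF.inl | with_reducible apply IntF.inr | with_reducible_and_instances apply IntF.mul | with_reducible_and_instances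 apply IntF.inv | with_reducible_and_instances apply IntF.add | with_reducible_and_instances apply IntF.sub | with_reducible_and_instances apply IntF.neg | with_reducible_and_instances apply IntF.div | with_reducible_and_instances apply IntF.smul | with_reducible apply IntF.succ | with_reducible apply IntF.val | with_reducible apply IntF.mk | (with_reducible refine Int.comp ?_ ?_; assumption) | (with_reducible refine Int.comp₂ ?_ ?_ ?_; assumption) | (with_reducible refine Int.comp₃ ?_ ?_ ?_ ?_; assumption) | (with_reducible refine Int.comp₄ ?_ ?_ ?_ ?_ ?_; assumption) | (with_reducible refine IntF.comp ?_ ?_; assumption) | (with_reducible refine IntF.comp₂ ?_ ?_ ?_; assumption) | (with_reducible refine IntF.comp₃ ?_ ?_ ?_ ?_; assumption) | with_reducible apply IntF.pair))⟩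
  refine ⟨{q : Q // a < q ∧ q < b}, inferInstance, inferInstance, hle, ⟨fun x y hxy => ?_⟩,
    ⟨fun x => ?_⟩, ⟨fun x => ?_⟩, ⟨⟨m, hm⟩⟩,
    fun x => ⟨if a < g x ∧ g x < b then g x else m, by split_ifs with h1; exacts [h1, hm]⟩,
    IntF.mk (IntF.ite (by (repeat' (first | with_reducible exact IntF.id | with_reducible exact IntF.fst' | with_reducible exact IntF.snd' | with_reducible exact IntF.const _ | with_reducible exact Int.const _ | assumption | with_reducible apply Int.and | with_reducible apply Int.or | with_reducible apply Int.not | with_reducible apply Int.imp | with_reducible apply Int.iff | with_reducible apply Int.ne | with_reducible apply Int.eq | with_reducible apply Int.mem | with_reducible apply Int.subset | with_reducible apply Int.ltN | with_reducible apply Int.leN | with_reducible_and_instances apply Int.le | with_reducible_and_instances apply Int.lt | with_reducible apply Int.all | with_reducible apply Int.ex | with_reducible apply IntF.fst | with_reducible apply IntF.snd | with_reducible apply IntF.app | with_reducible apply IntF.inl | with_reducible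 apply IntF.inr | with_reducible_and_instances apply IntF.mul | with_reducible_and_instances apply IntF.inv | with_reducible_and_instances apply IntF.add | with_reducible_and_instances apply IntF.sub | with_reducible_and_instances apply IntF.neg | with_reducible_and_instances apply IntF.div | with_reducible_and_instances apply IntF.smul | with_reducible apply IntF.succ | with_reducible apply IntF.val | with_reducible apply IntF.mk | (with_reducible refine Int.comp ?_ ?_; assumption) | (with_reducible refine Int.comp₂ ?_ ?_ ?_; assumption) | (with_reducible refine Int.comp₃ ?_ ?_ ?_ ?_; assumption) | (with_reducible refine Int.comp₄ ?_ ?_ ?_ ?_ ?_; assumption) | (with_reducible refine IntF.comp ?_ ?_; assumption) | (with_reducible refine IntF.comp₂ ?_ ?_ ?_; assumption) | (with_reducible refine IntF.comp₃ ?_ ?_ ?_ ?_; assumption) | with_reducible apply IntF.pair))) hg (IntF.const _)), fun q => ?_⟩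
  · obtain ⟨z, h1, h2⟩ := exists_between (show x.1 < y.1 from hxy)
    exact ⟨⟨z, x.2.1.trans h1, h2.trans y.2.2⟩, h1, h2⟩
  · obtain ⟨z, h1, h2⟩ := exists_between x.2.2
    exact ⟨⟨z, x.2.1.trans h1, h2⟩, h1⟩
  · obtain ⟨z, h1, h2⟩ := exists_between x.2.1
    exact ⟨⟨z, h1, h2.trans x.2.2⟩, h2⟩
  · obtain ⟨x, -, h1⟩ := h q.1 q.2.1 q.2.2
    refine ⟨x, Subtype.ext ?_⟩
    simp only [h1, q.2, and_self, if_true]

theorem dich_rel {X : α → Prop} (hX : Int N X) (hinf : {x | X x}.Infinite)
    {R : α → Q → Prop} (hR : Int N (fun q : α × Q => R q.1 q.2)) (hne : ∀ x, X x → ∃ q, R x q) :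
    Gd N α ∨ ∃ q, {x | X x ∧ R x q}.Infinite := by
  obtain ⟨q₀⟩ : Nonempty Q := inferInstance
  have hU : Int N (fun q : α × Q => Up (R q.1) q.2) := by
    unfold Up
    (repeat' (first | with_reducible exact IntF.id | with_reducible exact IntF.fst' | with_reducible exact IntF.snd' | with_reducible exact IntF.const _ | with_reducible exact Int.const _ | assumption | with_reducible apply Int.and | with_reducible apply Int.or | with_reducible apply Int.not | with_reducible apply Int.imp | with_reducible apply Int.iff | with_reducible apply Int.ne | with_reducible apply Int.eq | with_reducible apply Int.mem | with_reducible apply Int.subset | with_reducible apply Int.ltN | with_reducible apply Int.leN | with_reducible_and_instances apply Int.le | with_reducible_and_instances apply Int.lt | with_reducible apply Int.all | with_reducible apply Int.ex | with_reducible apply IntF.fst | with_reducible apply IntF.snd | with_reducible apply IntF.app | with_reducible apply IntF.inl | with_reducible apply IntF.inr | with_reducible_and_instances apply IntF.mul | with_reducible_and_instances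 apply IntF.inv | with_reducible_and_instances apply IntF.add | with_reducible_and_instances apply IntF.sub | with_reducible_and_instances apply IntF.neg | with_reducible_and_instances apply IntF.div | with_reducible_and_instances apply IntF.smul | with_reducible apply IntF.succ | with_reducible apply IntF.val | with_reducible apply IntF.mk | (with_reducible refine Int.comp ?_ ?_; assumption) | (with_reducible refine Int.comp₂ ?_ ?_ ?_; assumption) | (with_reducible refine Int.comp₃ ?_ ?_ ?_ ?_; assumption) | (with_reducible refine Int.comp₄ ?_ ?_ ?_ ?_ ?_; assumption) | (with_reducible refine IntF.comp ?_ ?_; assumption) | (with_reducible refine IntF.comp₂ ?_ ?_ ?_; assumption) | (with_reducible refine IntF.comp₃ ?_ ?_ ?_ ?_; assumption) | with_reducible apply IntF.pair))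
  have hthe : ∀ {R : α → Q → Prop}, Int N (fun q : α × Q => R q.1 q.2) →
      IntF N (fun x => the (Glb (R x)) q₀) := fun {R} hR => IntF.the (p := fun x => Glb (R x)) (by
    unfold Glb
    (repeat' (first | with_reducible exact IntF.id | with_reducible exact IntF.fst' | with_reducible exact IntF.snd' | with_reducible exact IntF.const _ | with_reducible exact Int.const _ | assumption | with_reducible apply Int.and | with_reducible apply Int.or | with_reducible apply Int.not | with_reducible apply Int.imp | with_reducible apply Int.iff | with_reducible apply Int.ne | with_reducible apply Int.eq | with_reducible apply Int.mem | with_reducible apply Int.subset | with_reducible apply Int.ltN | with_reducible apply Int.leN | with_reducible_and_instances apply Int.le | with_reducible_and_instances apply Int.lt | with_reducible apply Int.all | with_reducible apply Int.ex | with_reducible apply IntF.fst | with_reducible apply IntF.snd | with_reducible apply IntF.app | with_reducible apply IntF.inl | with_reducible apply IntF.inr | with_reducible_and_instances apply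 IntF.mul | with_reducible_and_instances apply IntF.inv | with_reducible_and_instances apply IntF.add | with_reducible_and_instances apply IntF.sub | with_reducible_and_instances apply IntF.neg | with_reducible_and_instances apply IntF.div | with_reducible_and_instances apply IntF.smul | with_reducible apply IntF.succ | with_reducible apply IntF.val | with_reducible apply IntF.mk | (with_reducible refine Int.comp ?_ ?_; assumption) | (with_reducible refine Int.comp₂ ?_ ?_ ?_; assumption) | (with_reducible refine Int.comp₃ ?_ ?_ ?_ ?_; assumption) | (with_reducible refine Int.comp₄ ?_ ?_ ?_ ?_ ?_; assumption) | (with_reducible refine IntF.comp ?_ ?_; assumption) | (with_reducible refine IntF.comp₂ ?_ ?_ ?_; assumption) | (with_reducible refine IntF.comp₃ ?_ ?_ ?_ ?_; assumption) | with_reducible apply IntF.pair))) (IntF.const _)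
  have h1 := hthe hR
  have h2 := hthe (R := fun x => Up (R x)) hU
  rcases dich_fun hT hX hinf h1 with h3 | ⟨l, h3⟩
  · exact Or.inl h3
  rcases dich_fun hT (X := fun x => X x ∧ the (Glb (R x)) q₀ = l)
    (Int.and hX (Int.eq h1 (IntF.const _))) h3 h2 with h4 | ⟨h, h4⟩
  · exact Or.inl h4
  obtain ⟨C, h5, h6⟩ := candidates l h
  obtain ⟨c, hc⟩ := pigeon (R := R) h5 h4 fun x ⟨⟨h7, h8⟩, h9⟩ =>
    h6 (R x) (hT _ (hR.slice x)) (hT _ (Int.slice (p := fun x => Up (R x)) hU x)) (hne x h7)
      (fun q hq => (the_eq ⟨q, hq, fun q' hq' => hq'.unique hq⟩ hq).symm.trans h8)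
      (fun q hq => (the_eq ⟨q, hq, fun q' hq' => hq'.unique hq⟩ hq).symm.trans h9)
  exact Or.inr ⟨c, hc.mono fun x hx => ⟨hx.1.1.1, hx.2⟩⟩

end dich

end Pool.Agent.Helper672.ZFA.H875
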