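import Pool.Agent.H875Z.Ins.Std

/-!
# A set that maps onto a dense linear order has a non-scattered compactification
-/

namespace Pool.Agent.Helper672.ZFA.H875

open FirstOrder FirstOrder.Language
open Pool.Agent.Helper672.Plain (LSet)
open Pool.Agent.Helper672.ZFA.H635
open Pool.Agent.H875Z.Ins

set_option linter.unusedSectionVars false
set_option synthInstance.maxSize 2000

universe u

section typed

variable {N : Type u} [L.Structure N] [hN : IsModel N] [Std N]
variable {α Λ : Type u} [ITy N α] [ITy N Λ] [LinearOrder Λ] [ILE N Λ]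

variable (N Λ) in
/-- Initial segments. -/
def IsCut (c : IPow N Λ) : Prop := ∀ a b, a ≤ b → b ∈ c → a ∈ c

instance : Fact (Int N (IsCut N Λ)) := ⟨by
  unfold IsCut
  (repeat' (first | with_reducible exact IntF.id | with_reducible exact IntF.fst' | with_reducible exact IntF.snd' | with_reducible exact IntF.const _ | with_reducible exact Int.const _ | assumption | with_reducible apply Int.and | with_reducible apply Int.or | with_reducible apply Int.not | with_reducible apply Int.imp | with_reducible apply Int.iff | with_reducible apply Int.ne | with_reducible apply Int.eq | with_reducible apply Int.mem | with_reducible apply Int.subset | with_reducible apply Int.ltN | with_reducible apply Int.leN | with_reducible_and_instances apply Int.le | with_reducible_and_instances apply Int.lt | with_reducible apply Int.all | with_reducible apply Int.ex | with_reducible apply IntF.fst | with_reducible apply IntF.snd | with_reducible apply IntF.app | with_reducible apply IntF.inl | with_reducible apply IntF.inr | with_reducible_and_instances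 apply IntF.mul | with_reducible_and_instances apply IntF.inv | with_reducible_and_instances apply IntF.add | with_reducible_and_instances apply IntF.sub | with_reducible_and_instances apply IntF.neg | with_reducible_and_instances apply IntF.div | with_reducible_and_instances apply IntF.smul | with_reducible apply IntF.succ | with_reducible apply IntF.val | with_reducible apply IntF.mk | (with_reducible refine Int.comp ?_ ?_; assumption) | (with_reducible refine Int.comp₂ ?_ ?_ ?_; assumption) | (with_reducible refine Int.comp₃ ?_ ?_ ?_ ?_; assumption) | (with_reducible refine Int.comp₄ ?_ ?_ ?_ ?_ ?_; assumption) | (with_reducible refine IntF.comp ?_ ?_; assumption) | (with_reducible refine IntF.comp₂ ?_ ?_ ?_; assumption) | (with_reducible refine IntF.comp₃ ?_ ?_ ?_ ?_; assumption) | with_reducible apply IntF.pair))⟩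

variable (N Λ) in
/-- Initial segments. -/
abbrev Cut : Type u := {c : IPow N Λ // IsCut N Λ c}

/-- The point `k` lies above `l`. -/
def W (f : α → Λ) (l : Λ) (k : α ⊕ Cut N Λ) : Prop :=
  (∃ d, k = Sum.inl d ∧ l ≤ f d) ∨ ∃ c : Cut N Λ, k = Sum.inr c ∧ l ∈ c.1

variable {f : α → Λ}

@[simp] theorem W_inl {l : Λ} {d : α} : W (N := N) f l (Sum.inl d) ↔ l ≤ f d := by
  simp [W]

@[simp] theorem W_inr {l : Λ} {c : Cut N Λ} : W f l (Sum.inr c) ↔ l ∈ c.1 := by
  simp [W]

theorem W.anti {l l' : Λ} {k : α ⊕ Cut N Λ} (h : W f l k) (hl : l' ≤ l) : W f l' k := by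
  rcases k with d | c
  · exact W_inl.2 (hl.trans (W_inl.1 h))
  · exact W_inr.2 (c.2 _ _ hl (W_inr.1 h))

theorem int_W (hf : IntF N f) : Int N (fun q : Λ × (α ⊕ Cut N Λ) => W f q.1 q.2) := by
  unfold W
  (repeat' (first | with_reducible exact IntF.id | with_reducible exact IntF.fst' | with_reducible exact IntF.snd' | with_reducible exact IntF.const _ | with_reducible exact Int.const _ | assumption | with_reducible apply Int.and | with_reducible apply Int.or | with_reducible apply Int.not | with_reducible apply Int.imp | with_reducible apply Int.iff | with_reducible apply Int.ne | with_reducible apply Int.eq | with_reducible apply Int.mem | with_reducible apply Int.subset | with_reducible apply Int.ltN | with_reducible apply Int.leN | with_reducible_and_instances apply Int.le | with_reducible_and_instances apply Int.lt | with_reducible apply Int.all | with_reducible apply Int.ex | with_reducible apply IntF.fst | with_reducible apply IntF.snd | with_reducible apply IntF.app | with_reducible apply IntF.inl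 | with_reducible apply IntF.inr | with_reducible_and_instances apply IntF.mul | with_reducible_and_instances apply IntF.inv | with_reducible_and_instances apply IntF.add | with_reducible_and_instances apply IntF.sub | with_reducible_and_instances apply IntF.neg | with_reducible_and_instances apply IntF.div | with_reducible_and_instances apply IntF.smul | with_reducible apply IntF.succ | with_reducible apply IntF.val | with_reducible apply IntF.mk | (with_reducible refine Int.comp ?_ ?_; assumption) | (with_reducible refine Int.comp₂ ?_ ?_ ?_; assumption) | (with_reducible refine Int.comp₃ ?_ ?_ ?_ ?_; assumption) | (with_reducible refine Int.comp₄ ?_ ?_ ?_ ?_ ?_; assumption) | (with_reducible refine IntF.comp ?_ ?_; assumption) | (with_reducible refine IntF.comp₂ ?_ ?_ ?_; assumption) | (with_reducible refine IntF.comp₃ ?_ ?_ ?_ ?_; assumption) | with_reducible apply IntF.pair))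

/-- Lower bounds. -/
def Lo (f : α → Λ) (a : Λ ⊕ PUnit.{u+1}) (k : α ⊕ Cut N Λ) : Prop := ∀ l, a = Sum.inl l → W f l k

/-- Upper bounds. -/
def Hi (f : α → Λ) (b : Λ ⊕ PUnit.{u+1}) (k : α ⊕ Cut N Λ) : Prop :=
  ∀ l, b = Sum.inl l → ¬ W f l k

theorem lo_inter (a a' : Λ ⊕ PUnit.{u+1}) : ∃ a'', ∀ k : α ⊕ Cut N Λ,
    Lo f a'' k ↔ Lo f a k ∧ Lo f a' k := by
  rcases a with l | x
  · rcases a' with l' | x
    · refine ⟨Sum.inl (max l l'), fun k => ?_⟩
      simp only [Lo, Sum.inl.injEq, forall_eq']
      refine ⟨fun h => ⟨h.anti (le_max_left _ _), h.anti (le_max_right _ _)⟩, fun h => ?_⟩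
      rcases max_choice l l' with h1 | h1 <;> rw [h1]
      · exact h.1
      · exact h.2
    · exact ⟨Sum.inl l, fun k => by simp [Lo]⟩
  · exact ⟨a', fun k => by simp [Lo]⟩

theorem hi_inter (a a' : Λ ⊕ PUnit.{u+1}) : ∃ a'', ∀ k : α ⊕ Cut N Λ,
    Hi f a'' k ↔ Hi f a k ∧ Hi f a' k := by
  rcases a with l | x
  · rcases a' with l' | x
    · refine ⟨Sum.inl (min l l'), fun k => ?_⟩
      simp only [Hi, Sum.inl.injEq, forall_eq']
      refine ⟨fun h => ⟨fun h1 => h (h1.anti (min_le_left _ _)),
        fun h1 => h (h1.anti (min_le_right _ _))⟩, fun h => ?_⟩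
      rcases min_choice l l' with h1 | h1 <;> rw [h1]
      · exact h.1
      · exact h.2
    · exact ⟨Sum.inl l, fun k => by simp [Hi]⟩
  · exact ⟨a', fun k => by simp [Hi]⟩

/-- Open sets. -/
def Op (f : α → Λ) (U : IPow N (α ⊕ Cut N Λ)) : Prop :=
  ∀ c : Cut N Λ, Sum.inr c ∈ U → ∃ a b, Lo f a (Sum.inr c) ∧ Hi f b (Sum.inr c) ∧
    (∀ c' : Cut N Λ, Lo f a (Sum.inr c') → Hi f b (Sum.inr c') → Sum.inr c' ∈ U) ∧
    {d | Lo (N := N) f a (Sum.inl d) ∧ Hi (N := N) f b (Sum.inl d) ∧ ¬ Sum.inl d ∈ U}.Finite

theorem int_Op (hf : IntF N f) : Int N (Op (N := N) f) := by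
  have h := int_W hf
  unfold Op Lo Hi
  (repeat' (first | with_reducible exact IntF.id | with_reducible exact IntF.fst' | with_reducible exact IntF.snd' | with_reducible exact IntF.const _ | with_reducible exact Int.const _ | assumption | with_reducible apply Int.and | with_reducible apply Int.or | with_reducible apply Int.not | with_reducible apply Int.imp | with_reducible apply Int.iff | with_reducible apply Int.ne | with_reducible apply Int.eq | with_reducible apply Int.mem | with_reducible apply Int.subset | with_reducible apply Int.ltN | with_reducible apply Int.leN | with_reducible_and_instances apply Int.le | with_reducible_and_instances apply Int.lt | with_reducible apply Int.all | with_reducible apply Int.ex | with_reducible apply IntF.fst | with_reducible apply IntF.snd | with_reducible apply IntF.app | with_reducible apply IntF.inl | with_reducible apply IntF.inr | with_reducible_and_instances apply IntF.mul | with_reducible_and_instances apply IntF.inv | with_reducible_and_instances apply IntF.add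 | with_reducible_and_instances apply IntF.sub | with_reducible_and_instances apply IntF.neg | with_reducible_and_instances apply IntF.div | with_reducible_and_instances apply IntF.smul | with_reducible apply IntF.succ | with_reducible apply IntF.val | with_reducible apply IntF.mk | with_reducible apply Int.finite | (with_reducible refine Int.comp ?_ ?_; assumption) | (with_reducible refine Int.comp₂ ?_ ?_ ?_; assumption) | (with_reducible refine Int.comp₃ ?_ ?_ ?_ ?_; assumption) | (with_reducible refine Int.comp₄ ?_ ?_ ?_ ?_ ?_; assumption) | (with_reducible refine IntF.comp ?_ ?_; assumption) | (with_reducible refine IntF.comp₂ ?_ ?_ ?_; assumption) | (with_reducible refine IntF.comp₃ ?_ ?_ ?_ ?_; assumption) | with_reducible apply IntF.pair))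

theorem op_of {U : IPow N (α ⊕ Cut N Λ)} (a b : Λ ⊕ PUnit.{u+1}) (s : Set α) (hs : s.Finite)
    (h1 : ∀ c, Sum.inr c ∈ U ↔ Lo f a (Sum.inr c) ∧ Hi f b (Sum.inr c))
    (h2 : ∀ d, Lo (N := N) f a (Sum.inl d) → Hi (N := N) f b (Sum.inl d) → d ∉ s →
      Sum.inl d ∈ U) : Op f U := by
  intro c hc
  refine ⟨a, b, ((h1 c).1 hc).1, ((h1 c).1 hc).2, fun c' h3 h4 => (h1 c').2 ⟨h3, h4⟩,
    hs.subset ?_⟩
  rintro d ⟨h3, h4, h5⟩
  by_contra h6
  exact h5 (h2 d h3 h4 h6)

theorem op_inter {U V X : IPow N (α ⊕ Cut N Λ)} (hU : Op f U) (hV : Op f V)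
    (h : ∀ k, k ∈ X ↔ k ∈ U ∧ k ∈ V) : Op f X := by
  intro c hc
  obtain ⟨a, b, h1, h2, h3, h4⟩ := hU c ((h _).1 hc).1
  obtain ⟨a', b', h1', h2', h3', h4'⟩ := hV c ((h _).1 hc).2
  obtain ⟨a'', ha⟩ := lo_inter (N := N) (f := f) a a'
  obtain ⟨b'', hb⟩ := hi_inter (N := N) (f := f) b b'
  refine ⟨a'', b'', (ha _).2 ⟨h1, h1'⟩, (hb _).2 ⟨h2, h2'⟩, fun c' h5 h6 => (h _).2
    ⟨h3 c' ((ha _).1 h5).1 ((hb _).1 h6).1, h3' c' ((ha _).1 h5).2 ((hb _).1 h6).2⟩,
    (h4.union h4').subset ?_⟩
  rintro d ⟨h5, h6, h7⟩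
  rw [h, not_and_or] at h7
  rcases h7 with h7 | h7
  · exact Or.inl ⟨((ha _).1 h5).1, ((hb _).1 h6).1, h7⟩
  · exact Or.inr ⟨((ha _).1 h5).2, ((hb _).1 h6).2, h7⟩

theorem op_union {X : IPow N (α ⊕ Cut N Λ)}
    (h : ∀ k, k ∈ X → ∃ U, Op f U ∧ k ∈ U ∧ ∀ k', k' ∈ U → k' ∈ X) : Op f X := by
  intro c hc
  obtain ⟨U, hU, h0, h5⟩ := h _ hc
  obtain ⟨a, b, h1, h2, h3, h4⟩ := hU c h0
  exact ⟨a, b, h1, h2, fun c' h6 h7 => h5 _ (h3 c' h6 h7), h4.subset fun d ⟨h6, h7, h8⟩ =>
    ⟨h6, h7, fun h9 => h8 (h5 _ h9)⟩⟩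

theorem op_hausdorff (hf : IntF N f) (x y : α ⊕ Cut N Λ) (hxy : x ≠ y) :
    ∃ U V : IPow N (α ⊕ Cut N Λ), Op f U ∧ Op f V ∧ x ∈ U ∧ y ∈ V ∧ ∀ k, ¬ (k ∈ U ∧ k ∈ V) := by
  have h1 : ∀ (d : α) (y : α ⊕ Cut N Λ), Sum.inl d ≠ y → ∃ U V : IPow N (α ⊕ Cut N Λ), Op f U ∧
      Op f V ∧ Sum.inl d ∈ U ∧ y ∈ V ∧ ∀ k, ¬ (k ∈ U ∧ k ∈ V) := by
    intro d y hy
    have i1 : Int N (fun k : α ⊕ Cut N Λ => k = Sum.inl d) := by (repeat' (first | with_reducible exact IntF.id | with_reducible exact IntF.fst' | with_reducible exact IntF.snd' | with_reducible exact IntF.const _ | with_reducible exact Int.const _ | assumption | with_reducible apply Int.and | with_reducible apply Int.or | with_reducible apply Int.not | with_reducible apply Int.imp | with_reducible apply Int.iff | with_reducible apply Int.ne | with_reducible apply Int.eq | with_reducible apply Int.mem | with_reducible apply Int.subset | with_reducible apply Int.ltN | with_reducible apply Int.leN | with_reducible_and_instances apply Int.le | with_reducible_and_instances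 apply Int.lt | with_reducible apply Int.all | with_reducible apply Int.ex | with_reducible apply IntF.fst | with_reducible apply IntF.snd | with_reducible apply IntF.app | with_reducible apply IntF.inl | with_reducible apply IntF.inr | with_reducible_and_instances apply IntF.mul | with_reducible_and_instances apply IntF.inv | with_reducible_and_instances apply IntF.add | with_reducible_and_instances apply IntF.sub | with_reducible_and_instances apply IntF.neg | with_reducible_and_instances apply IntF.div | with_reducible_and_instances apply IntF.smul | with_reducible apply IntF.succ | with_reducible apply IntF.val | with_reducible apply IntF.mk | (with_reducible refine Int.comp ?_ ?_; assumption) | (with_reducible refine Int.comp₂ ?_ ?_ ?_; assumption) | (with_reducible refine Int.comp₃ ?_ ?_ ?_ ?_; assumption) | (with_reducible refine Int.comp₄ ?_ ?_ ?_ ?_ ?_; assumption) | (with_reducible refine IntF.comp ?_ ?_; assumption) | (with_reducible refine IntF.comp₂ ?_ ?_ ?_; assumption) | (with_reducible refine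 IntF.comp₃ ?_ ?_ ?_ ?_; assumption) | with_reducible apply IntF.pair))
    refine ⟨⟨_, i1⟩, ⟨_, i1.not⟩, fun c hc => ?_, ?_, rfl, fun h => hy h.symm,
      fun k hk => hk.2 hk.1⟩
    · cases hc
    · refine op_of (Sum.inr PUnit.unit) (Sum.inr PUnit.unit) {d} (Set.finite_singleton d)
        (fun c => ?_) fun d' _ _ h2 h3 => h2 (Sum.inl_injective h3)
      refine ⟨fun _ => by simp [Lo, Hi], fun _ h => ?_⟩
      cases h
  have h2 : ∀ (c c' : Cut N Λ) (l : Λ), l ∈ c.1 → ¬ l ∈ c'.1 →
      ∃ U V : IPow N (α ⊕ Cut N Λ), Op f U ∧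
      Op f V ∧ Sum.inr c ∈ U ∧ Sum.inr c' ∈ V ∧ ∀ k, ¬ (k ∈ U ∧ k ∈ V) := by
    intro c c' l hc hc'
    have i1 : Int N (fun k : α ⊕ Cut N Λ => W f l k) := (int_W hf).slice l
    refine ⟨⟨_, i1⟩, ⟨_, i1.not⟩, ?_, ?_, W_inr.2 hc, fun h => hc' (W_inr.1 h),
      fun k hk => hk.2 hk.1⟩
    · refine op_of (Sum.inl l) (Sum.inr PUnit.unit) ∅ Set.finite_empty (fun c => ?_)
        fun d h3 _ _ => h3 l rfl
      change W f l (Sum.inr c) ↔ _
      simp [Lo, Hi]
    · refine op_of (Sum.inr PUnit.unit) (Sum.inl l) ∅ Set.finite_empty (fun c => ?_)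
        fun d _ h3 _ => h3 l rfl
      change ¬ W f l (Sum.inr c) ↔ _
      simp [Lo, Hi]
  rcases x with d | c
  · exact h1 d y hxy
  · rcases y with d | c'
    · obtain ⟨U, V, h3, h4, h5, h6, h7⟩ := h1 d (Sum.inr c) hxy.symm
      exact ⟨V, U, h4, h3, h6, h5, fun k hk => h7 k hk.symm⟩
    · have h3 : ∃ l, ¬ (l ∈ c.1 ↔ l ∈ c'.1) := by
        by_contra h3
        push Not at h3
        exact hxy (congrArg Sum.inr (Subtype.ext (IPow.ext' h3)))
      obtain ⟨l, hl⟩ := h3
      by_cases h4 : l ∈ c.1
      · exact h2 c c' l h4 fun h5 => hl ⟨fun _ => h5, fun _ => h4⟩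
      · have h5 : l ∈ c'.1 := by
          by_contra h5
          exact hl ⟨fun h => absurd h h4, fun h => absurd h h5⟩
        obtain ⟨U, V, h3, h4, h5, h6, h7⟩ := h2 c' c l h5 h4
        exact ⟨V, U, h4, h3, h6, h5, fun k hk => h7 k hk.symm⟩

theorem op_compact (hf : IntF N f) {F : IPow N (α ⊕ Cut N Λ) → Prop} (hF : Int N F)
    (hop : ∀ U, F U → Op f U) (hc : ∀ k, ∃ U, F U ∧ k ∈ U) :
    ∃ S : Set (IPow N (α ⊕ Cut N Λ)), S.Finite ∧ (∀ U ∈ S, F U) ∧ ∀ k, ∃ U ∈ S, k ∈ U := by
  have hW := int_W hf
  let FC : (α ⊕ Cut N Λ → Prop) → Prop := fun p => ∃ S : Set (IPow N (α ⊕ Cut N Λ)), S.Finite ∧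
    (∀ U ∈ S, F U) ∧ ∀ k, p k → ∃ U ∈ S, k ∈ U
  have hI : Int N (fun l : Λ => FC (fun k => ¬ W f l k)) := by
    have h1 : Int N (fun l : Λ => ∃ S : IPow N (IPow N (α ⊕ Cut N Λ)), {U | U ∈ S}.Finite ∧
      (∀ U, U ∈ S → F U) ∧ ∀ k, ¬ W f l k → ∃ U, U ∈ S ∧ k ∈ U) := by (repeat' (first | with_reducible exact IntF.id | with_reducible exact IntF.fst' | with_reducible exact IntF.snd' | with_reducible exact IntF.const _ | with_reducible exact Int.const _ | assumption | with_reducible apply Int.and | with_reducible apply Int.or | with_reducible apply Int.not | with_reducible apply Int.imp | with_reducible apply Int.iff | with_reducible apply Int.ne | with_reducible apply Int.eq | with_reducible apply Int.mem | with_reducible apply Int.subset | with_reducible apply Int.ltN | with_reducible apply Int.leN | with_reducible_and_instances apply Int.le | with_reducible_and_instances apply Int.lt | with_reducible apply Int.all | with_reducible apply Int.ex | with_reducible apply IntF.fst | with_reducible apply IntF.snd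 | with_reducible apply IntF.app | with_reducible apply IntF.inl | with_reducible apply IntF.inr | with_reducible_and_instances apply IntF.mul | with_reducible_and_instances apply IntF.inv | with_reducible_and_instances apply IntF.add | with_reducible_and_instances apply IntF.sub | with_reducible_and_instances apply IntF.neg | with_reducible_and_instances apply IntF.div | with_reducible_and_instances apply IntF.smul | with_reducible apply IntF.succ | with_reducible apply IntF.val | with_reducible apply IntF.mk | with_reducible apply Int.finite | (with_reducible refine Int.comp ?_ ?_; assumption) | (with_reducible refine Int.comp₂ ?_ ?_ ?_; assumption) | (with_reducible refine Int.comp₃ ?_ ?_ ?_ ?_; assumption) | (with_reducible refine Int.comp₄ ?_ ?_ ?_ ?_ ?_; assumption) | (with_reducible refine IntF.comp ?_ ?_; assumption) | (with_reducible refine IntF.comp₂ ?_ ?_ ?_; assumption) | (with_reducible refine IntF.comp₃ ?_ ?_ ?_ ?_; assumption) | with_reducible apply IntF.pair))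
    refine h1.congr fun l => ⟨fun ⟨S, h2, h3, h4⟩ => ⟨_, h2, h3, h4⟩, fun ⟨S, h2, h3, h4⟩ => ?_⟩
    exact ⟨⟨_, int_of_finite h2⟩, h2, h3, h4⟩
  let c₀ : Cut N Λ := ⟨⟨_, hI⟩, fun a b hab ⟨S, h2, h3, h4⟩ =>
    ⟨S, h2, h3, fun k hk => h4 k fun h => hk (h.anti hab)⟩⟩
  obtain ⟨U, hU, h0⟩ := hc (Sum.inr c₀)
  obtain ⟨a, b, h1, h2, h3, h4⟩ := hop U hU c₀ h0
  have h5 : FC (fun k => ¬ Lo f a k) := by
    rcases a with l | x
    · obtain ⟨S, h5, h6, h7⟩ : FC (fun k => ¬ W f l k) := W_inr.1 (h1 l rfl)
      exact ⟨S, h5, h6, fun k hk => h7 k fun h => hk fun l' h' => by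
        obtain rfl := Sum.inl_injective h'
        exact h⟩
    · exact ⟨∅, Set.finite_empty, fun U h => absurd h (Set.notMem_empty _),
        fun k hk => absurd (fun l h => by cases h) hk⟩
  choose g hg hg' using hc
  have h6 : FC (fun k => Hi f b k) := by
    obtain ⟨S, h5, h6, h7⟩ := h5
    refine ⟨S ∪ insert U ((fun d => g (Sum.inl d)) '' _), h5.union ((h4.image _).insert U), ?_,
      fun k hk => ?_⟩
    · rintro V (h | rfl | ⟨d, -, rfl⟩)
      · exact h6 V h
      · exact hU
      · exact hg _
    · by_cases h8 : Lo f a k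
      · by_cases h9 : k ∈ U
        · exact ⟨U, Or.inr (Or.inl rfl), h9⟩
        · rcases k with d | c
          · exact ⟨_, Or.inr (Or.inr ⟨d, ⟨h8, hk, h9⟩, rfl⟩), hg' _⟩
          · exact absurd (h3 c h8 hk) h9
      · obtain ⟨V, h9, h10⟩ := h7 k h8
        exact ⟨V, Or.inl h9, h10⟩
  rcases b with l | x
  · refine absurd (W_inr.2 ?_) (h2 l rfl)
    obtain ⟨S, h5, h6, h7⟩ := h6
    exact ⟨S, h5, h6, fun k hk => h7 k fun l' h' => by
      obtain rfl := Sum.inl_injective h'
      exact hk⟩
  · obtain ⟨S, h5, h6, h7⟩ := h6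
    exact ⟨S, h5, h6, fun k => h7 k fun l h => by cases h⟩

variable [DenselyOrdered Λ] [NoMaxOrder Λ] [NoMinOrder Λ] [Nonempty Λ]

theorem box_interval {a b : Λ ⊕ PUnit.{u+1}} {c : Cut N Λ} (h1 : Lo f a (Sum.inr c))
    (h2 : Hi f b (Sum.inr c)) : ∃ lo hi : Λ, lo < hi ∧ (∀ l, a = Sum.inl l → l ≤ lo) ∧
      ∀ l, b = Sum.inl l → hi ≤ l := by
  rcases a with l | x <;> rcases b with l' | y
  · refine ⟨l, l', ?_, by simp, by simp⟩
    by_contra h
    exact h2 l' rfl ((h1 l rfl).anti (not_lt.1 h))
  · obtain ⟨l', h⟩ := exists_gt l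
    exact ⟨l, l', h, by simp, by simp⟩
  · obtain ⟨l, h⟩ := exists_lt l'
    exact ⟨l, l', h, by simp, by simp⟩
  · obtain ⟨l⟩ : Nonempty Λ := inferInstance
    obtain ⟨l', h⟩ := exists_gt l
    exact ⟨l, l', h, by simp, by simp⟩

theorem op_dense (hs : Function.Surjective f) {U : IPow N (α ⊕ Cut N Λ)} (hU : Op f U)
    {k : α ⊕ Cut N Λ} (hk : k ∈ U) : ∃ d, Sum.inl d ∈ U := by
  rcases k with d | c
  · exact ⟨d, hk⟩
  obtain ⟨a, b, h1, h2, -, h4⟩ := hU c hk
  obtain ⟨lo, hi, h5, h6, h7⟩ := box_interval h1 h2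
  by_contra h8
  push Not at h8
  refine Set.Ico_infinite h5 ((h4.image f).subset fun m hm => ?_)
  obtain ⟨d, rfl⟩ := hs m
  exact ⟨d, ⟨fun l hl => W_inl.2 ((h6 l hl).trans hm.1),
    fun l hl h => absurd (lt_of_lt_of_le hm.2 (h7 l hl)) (not_lt.2 (W_inl.1 h)), h8 d⟩, rfl⟩

theorem op_perfect {U : IPow N (α ⊕ Cut N Λ)} (hU : Op f U) {c : Cut N Λ} (hc : Sum.inr c ∈ U) :
    ∃ c', c' ≠ c ∧ Sum.inr c' ∈ U := by
  obtain ⟨a, b, h1, h2, h3, -⟩ := hU c hc
  obtain ⟨lo, hi, h5, h6, h7⟩ := box_interval h1 h2
  obtain ⟨m, h8, h9⟩ := exists_between h5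
  let ct : Λ → Cut N Λ := fun m => ⟨⟨fun l => l ≤ m, by (repeat' (first | with_reducible exact IntF.id | with_reducible exact IntF.fst' | with_reducible exact IntF.snd' | with_reducible exact IntF.const _ | with_reducible exact Int.const _ | assumption | with_reducible apply Int.and | with_reducible apply Int.or | with_reducible apply Int.not | with_reducible apply Int.imp | with_reducible apply Int.iff | with_reducible apply Int.ne | with_reducible apply Int.eq | with_reducible apply Int.mem | with_reducible apply Int.subset | with_reducible apply Int.ltN | with_reducible apply Int.leN | with_reducible_and_instances apply Int.le | with_reducible_and_instances apply Int.lt | with_reducible apply Int.all | with_reducible apply Int.ex | with_reducible apply IntF.fst | with_reducible apply IntF.snd | with_reducible apply IntF.app | with_reducible apply IntF.inl | with_reducible apply IntF.inr | with_reducible_and_instances apply IntF.mul | with_reducible_and_instances apply IntF.inv | with_reducible_and_instances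 apply IntF.add | with_reducible_and_instances apply IntF.sub | with_reducible_and_instances apply IntF.neg | with_reducible_and_instances apply IntF.div | with_reducible_and_instances apply IntF.smul | with_reducible apply IntF.succ | with_reducible apply IntF.val | with_reducible apply IntF.mk | (with_reducible refine Int.comp ?_ ?_; assumption) | (with_reducible refine Int.comp₂ ?_ ?_ ?_; assumption) | (with_reducible refine Int.comp₃ ?_ ?_ ?_ ?_; assumption) | (with_reducible refine Int.comp₄ ?_ ?_ ?_ ?_ ?_; assumption) | (with_reducible refine IntF.comp ?_ ?_; assumption) | (with_reducible refine IntF.comp₂ ?_ ?_ ?_; assumption) | (with_reducible refine IntF.comp₃ ?_ ?_ ?_ ?_; assumption) | with_reducible apply IntF.pair))⟩, fun a b hab h => le_trans hab h⟩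
  have h10 : ∀ m, lo ≤ m → m < hi → Sum.inr (ct m) ∈ U := fun m h11 h12 =>
    h3 _ (fun l hl => W_inr.2 ((h6 l hl).trans h11)) fun l hl h =>
      absurd (lt_of_lt_of_le h12 (h7 l hl)) (not_lt.2 (W_inr.1 h))
  by_cases h11 : ct lo = c
  · refine ⟨ct m, fun h => ?_, h10 m h8.le h9⟩
    have h12 : m ∈ (ct m).1 := le_refl m
    rw [h, ← h11] at h12
    exact absurd h8 (not_lt.2 h12)
  · exact ⟨ct lo, h11, h10 lo le_rfl h5⟩

end typed

section plain

variable {N : Type u} [LSet.Structure N]

attribute [local instance] toL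

variable [hN : IsModel N]
variable {κ : Type u} [ITy N κ]

theorem pmem_code {s : IPow N κ} {z : N} : Plain.Mem z (code s) ↔ ∃ a, a ∈ s ∧ code a = z :=
  mem_code_pow (M := N)

theorem pmem_code' {s : IPow N κ} {a : κ} : Plain.Mem (code a : N) (code s) ↔ a ∈ s :=
  mem_code_iff (M := N)

theorem pmem_dom {z : N} : Plain.Mem z (dom N κ) ↔ ∃ a : κ, code a = z := mem_dom (M := N)

theorem pcode_mem_dom (a : κ) : Plain.Mem (code a : N) (dom N κ) := code_mem_dom (M := N) a

theorem pmem_gr {p : κ → Prop} (h : Int N p) {z : N} :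
    Plain.Mem z (gr h) ↔ ∃ a, p a ∧ code a = z := mem_gr h

theorem exists_code {Y : N} (h : Sub Y (dom N κ)) : ∃ s : IPow N κ, code s = Y := by
  refine ⟨⟨fun a => Mem (code a) Y, Y, fun _ => Iff.rfl⟩, hN.ext _ _ trivial trivial fun z => ?_⟩
  refine pmem_code.trans ⟨?_, fun hz => ?_⟩
  · rintro ⟨a, ha, rfl⟩
    exact ha
  · obtain ⟨a, rfl⟩ := pmem_dom.1 (h z hz)
    exact ⟨a, hz, rfl⟩

theorem sub_code (s : IPow N κ) : Sub (code s : N) (dom N κ) := fun z hz => by
  obtain ⟨a, -, rfl⟩ := pmem_code.1 hz
  exact pcode_mem_dom a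

theorem maps_gr {κ' : Type u} [ITy N κ'] {r : κ × κ' → Prop} (h : Int N r) {x y : N} :
    Maps (gr h) x y ↔ ∃ a b, r (a, b) ∧ code a = x ∧ code b = y := by
  rw [maps_iff, mem_gr]
  constructor
  · rintro ⟨⟨a, b⟩, h1, h2⟩
    obtain ⟨h3, h4⟩ := op_inj h2
    exact ⟨a, b, h1, h3, h4⟩
  · rintro ⟨a, b, h1, rfl, rfl⟩
    exact ⟨(a, b), h1, rfl⟩

variable [Std N]

theorem good_of_dlo {D : N} {Λ : Type u} [ITy N Λ] [LinearOrder Λ] [ILE N Λ] [DenselyOrdered Λ]
    [NoMaxOrder Λ] [NoMinOrder Λ] [Nonempty Λ] {f : El D → Λ} (hf : IntF N f)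
    (hs : Function.Surjective f) :
    ∃ K τ h, IsCompactification D K τ h ∧ ¬ IsScattered K τ := by
  have hO := int_Op hf
  have hh : IntF N (fun d : El D => (Sum.inl d : El D ⊕ Cut N Λ)) := IntF.inl'
  have hτ : ∀ U, Plain.Mem U (gr hO) ↔ ∃ s, Op f s ∧ code s = U := fun U => pmem_gr hO
  have hτ' : ∀ s, Plain.Mem (code s) (gr hO) ↔ Op f s := fun s => code_mem_gr hO
  have hm : ∀ x y, Maps (gr hh) x y ↔ ∃ d : El D, d.1 = x ∧
      code (Sum.inl d : El D ⊕ Cut N Λ) = y := by
    intro x y
    rw [maps_gr]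
    constructor
    · rintro ⟨a, b, h0, h1, h2⟩
      have h3 : Sum.inl a = b := h0
      subst h3
      exact ⟨a, h1, h2⟩
    · rintro ⟨a, h1, h2⟩
      exact ⟨a, _, rfl, h1, h2⟩
  refine ⟨dom N (El D ⊕ Cut N Λ), gr hO, gr hh, ⟨⟨fun U hU => ?_, ?_, ?_, ?_⟩, ?_, ?_,
    ⟨⟨fun p hp => ?_, fun x hx => ?_⟩, ?_⟩, fun A hA => ?_, fun U hU ⟨k, hk⟩ => ?_⟩, fun hsc => ?_⟩
  · obtain ⟨s, -, rfl⟩ := (hτ U).1 hU
    exact sub_code s
  · obtain ⟨s, hs⟩ := exists_code (κ := El D ⊕ Cut N Λ) (Y := dom N (El D ⊕ Cut N Λ)) fun _ h => h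
    refine (hτ _).2 ⟨s, ?_, hs⟩
    have h1 : ∀ k, k ∈ s := fun k => pmem_code'.1 (hs ▸ pcode_mem_dom k)
    exact op_of (Sum.inr PUnit.unit) (Sum.inr PUnit.unit) ∅ Set.finite_empty
      (fun c => by simp [h1, Lo, Hi]) fun d _ _ _ => h1 _
  · intro U V X hU hV hX
    obtain ⟨s, h1, rfl⟩ := (hτ U).1 hU
    obtain ⟨t, h2, rfl⟩ := (hτ V).1 hV
    obtain ⟨x, rfl⟩ := exists_code (κ := El D ⊕ Cut N Λ) (Y := X) fun z hz =>
      sub_code s z ((hX z).1 hz).1
    refine (hτ' x).2 (op_inter h1 h2 fun k => ?_)
    rw [← pmem_code', hX, pmem_code', pmem_code']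
  · intro F X hF hX
    obtain ⟨x, rfl⟩ := exists_code (κ := El D ⊕ Cut N Λ) (Y := X) fun z hz => by
      obtain ⟨U, h1, h2⟩ := (hX z).1 hz
      obtain ⟨s, -, rfl⟩ := (hτ U).1 (hF U h1)
      exact sub_code s z h2
    refine (hτ' x).2 (op_union fun k hk => ?_)
    obtain ⟨U, h1, h2⟩ := (hX _).1 (pmem_code'.2 hk)
    obtain ⟨s, h3, rfl⟩ := (hτ U).1 (hF U h1)
    exact ⟨s, h3, pmem_code'.1 h2, fun k' hk' => pmem_code'.1 ((hX _).2
      ⟨_, h1, pmem_code'.2 hk'⟩)⟩
  · intro x y hx hy hxy
    obtain ⟨a, rfl⟩ := pmem_dom.1 hx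
    obtain ⟨b, rfl⟩ := pmem_dom.1 hy
    obtain ⟨U, V, h1, h2, h3, h4, h5⟩ := op_hausdorff hf a b fun h => hxy (congrArg code h)
    refine ⟨code U, code V, (hτ' U).2 h1, (hτ' V).2 h2, pmem_code'.2 h3, pmem_code'.2 h4,
      fun z ⟨h6, h7⟩ => ?_⟩
    obtain ⟨k, h8, rfl⟩ := pmem_code.1 h6
    exact h5 k ⟨h8, pmem_code'.1 h7⟩
  · intro F hF hc
    obtain ⟨S, h1, h2, h3⟩ := op_compact hf (F := fun s => Mem (code s) F) ⟨F, fun _ => Iff.rfl⟩
      (fun U hU => (hτ' U).1 (hF _ hU)) fun k => by
        obtain ⟨U, h1, h2⟩ := hc _ (pcode_mem_dom k)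
        obtain ⟨s, -, rfl⟩ := (hτ U).1 (hF U h1)
        exact ⟨s, h1, pmem_code'.1 h2⟩
    have hI := int_of_finite (M := N) h1
    refine ⟨gr hI, fun U hU => ?_, isFinite_iff.2 ((h1.image code).subset fun U hU => ?_),
      fun x hx => ?_⟩
    · obtain ⟨s, h4, rfl⟩ := (pmem_gr hI).1 hU
      exact h2 s h4
    · exact (pmem_gr hI).1 hU
    · obtain ⟨k, rfl⟩ := pmem_dom.1 hx
      obtain ⟨U, h4, h5⟩ := h3 k
      exact ⟨code U, (pmem_gr hI).2 ⟨U, h4, rfl⟩, pmem_code'.2 h5⟩
  · obtain ⟨⟨a, b⟩, h1, rfl⟩ := (pmem_gr hh).1 hp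
    exact ⟨a.1, code b, a.2, pcode_mem_dom b, plain_ordPair'.2 rfl⟩
  · refine ⟨_, (hm _ _).2 ⟨⟨x, hx⟩, rfl, rfl⟩, fun y hy => ?_⟩
    obtain ⟨d, rfl, rfl⟩ := (hm _ _).1 hy
    rfl
  · intro x x' y h1 h2
    obtain ⟨d, rfl, rfl⟩ := (hm _ _).1 h1
    obtain ⟨d', rfl, h3⟩ := (hm _ _).1 h2
    rw [Sum.inl_injective (ITy.inj h3)]
  · have h0 : Int N (fun d : El D => Mem d.1 A) := ⟨A, fun _ => Iff.rfl⟩
    have hI : Int N (fun k : El D ⊕ Cut N Λ => ∃ d : El D, k = Sum.inl d ∧ Mem d.1 A) := by
      refine Int.ex (Int.and (by (repeat' (first | with_reducible exact IntF.id | with_reducible exact IntF.fst' | with_reducible exact IntF.snd' | with_reducible exact IntF.const _ | with_reducible exact Int.const _ | assumption | with_reducible apply Int.and | with_reducible apply Int.or | with_reducible apply Int.not | with_reducible apply Int.imp | with_reducible apply Int.iff | with_reducible apply Int.ne | with_reducible apply Int.eq | with_reducible apply Int.mem | with_reducible apply Int.subset | with_reducible apply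 Int.ltN | with_reducible apply Int.leN | with_reducible_and_instances apply Int.le | with_reducible_and_instances apply Int.lt | with_reducible apply Int.all | with_reducible apply Int.ex | with_reducible apply IntF.fst | with_reducible apply IntF.snd | with_reducible apply IntF.app | with_reducible apply IntF.inl | with_reducible apply IntF.inr | with_reducible_and_instances apply IntF.mul | with_reducible_and_instances apply IntF.inv | with_reducible_and_instances apply IntF.add | with_reducible_and_instances apply IntF.sub | with_reducible_and_instances apply IntF.neg | with_reducible_and_instances apply IntF.div | with_reducible_and_instances apply IntF.smul | with_reducible apply IntF.succ | with_reducible apply IntF.val | with_reducible apply IntF.mk | (with_reducible refine Int.comp ?_ ?_; assumption) | (with_reducible refine Int.comp₂ ?_ ?_ ?_; assumption) | (with_reducible refine Int.comp₃ ?_ ?_ ?_ ?_; assumption) | (with_reducible refine Int.comp₄ ?_ ?_ ?_ ?_ ?_; assumption) | (with_reducible refine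 IntF.comp ?_ ?_; assumption) | (with_reducible refine IntF.comp₂ ?_ ?_ ?_; assumption) | (with_reducible refine IntF.comp₃ ?_ ?_ ?_ ?_; assumption) | with_reducible apply IntF.pair))) (Int.comp (p := fun d : El D => Mem d.1 A) h0 IntF.snd'))
    refine ⟨code (⟨_, hI⟩ : IPow N (El D ⊕ Cut N Λ)), (hτ' _).2 ?_, fun d k hk => ?_⟩
    · rintro c ⟨d, h, -⟩
      cases h
    · obtain ⟨d, rfl, rfl⟩ := (hm _ _).1 hk
      rw [pmem_code']
      constructor
      · rintro ⟨d', h1, h2⟩
        rw [Sum.inl_injective h1]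
        exact h2
      · intro h
        exact ⟨d, rfl, h⟩
  · obtain ⟨s, h1, rfl⟩ := (hτ U).1 hU
    obtain ⟨k, h2, rfl⟩ := pmem_code.1 hk
    obtain ⟨d, h3⟩ := op_dense hs h1 h2
    exact ⟨d.1, _, (hm _ _).2 ⟨d, rfl, rfl⟩, pmem_code'.2 h3⟩
  · have hI : Int N (fun k : El D ⊕ Cut N Λ => ∃ c, k = Sum.inr c) := by (repeat' (first | with_reducible exact IntF.id | with_reducible exact IntF.fst' | with_reducible exact IntF.snd' | with_reducible exact IntF.const _ | with_reducible exact Int.const _ | assumption | with_reducible apply Int.and | with_reducible apply Int.or | with_reducible apply Int.not | with_reducible apply Int.imp | with_reducible apply Int.iff | with_reducible apply Int.ne | with_reducible apply Int.eq | with_reducible apply Int.mem | with_reducible apply Int.subset | with_reducible apply Int.ltN | with_reducible apply Int.leN | with_reducible_and_instances apply Int.le | with_reducible_and_instances apply Int.lt | with_reducible apply Int.all | with_reducible apply Int.ex | with_reducible apply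 IntF.fst | with_reducible apply IntF.snd | with_reducible apply IntF.app | with_reducible apply IntF.inl | with_reducible apply IntF.inr | with_reducible_and_instances apply IntF.mul | with_reducible_and_instances apply IntF.inv | with_reducible_and_instances apply IntF.add | with_reducible_and_instances apply IntF.sub | with_reducible_and_instances apply IntF.neg | with_reducible_and_instances apply IntF.div | with_reducible_and_instances apply IntF.smul | with_reducible apply IntF.succ | with_reducible apply IntF.val | with_reducible apply IntF.mk | (with_reducible refine Int.comp ?_ ?_; assumption) | (with_reducible refine Int.comp₂ ?_ ?_ ?_; assumption) | (with_reducible refine Int.comp₃ ?_ ?_ ?_ ?_; assumption) | (with_reducible refine Int.comp₄ ?_ ?_ ?_ ?_ ?_; assumption) | (with_reducible refine IntF.comp ?_ ?_; assumption) | (with_reducible refine IntF.comp₂ ?_ ?_ ?_; assumption) | (with_reducible refine IntF.comp₃ ?_ ?_ ?_ ?_; assumption) | with_reducible apply IntF.pair))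
    have c₀ : Cut N Λ := ⟨⟨fun _ => True, Int.const _⟩, fun _ _ _ _ => trivial⟩
    obtain ⟨y, U, h1, h2, h3⟩ := hsc (code (⟨_, hI⟩ : IPow N (El D ⊕ Cut N Λ))) (sub_code _)
      ⟨_, pmem_code'.2 ⟨c₀, rfl⟩⟩
    obtain ⟨s, h4, rfl⟩ := (hτ U).1 h2
    obtain ⟨k, ⟨c, rfl⟩, rfl⟩ := pmem_code.1 h1
    obtain ⟨c', h5, h6⟩ := op_perfect h4 (pmem_code'.1 ((h3 _).2 rfl).1)
    exact h5 (Sum.inr_injective (ITy.inj ((h3 _).1 ⟨pmem_code'.2 h6, pmem_code'.2 ⟨c', rfl⟩⟩)))

end plain

end Pool.Agent.Helper672.ZFA.H875
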